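import Mathlib

/-!
Submodular functions on the lattice of subspaces and the sums `W + T W + ⋯ + T ^ t W`.
-/

set_option autoImplicit false

namespace Pool.Agent.H430.Ft

open Finset Module

section

variable {k V : Type} [Field k] [AddCommGroup V] [Module k V]

/-- the sum of the subspaces `T ^ j W`, `j ≤ t` -/
def Wt (T : V →ₗ[k] V) (W : Submodule k V) : ℕ → Submodule k V
  | 0 => W
  | t + 1 => Wt T W t ⊔ (Wt T W t).map T

lemma Wt_succ (T : V →ₗ[k] V) (W : Submodule k V) (t : ℕ) :
    Wt T W (t + 1) = Wt T W t ⊔ (Wt T W t).map T := rfl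

lemma Wt_mono (T : V →ₗ[k] V) (W : Submodule k V) : Monotone (Wt T W) :=
  monotone_nat_of_le_succ fun _ => le_sup_left

/-- the subspaces which control the sum -/
theorem cert (T : V →ₗ[k] V) (W : Submodule k V) :
    ∀ (t : ℕ) (F : Submodule k V), F ≤ Wt T W t →
      ∃ (ι : Type) (_ : Fintype ι) (G : ι → Submodule k V), (∀ l, G l ≤ W) ∧
        ∀ ρ : Submodule k V → ℝ, (∀ A B, ρ (A ⊔ B) + ρ (A ⊓ B) ≤ ρ A + ρ B) →
          (∀ A, ρ (A.map T) = ρ A) → ρ (Wt T W t) - ρ F ≤ ∑ l, (ρ W - ρ (G l)) := by
  intro t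
  induction t with
  | zero =>
    intro F hF
    exact ⟨Unit, inferInstance, fun _ => F, fun _ => hF, fun ρ _ _ => by simp [Wt]⟩
  | succ t ih =>
    intro F hF
    obtain ⟨ι1, _, G1, hG1, h1⟩ := ih (F ⊓ Wt T W t) inf_le_right
    obtain ⟨ι2, _, G2, hG2, h2⟩ := ih ((F ⊔ Wt T W t).comap T ⊓ Wt T W t) inf_le_right
    refine ⟨ι1 ⊕ ι2, inferInstance, Sum.elim G1 G2, ?_, ?_⟩
    · rintro (l | l)
      · exact hG1 l
      · exact hG2 l
    · intro ρ hρ hT
      have e1 := h1 ρ hρ hT
      have e2 := h2 ρ hρ hT
      rw [Fintype.sum_sum_type]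
      simp only [Sum.elim_inl, Sum.elim_inr]
      have e3 := hρ F (Wt T W t)
      have e4 := hρ (F ⊔ Wt T W t) ((Wt T W t).map T)
      have e5 : F ⊔ Wt T W t ⊔ (Wt T W t).map T = Wt T W (t + 1) := by
        rw [sup_assoc, ← Wt_succ]
        exact sup_eq_right.2 hF
      have e6 : (F ⊔ Wt T W t) ⊓ (Wt T W t).map T =
          ((F ⊔ Wt T W t).comap T ⊓ Wt T W t).map T := by
        ext z
        constructor
        · rintro ⟨hz1, y, hy, rfl⟩
          exact ⟨y, ⟨hz1, hy⟩, rfl⟩
        · rintro ⟨y, ⟨hy1, hy2⟩, rfl⟩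
          exact ⟨hy1, y, hy2, rfl⟩
      rw [e5, e6, hT, hT] at e4
      linarith

end

section

variable {k V : Type} [Field k] [AddCommGroup V] [Module k V] [FiniteDimensional k V]

lemma finrank_sup_inf (A B : Submodule k V) :
    (finrank k (A ⊔ B : Submodule k V) : ℝ) + finrank k (A ⊓ B : Submodule k V) =
      finrank k A + finrank k B := by
  exact_mod_cast Submodule.finrank_sup_add_finrank_inf_eq A B

end

section

variable {K : Type} [Field K] {N : ℕ}

/-- multiplication of the coordinates -/
def dg (s : Fin N → K) : (Fin N → K) →ₗ[K] (Fin N → K) where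
  toFun z := fun i => s i * z i
  map_add' x y := by
    funext i
    simp [mul_add]
  map_smul' c x := by
    funext i
    simp only [Pi.smul_apply, smul_eq_mul, RingHom.id_apply]
    ring

lemma dg_apply (s : Fin N → K) (z : Fin N → K) (i : Fin N) : dg s z i = s i * z i := rfl

/-- the restriction to a set of coordinates -/
def rs (I : Finset (Fin N)) : (Fin N → K) →ₗ[K] (I → K) where
  toFun z := fun i => z i
  map_add' x y := rfl
  map_smul' c x := rfl

lemma rs_apply (I : Finset (Fin N)) (z : Fin N → K) (i : I) : rs I z i = z i := rfl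

/-- the rank of a set of coordinates on a subspace -/
noncomputable def rk (I : Finset (Fin N)) (A : Submodule K (Fin N → K)) : ℕ :=
  finrank K (A.map (rs I))

lemma rk_sub (I : Finset (Fin N)) (A B : Submodule K (Fin N → K)) :
    (rk I (A ⊔ B) : ℝ) + rk I (A ⊓ B) ≤ rk I A + rk I B := by
  unfold rk
  rw [Submodule.map_sup]
  have h1 := finrank_sup_inf (A.map (rs I)) (B.map (rs I))
  have h2 : finrank K ((A ⊓ B).map (rs I)) ≤
      finrank K (A.map (rs I) ⊓ B.map (rs I) : Submodule K (I → K)) :=
    Submodule.finrank_mono (Submodule.map_inf_le _)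
  have h3 : (finrank K ((A ⊓ B).map (rs I)) : ℝ) ≤
      finrank K (A.map (rs I) ⊓ B.map (rs I) : Submodule K (I → K)) := by exact_mod_cast h2
  linarith

lemma rk_dg (I : Finset (Fin N)) (s : Fin N → K) (hs : ∀ i, s i ≠ 0)
    (A : Submodule K (Fin N → K)) : rk I (A.map (dg s)) = rk I A := by
  unfold rk
  set sI : (I → K) →ₗ[K] (I → K) :=
    { toFun := fun z i => s i * z i
      map_add' := fun x y => by funext i; simp [mul_add]
      map_smul' := fun c x => by
        funext i
        simp only [Pi.smul_apply, smul_eq_mul, RingHom.id_apply]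
        ring } with hsI
  have h1 : (rs I).comp (dg s) = sI.comp (rs I) := by
    ext z i
    rfl
  have hinj : Function.Injective sI := by
    intro x y h
    funext i
    have h2 := congrFun h i
    exact mul_left_cancel₀ (hs i) h2
  rw [← Submodule.map_comp, h1, Submodule.map_comp]
  exact (Submodule.equivMapOfInjective sI hinj _).finrank_eq.symm

lemma finrank_dg (s : Fin N → K) (hs : ∀ i, s i ≠ 0) (A : Submodule K (Fin N → K)) :
    finrank K (A.map (dg s)) = finrank K A := by
  have hinj : Function.Injective (dg s) := by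
    intro x y h
    funext i
    exact mul_left_cancel₀ (hs i) (congrFun h i)
  exact (Submodule.equivMapOfInjective (dg s) hinj _).finrank_eq.symm

/-- all the coordinates of a set `I` are independent on `Wt` -/
lemma rk_full (s : Fin N → K) (W : Submodule K (Fin N → K)) (u : Fin N → K) (hu : u ∈ W)
    (I : Finset (Fin N)) (hI : ∀ i ∈ I, u i ≠ 0) (hs : Set.InjOn s I) (t : ℕ)
    (ht : I.card ≤ t + 1) : rk I (Wt (dg s) W t) = I.card := by
  classical
  have hprod : ∀ J : Finset (Fin N), (fun j => (∏ i ∈ J, (s j - s i)) * u j) ∈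
      Wt (dg s) W J.card := by
    intro J
    induction J using Finset.induction_on with
    | empty => simpa [Wt] using hu
    | insert i J hi ih =>
      rw [card_insert_of_notMem hi, Wt_succ]
      have h1 : (fun j => (∏ i' ∈ insert i J, (s j - s i')) * u j) =
          (-s i) • (fun j => (∏ i ∈ J, (s j - s i)) * u j) +
            dg s (fun j => (∏ i ∈ J, (s j - s i)) * u j) := by
        funext j
        rw [prod_insert hi]
        simp only [Pi.add_apply, Pi.smul_apply, smul_eq_mul, dg_apply]
        ring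
      rw [h1]
      exact Submodule.add_mem_sup (Submodule.smul_mem _ _ ih) (Submodule.mem_map_of_mem ih)
  have htop : (Wt (dg s) W t).map (rs I) = ⊤ := by
    rw [eq_top_iff]
    intro z _
    have h1 : z = ∑ i : I, z i • (Pi.single i (1 : K) : I → K) := by
      funext j
      simp [Finset.sum_apply, Pi.single_apply]
    rw [h1]
    refine Submodule.sum_mem _ fun i _ => Submodule.smul_mem _ _ ?_
    set J := I.erase i with hJ
    have hJc : J.card ≤ t := by
      rw [hJ, card_erase_of_mem i.2]
      omega
    set p : Fin N → K := fun j => (∏ i' ∈ J, (s j - s i')) * u j with hp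
    have hpW : p ∈ Wt (dg s) W t := Wt_mono _ _ hJc (hprod J)
    have hpi : p i ≠ 0 := by
      refine mul_ne_zero (prod_ne_zero_iff.2 fun j hj => ?_) (hI i i.2)
      rw [hJ, mem_erase] at hj
      exact sub_ne_zero.2 fun h => hj.1 (hs hj.2 i.2 h.symm)
    have h2 : (Pi.single i (1 : K) : I → K) = rs I ((p i)⁻¹ • p) := by
      funext j
      rw [rs_apply, Pi.smul_apply, smul_eq_mul]
      by_cases hj : j = i
      · subst hj
        rw [Pi.single_eq_same, inv_mul_cancel₀ hpi]
      · rw [Pi.single_eq_of_ne hj]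
        have h3 : p j = 0 := by
          refine mul_eq_zero_of_left (prod_eq_zero (i := (j : Fin N)) ?_ (sub_self _)) _
          rw [hJ, mem_erase]
          exact ⟨fun h => hj (Subtype.ext h), j.2⟩
        rw [h3, mul_zero]
    rw [h2]
    exact Submodule.mem_map_of_mem (Submodule.smul_mem _ _ hpW)
  unfold rk
  rw [htop, finrank_top, finrank_fintype_fun_eq_card, Fintype.card_coe]

end

end Pool.Agent.H430.Ft
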