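import Pool.Agent.H430.Ft.Dual

/-!
The refined certificate: the constant `R + m - 1` if there are not too many sets of `m` conditions
of rank one.
-/

set_option autoImplicit false

namespace Pool.Agent.H430.Ft

open Finset Module Polynomial

section

variable {k V : Type} [Field k] [AddCommGroup V] [Module k V]

lemma Wt_succ' (T : V →ₗ[k] V) (W : Submodule k V) (t : ℕ) :
    Wt T W (t + 1) = W ⊔ (Wt T W t).map T := by
  induction t with
  | zero => rfl
  | succ t ih =>
    rw [Wt_succ T W (t + 1)]
    conv_lhs => rw [ih]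
    rw [sup_assoc]
    congr 1
    rw [← ih]
    exact sup_eq_right.2 (Submodule.map_mono (Wt_mono T W (Nat.le_succ t)))

end

section

variable {K : Type} [Field K] {N : ℕ}

lemma rk_mono (I : Finset (Fin N)) {A B : Submodule K (Fin N → K)} (h : A ≤ B) :
    rk I A ≤ rk I B := Submodule.finrank_mono (Submodule.map_mono h)

lemma rk_sup_le (I : Finset (Fin N)) (A B : Submodule K (Fin N → K)) :
    rk I (A ⊔ B) ≤ rk I A + rk I B := by
  have h := rk_sub I A B
  have h1 : (rk I (A ⊔ B) : ℝ) ≤ rk I A + rk I B := by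
    have : (0 : ℝ) ≤ rk I (A ⊓ B) := Nat.cast_nonneg _
    linarith
  exact_mod_cast h1

/-- the upper bound for the growth -/
lemma rk_Wt_le (s : Fin N → K) (hs : ∀ i, s i ≠ 0) (W : Submodule K (Fin N → K))
    (I : Finset (Fin N)) (t : ℕ) : rk I (Wt (dg s) W t) ≤ (t + 1) * rk I W := by
  induction t with
  | zero => simp [Wt]
  | succ t ih =>
    rw [Wt_succ']
    refine (rk_sup_le I _ _).trans ?_
    rw [rk_dg I s hs]
    calc rk I W + rk I (Wt (dg s) W t) ≤ rk I W + (t + 1) * rk I W := by omega
      _ = (t + 1 + 1) * rk I W := by ring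

lemma rk_le_card (I : Finset (Fin N)) (A : Submodule K (Fin N → K)) : rk I A ≤ I.card := by
  unfold rk
  refine (Submodule.finrank_le _).trans ?_
  rw [finrank_fintype_fun_eq_card, Fintype.card_coe]

/-- the lower bound for the growth -/
lemma rk_Wt_ge (s : Fin N → K) (W : Submodule K (Fin N → K)) (u : Fin N → K) (hu : u ∈ W)
    (I : Finset (Fin N)) (hI : ∀ i ∈ I, u i ≠ 0) (hs : Set.InjOn s I) (t : ℕ) :
    min I.card (rk I W + t) ≤ rk I (Wt (dg s) W t) := by
  induction t with
  | zero => exact min_le_right _ _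
  | succ t ih =>
    by_cases hlt : rk I (Wt (dg s) W t) < rk I (Wt (dg s) W (t + 1))
    · omega
    · -- the restriction is stable
      have hmono : ∀ j, rk I (Wt (dg s) W t) ≤ rk I (Wt (dg s) W (t + j)) := fun j =>
        rk_mono I (Wt_mono _ _ (Nat.le_add_right t j))
      have heq0 : (Wt (dg s) W (t + 1)).map (rs I) = (Wt (dg s) W t).map (rs I) := by
        refine (Submodule.eq_of_le_of_finrank_le
          (Submodule.map_mono (Wt_mono _ _ (Nat.le_succ t))) ?_).symm
        exact not_lt.1 hlt
      set sI : (I → K) →ₗ[K] (I → K) :=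
        { toFun := fun z i => s i * z i
          map_add' := fun x y => by funext i; simp [mul_add]
          map_smul' := fun c x => by
            funext i
            simp only [Pi.smul_apply, smul_eq_mul, RingHom.id_apply]
            ring } with hsI
      have hcomm : (rs I).comp (dg s) = sI.comp (rs I) := by
        ext z i
        rfl
      have hmap : ∀ A : Submodule K (Fin N → K), (A.map (dg s)).map (rs I) =
          (A.map (rs I)).map sI := by
        intro A
        rw [← Submodule.map_comp, hcomm, Submodule.map_comp]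
      have hstab : ((Wt (dg s) W t).map (rs I)).map sI ≤ (Wt (dg s) W t).map (rs I) := by
        rw [← hmap, ← heq0]
        exact Submodule.map_mono (by rw [Wt_succ]; exact le_sup_right)
      have hall : ∀ j, (Wt (dg s) W (t + j)).map (rs I) = (Wt (dg s) W t).map (rs I) := by
        intro j
        induction j with
        | zero => rfl
        | succ j ihj =>
          rw [← add_assoc, Wt_succ, Submodule.map_sup, hmap, ihj]
          exact sup_eq_left.2 hstab
      have hfull := rk_full s W u hu I hI hs (t + I.card) (by omega)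
      have h1 : rk I (Wt (dg s) W t) = I.card := by
        rw [← hfull]
        unfold rk
        rw [hall]
      have h2 := hmono 1
      omega

/-- the rank of a set with a non-zero element -/
lemma one_le_rk {I : Finset (Fin N)} {W : Submodule K (Fin N → K)} {u : Fin N → K} (hu : u ∈ W)
    {i : Fin N} (hi : i ∈ I) (hui : u i ≠ 0) : 1 ≤ rk I W := by
  unfold rk
  rw [Nat.one_le_iff_ne_zero]
  intro h
  rw [Submodule.finrank_eq_zero, Submodule.eq_bot_iff] at h
  exact hui (congrFun (h _ (Submodule.mem_map_of_mem hu)) ⟨i, hi⟩)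

/-- on a set of rank one all the elements are proportional -/
lemma rk_one {I : Finset (Fin N)} {W : Submodule K (Fin N → K)} {u : Fin N → K} (hu : u ∈ W)
    (hI : ∀ i ∈ I, u i ≠ 0) (h1 : rk I W = 1) {f : Fin N → K} (hf : f ∈ W) :
    ∃ c : K, ∀ i ∈ I, f i = c * u i := by
  obtain ⟨i0, hi0⟩ : I.Nonempty := by
    rw [nonempty_iff_ne_empty]
    rintro rfl
    have := rk_le_card (K := K) (∅ : Finset (Fin N)) W
    rw [h1, card_empty] at this
    omega
  have hu0 : rs I u ≠ 0 := fun h => hI i0 hi0 (congrFun h ⟨i0, hi0⟩)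
  have h2 := finrank_eq_one_iff_of_nonzero' (K := K) (⟨rs I u, Submodule.mem_map_of_mem hu⟩ :
    W.map (rs I)) (fun h => hu0 (congrArg Subtype.val h))
  obtain ⟨c, hc⟩ := h2.1 h1 ⟨rs I f, Submodule.mem_map_of_mem hf⟩
  refine ⟨c, fun i hi => ?_⟩
  have h3 := congrArg Subtype.val hc
  have h4 := congrFun h3 ⟨i, hi⟩
  exact h4.symm

/-- a polynomial with many zeros vanishes -/
lemma Ev_zero {pt : Fin N → K} (hpt : Function.Injective pt) {R : ℕ} {F : Fin N → K}
    (hF : F ∈ Ev pt R) (Z : Finset (Fin N)) (hZ : ∀ i ∈ Z, F i = 0) (hc : R < Z.card) : F = 0 := by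
  classical
  obtain ⟨p, hp, h⟩ := mem_Ev.1 hF
  have h0 : p = 0 := by
    refine Polynomial.eq_zero_of_natDegree_lt_card_of_eval_eq_zero' p (Z.image pt) ?_ ?_
    · intro x hx
      obtain ⟨i, hi, rfl⟩ := mem_image.1 hx
      rw [← h i, hZ i hi]
    · rw [card_image_of_injective _ hpt]
      omega
  funext i
  rw [h i, h0, eval_zero]
  rfl

/-- relations with disjoint supports -/
lemma relations {pt : Fin N → K} (hpt : Function.Injective pt) {R : ℕ} {κ : Type} [Fintype κ]
    (J : κ → Finset (Fin N)) (hdis : ∀ k k', k ≠ k' → Disjoint (J k) (J k'))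
    (c : κ → Fin N → K) (hc : ∀ k, ∃ j ∈ J k, c k j ≠ 0)
    (htot : ∑ k, (J k).card ≤ R + 1) (A : Submodule K (Fin N → K)) (hA : A ≤ Ev pt R)
    (hcA : ∀ k, ∀ F ∈ A, ∑ j ∈ J k, c k j * F j = 0) :
    finrank K A + Fintype.card κ ≤ R + 1 := by
  classical
  set Ψ : Ev pt R →ₗ[K] (κ → K) :=
    { toFun := fun F k => ∑ j ∈ J k, c k j * (F : Fin N → K) j
      map_add' := fun x y => by
        funext k
        simp only [Submodule.coe_add, Pi.add_apply, mul_add, sum_add_distrib]
      map_smul' := fun a x => by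
        funext k
        simp only [Submodule.coe_smul, Pi.smul_apply, smul_eq_mul, RingHom.id_apply]
        rw [mul_sum]
        exact sum_congr rfl fun j _ => by ring } with hΨ
  have hsurj : LinearMap.range Ψ = ⊤ := by
    rw [eq_top_iff]
    intro z _
    have h1 : z = ∑ k, z k • (Pi.single k (1 : K) : κ → K) := by
      funext j
      simp [Finset.sum_apply, Pi.single_apply]
    rw [h1]
    refine Submodule.sum_mem _ fun k _ => Submodule.smul_mem _ _ ?_
    obtain ⟨j0, hj0, hcj⟩ := hc k
    set Z : Finset (Fin N) := (univ.biUnion J).erase j0 with hZ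
    have hj0U : j0 ∈ univ.biUnion J := mem_biUnion.2 ⟨k, mem_univ _, hj0⟩
    have hZc : Z.card ≤ R := by
      have h2 : (univ.biUnion J).card ≤ R + 1 := card_biUnion_le.trans htot
      rw [hZ, card_erase_of_mem hj0U]
      omega
    set p : K[X] := ∏ i ∈ Z, (X - C (pt i)) with hp
    have hpd : p.natDegree ≤ R := by
      refine (natDegree_prod_le _ _).trans ?_
      refine (sum_le_card_nsmul _ _ 1 fun i _ => natDegree_X_sub_C_le _).trans ?_
      simpa using hZc
    have hpe : ∀ j, p.eval (pt j) = ∏ i ∈ Z, (pt j - pt i) := by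
      intro j
      rw [hp, eval_prod]
      exact prod_congr rfl fun i _ => by simp
    have hp0 : p.eval (pt j0) ≠ 0 := by
      rw [hpe]
      refine prod_ne_zero_iff.2 fun i hi => sub_ne_zero.2 fun h => ?_
      rw [hZ, mem_erase] at hi
      exact hi.1 (hpt h.symm)
    have hpz : ∀ k' j, j ∈ J k' → j ≠ j0 → p.eval (pt j) = 0 := by
      intro k' j hj hne
      rw [hpe]
      refine prod_eq_zero (i := j) ?_ (sub_self _)
      rw [hZ, mem_erase]
      exact ⟨hne, mem_biUnion.2 ⟨k', mem_univ _, hj⟩⟩
    refine ⟨⟨(c k j0 * p.eval (pt j0))⁻¹ • ev pt p, Submodule.smul_mem _ _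
      (mem_Ev.2 ⟨p, hpd, fun i => rfl⟩)⟩, ?_⟩
    funext k'
    show ∑ j ∈ J k', c k' j * ((c k j0 * p.eval (pt j0))⁻¹ * p.eval (pt j)) = _
    by_cases hk : k' = k
    · subst hk
      rw [Pi.single_eq_same, sum_eq_single j0]
      · field_simp
      · intro j hj hne
        rw [hpz k' j hj hne, mul_zero, mul_zero]
      · intro h
        exact absurd hj0 h
    · rw [Pi.single_eq_of_ne hk]
      refine sum_eq_zero fun j hj => ?_
      have hne : j ≠ j0 := by
        rintro rfl
        exact (disjoint_left.1 (hdis k' k hk)) hj hj0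
      rw [hpz k' j hj hne, mul_zero, mul_zero]
  have h1 := LinearMap.finrank_range_add_finrank_ker Ψ
  rw [hsurj, finrank_top, finrank_fintype_fun_eq_card] at h1
  have h2 : finrank K A ≤ finrank K (LinearMap.ker Ψ) := by
    have h3 : A ≤ (LinearMap.ker Ψ).map (Ev pt R).subtype := by
      intro F hF
      refine ⟨⟨F, hA hF⟩, ?_, rfl⟩
      rw [SetLike.mem_coe, LinearMap.mem_ker]
      funext k
      exact hcA k F hF
    refine (Submodule.finrank_mono h3).trans ?_
    exact Submodule.finrank_map_le _ _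
  have h3 := finrank_Ev pt R
  omega

/-- the refined certificate -/
theorem cert_heavy [Infinite K] (pt : Fin N → K) (hpt : Function.Injective pt) (R m : ℕ)
    (hm : 2 ≤ m) (W : Submodule K (Fin N → K)) (hW : W ≤ Ev pt R) (D : Finset (Fin N))
    (u : Fin N → K) (hu : u ∈ W) (huD : ∀ i ∈ D, u i ≠ 0) (P : Finset (Fin N) → Prop)
    (hP : ∀ I, P I → I ⊆ D ∧ I.card ≤ m)
    (hPd : ∀ (κ : Type) [Fintype κ] (J : κ → Finset (Fin N)), (∀ k, P (J k) ∧ (J k).card = m) →
      (∀ k k', k ≠ k' → Disjoint (J k) (J k')) → Fintype.card κ * m ≠ R + m) :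
    ∃ (ι : Type) (_ : Fintype ι) (G : ι → Submodule K (Fin N → K)), (∀ l, G l ≤ W) ∧
      (∀ I, P I → (I.card : ℝ) ≤ ∑ l, ((rk I W : ℝ) - rk I (G l))) ∧
      ∑ l, ((finrank K W : ℝ) - finrank K (G l)) ≤ R + m - 1 := by
  classical
  obtain ⟨c, hc⟩ := Infinite.exists_notMem_finset (univ.image pt)
  have hs0 : ∀ i, pt i - c ≠ 0 := fun i h => hc (mem_image.2 ⟨i, mem_univ i, sub_eq_zero.1 h⟩)
  have hsi : Function.Injective fun i => pt i - c := fun i j h => hpt (sub_left_injective h)
  obtain ⟨t, rfl⟩ : ∃ t, m = t + 2 := ⟨m - 2, by omega⟩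
  -- the heavy sets
  set H : Finset (Finset (Fin N)) := univ.filter fun J => P J ∧ J.card = t + 2 ∧ rk J W = 1 with hH
  have hHne : ∀ J : H, (J : Finset (Fin N)).Nonempty := by
    intro J
    have h1 := (mem_filter.1 J.2).2.2.1
    exact card_pos.1 (by omega)
  have hHu : ∀ J : H, ∀ i ∈ (J : Finset (Fin N)), u i ≠ 0 := by
    intro J i hi
    exact huD i ((hP _ (mem_filter.1 J.2).2.1).1 hi)
  set φ : H → Module.Dual K W := fun J =>
    (LinearMap.proj (hHne J).choose).comp W.subtype with hφ
  have hφa : ∀ (J : H) (f : W), φ J f = (f : Fin N → K) (hHne J).choose := fun J f => rfl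
  have hφ0 : ∀ (J : H) (f : W), φ J f = 0 → ∀ i ∈ (J : Finset (Fin N)), (f : Fin N → K) i = 0 := by
    intro J f hf i hi
    obtain ⟨c', hc'⟩ := rk_one hu (hHu J) (mem_filter.1 J.2).2.2.2 f.2
    have h1 := hc' _ (hHne J).choose_spec
    rw [← hφa, hf] at h1
    have h2 : c' = 0 := by
      rcases mul_eq_zero.1 h1.symm with h | h
      · exact h
      · exact absurd h (hHu J _ (hHne J).choose_spec)
    rw [hc' i hi, h2, zero_mul]
  obtain ⟨κ, a, hainj, haspan, hali⟩ := exists_linearIndependent' K φ
  have hκ : Finite κ := Finite.of_injective a hainj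
  have hκf : Fintype κ := Fintype.ofFinite κ
  set Φ : W →ₗ[K] (κ → K) := LinearMap.pi fun k => φ (a k) with hΦ
  -- surjectivity
  have hsurj : LinearMap.range Φ = ⊤ := by
    by_contra hne
    obtain ⟨g, hg0, hg⟩ := Submodule.exists_le_ker_of_lt_top _ (lt_top_iff_ne_top.2 hne)
    have h1 : ∑ k, g (Pi.single k 1) • φ (a k) = 0 := by
      apply LinearMap.ext
      intro f
      have h2 : g (Φ f) = 0 := hg ⟨f, rfl⟩
      have h3 : Φ f = ∑ k, φ (a k) f • (Pi.single k (1 : K) : κ → K) := by
        funext j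
        simp [Finset.sum_apply, Pi.single_apply, hΦ]
      rw [h3, map_sum] at h2
      rw [LinearMap.sum_apply]
      refine Eq.trans (sum_congr rfl fun k _ => ?_) h2
      rw [map_smul, LinearMap.smul_apply, smul_eq_mul, smul_eq_mul, mul_comm]
    have h2 := Fintype.linearIndependent_iff.1 hali _ h1
    apply hg0
    apply LinearMap.pi_ext'
    intro k
    ext
    simpa using h2 k
  -- the dual vectors
  have hdual : ∀ k, ∃ f : W, ∀ k', φ (a k') f = if k' = k then 1 else 0 := by
    intro k
    have h1 : (Pi.single k (1 : K) : κ → K) ∈ LinearMap.range Φ := by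
      rw [hsurj]
      trivial
    obtain ⟨f, hf⟩ := h1
    refine ⟨f, fun k' => ?_⟩
    have h2 := congrFun hf k'
    rw [Pi.single_apply] at h2
    exact h2
  have hJc : ∀ k, (a k : Finset (Fin N)).card = t + 2 := fun k => (mem_filter.1 (a k).2).2.2.1
  have hdis : ∀ k k', k ≠ k' → Disjoint (a k : Finset (Fin N)) (a k' : Finset (Fin N)) := by
    intro k k' hkk
    rw [disjoint_left]
    intro j hj hj'
    obtain ⟨f, hf⟩ := hdual k
    have h1 := hφ0 (a k') f (by rw [hf, if_neg (Ne.symm hkk)]) j hj'
    obtain ⟨c', hc'⟩ := rk_one hu (hHu (a k)) (mem_filter.1 (a k).2).2.2.2 f.2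
    have h2 := hc' j hj
    rw [h1] at h2
    have h3 : c' = 0 := by
      rcases mul_eq_zero.1 h2.symm with h | h
      · exact h
      · exact absurd h (hHu (a k) _ hj)
    have h4 := hc' _ (hHne (a k)).choose_spec
    rw [← hφa, hf, if_pos rfl, h3, zero_mul] at h4
    exact one_ne_zero h4
  -- the number of the heavy sets
  have hnum : Fintype.card κ * (t + 2) ≤ R + t + 1 := by
    have h1 := hPd κ (fun k => (a k : Finset (Fin N)))
      (fun k => ⟨(mem_filter.1 (a k).2).2.1, hJc k⟩) hdis
    rcases isEmpty_or_nonempty κ with he | ⟨⟨k0⟩⟩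
    · rw [Fintype.card_eq_zero, zero_mul]
      omega
    obtain ⟨f, hf⟩ := hdual k0
    have h2 : ((univ.erase k0).biUnion fun k => (a k : Finset (Fin N))).card =
        (Fintype.card κ - 1) * (t + 2) := by
      rw [card_biUnion (fun k _ k' _ h => hdis k k' h), sum_congr rfl fun k _ => hJc k, sum_const,
        card_erase_of_mem (mem_univ _), card_univ, smul_eq_mul]
    have h3 : (Fintype.card κ - 1) * (t + 2) ≤ R := by
      by_contra hlt
      push Not at hlt
      rw [← h2] at hlt
      have h4 := Ev_zero hpt (hW f.2) _ (fun i hi => by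
        obtain ⟨k, hk, hik⟩ := mem_biUnion.1 hi
        exact hφ0 (a k) f (by rw [hf, if_neg (mem_erase.1 hk).1]) i hik) hlt
      have h5 := hf k0
      rw [if_pos rfl, hφa, h4] at h5
      exact zero_ne_one h5
    have h4 : 1 ≤ Fintype.card κ := Fintype.card_pos_iff.2 ⟨k0⟩
    obtain ⟨e, he⟩ : ∃ e, Fintype.card κ = e + 1 := ⟨Fintype.card κ - 1, by omega⟩
    rw [he] at h1 h3 ⊢
    rw [Nat.add_sub_cancel] at h3
    have h5 : (e + 1) * (t + 2) = e * (t + 2) + (t + 2) := by ring
    omega
  -- the dimension of `W_t`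
  have hdim : finrank K (Wt (dg fun i => pt i - c) W t) + Fintype.card κ ≤ R + t + 1 := by
    have hrel : ∀ k, ∃ cc : Fin N → K, (∃ j ∈ (a k : Finset (Fin N)), cc j ≠ 0) ∧
        ∀ F ∈ Wt (dg fun i => pt i - c) W t, ∑ j ∈ (a k : Finset (Fin N)), cc j * F j = 0 := by
      intro k
      have h1 := rk_Wt_le (fun i => pt i - c) hs0 W (a k : Finset (Fin N)) t
      rw [(mem_filter.1 (a k).2).2.2.2, mul_one] at h1
      have h2 : (Wt (dg fun i => pt i - c) W t).map (rs (a k : Finset (Fin N))) ≠ ⊤ := by
        intro h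
        unfold rk at h1
        rw [h, finrank_top, finrank_fintype_fun_eq_card, Fintype.card_coe, hJc k] at h1
        omega
      obtain ⟨g, hg0, hg⟩ := Submodule.exists_le_ker_of_lt_top _ (lt_top_iff_ne_top.2 h2)
      refine ⟨fun j => if h : j ∈ (a k : Finset (Fin N)) then g (Pi.single ⟨j, h⟩ 1) else 0,
        ?_, ?_⟩
      · by_contra hcon
        push Not at hcon
        apply hg0
        apply LinearMap.pi_ext'
        intro j
        ext
        have h3 := hcon j j.2
        rw [dif_pos j.2] at h3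
        simpa using h3
      · intro F hF
        have h3 : g (rs (a k : Finset (Fin N)) F) = 0 := hg (Submodule.mem_map_of_mem hF)
        have h4 : rs (a k : Finset (Fin N)) F =
            ∑ j : (a k : Finset (Fin N)), F j • (Pi.single j (1 : K) :
              ↥(a k : Finset (Fin N)) → K) := by
          funext j
          simp [Finset.sum_apply, Pi.single_apply, rs_apply]
        rw [h4, map_sum] at h3
        rw [← sum_coe_sort]
        refine Eq.trans (sum_congr rfl fun j _ => ?_) h3
        beta_reduce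
        rw [dif_pos j.2, map_smul, smul_eq_mul, mul_comm]
    choose cc hcc1 hcc2 using hrel
    refine relations (R := R + t) hpt (fun k => (a k : Finset (Fin N))) hdis cc hcc1 ?_ _
      (Wt_le_Ev pt c R W hW t) hcc2
    rw [sum_congr rfl fun k _ => hJc k, sum_const, card_univ, smul_eq_mul]
    exact hnum
  -- the certificate
  obtain ⟨ι, hι, G, hG, h⟩ := cert (dg fun i => pt i - c) W t ⊥ bot_le
  set G0 : Submodule K (Fin N → K) := (LinearMap.ker Φ).map W.subtype with hG0
  have hG0W : G0 ≤ W := by
    rintro _ ⟨f, _, rfl⟩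
    exact f.2
  have hG0d : finrank K G0 + Fintype.card κ = finrank K W := by
    have h1 := LinearMap.finrank_range_add_finrank_ker Φ
    rw [hsurj, finrank_top, finrank_fintype_fun_eq_card] at h1
    have h2 : finrank K G0 = finrank K (LinearMap.ker Φ) :=
      (Submodule.equivMapOfInjective W.subtype (Submodule.subtype_injective _) _).finrank_eq.symm
    omega
  have hG0z : ∀ J : H, ∀ f ∈ G0, ∀ i ∈ (J : Finset (Fin N)), f i = 0 := by
    rintro J _ ⟨f, hf, rfl⟩ i hi
    refine hφ0 J f ?_ i hi
    have h1 : φ J ∈ Submodule.span K (Set.range (φ ∘ a)) := by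
      rw [haspan]
      exact Submodule.subset_span ⟨J, rfl⟩
    have h2 : Submodule.span K (Set.range (φ ∘ a)) ≤
        LinearMap.ker (LinearMap.applyₗ f : Module.Dual K W →ₗ[K] K) := by
      rw [Submodule.span_le]
      rintro _ ⟨k, rfl⟩
      have h3 : Φ f = 0 := hf
      exact congrFun h3 k
    exact h2 h1
  refine ⟨Option ι, inferInstance, fun o => o.elim G0 G, ?_, ?_, ?_⟩
  · rintro (_ | l)
    · exact hG0W
    · exact hG l
  · intro I hI
    obtain ⟨hID, hIc⟩ := hP I hI
    rw [Fintype.sum_option]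
    show _ ≤ ((rk I W : ℝ) - rk I G0) + ∑ l, ((rk I W : ℝ) - rk I (G l))
    have h1 := h (fun A => (rk I A : ℝ)) (rk_sub I) (fun A => by
      show (rk I (A.map (dg fun i => pt i - c)) : ℝ) = rk I A
      rw [rk_dg I _ hs0])
    have h3 : rk I (⊥ : Submodule K (Fin N → K)) = 0 := by
      unfold rk
      rw [Submodule.map_bot, finrank_bot]
    rw [h3, Nat.cast_zero, sub_zero] at h1
    have h4 := rk_Wt_ge (fun i => pt i - c) W u hu I (fun i hi => huD i (hID hi)) hsi.injOn t
    have h5 : rk I G0 ≤ rk I W := rk_mono I hG0W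
    have h5' : (rk I G0 : ℝ) ≤ rk I W := by exact_mod_cast h5
    by_cases hIe : I = ∅
    · subst hIe
      rw [card_empty, Nat.cast_zero]
      have h6 : (0 : ℝ) ≤ rk ∅ (Wt (dg fun i => pt i - c) W t) := Nat.cast_nonneg _
      linarith
    obtain ⟨i0, hi0⟩ := nonempty_iff_ne_empty.2 hIe
    have h6 := one_le_rk hu hi0 (huD i0 (hID hi0))
    by_cases hheavy : I.card = t + 2 ∧ rk I W = 1
    · have hIH : I ∈ H := by
        rw [hH, mem_filter]
        exact ⟨mem_univ _, hI, hheavy⟩
      have h7 : rk I G0 = 0 := by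
        unfold rk
        rw [Submodule.finrank_eq_zero, Submodule.eq_bot_iff]
        rintro _ ⟨f, hf, rfl⟩
        funext i
        exact hG0z ⟨I, hIH⟩ f hf i i.2
      have h8 : t + 1 ≤ rk I (Wt (dg fun i => pt i - c) W t) := by
        rw [hheavy.1, hheavy.2] at h4
        omega
      have h8' : (t : ℝ) + 1 ≤ rk I (Wt (dg fun i => pt i - c) W t) := by exact_mod_cast h8
      rw [h7, hheavy.2, hheavy.1]
      push_cast
      rw [hheavy.2] at h1
      push_cast at h1
      linarith
    · have h8 : I.card ≤ rk I (Wt (dg fun i => pt i - c) W t) := by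
        by_cases h9 : I.card = t + 2
        · have h10 : rk I W ≠ 1 := fun h => hheavy ⟨h9, h⟩
          omega
        · omega
      have h8' : (I.card : ℝ) ≤ rk I (Wt (dg fun i => pt i - c) W t) := by exact_mod_cast h8
      linarith
  · rw [Fintype.sum_option]
    show ((finrank K W : ℝ) - finrank K G0) + ∑ l, ((finrank K W : ℝ) - finrank K (G l)) ≤ _
    have h1 : -(finrank K (Wt (dg fun i => pt i - c) W t) : ℝ) -
        -(finrank K (⊥ : Submodule K (Fin N → K)) : ℝ) ≤
        ∑ l, (-(finrank K W : ℝ) - -(finrank K (G l) : ℝ)) :=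
      h (fun A => -(finrank K A : ℝ)) (fun A B => by
      have := finrank_sup_inf A B
      linarith) (fun A => by
      show -(finrank K (A.map (dg fun i => pt i - c)) : ℝ) = -(finrank K A : ℝ)
      rw [finrank_dg _ hs0])
    have h5 : finrank K (⊥ : Submodule K (Fin N → K)) = 0 := finrank_bot K _
    rw [h5, Nat.cast_zero] at h1
    have h4 : ∑ l, (-(finrank K W : ℝ) - -(finrank K (G l) : ℝ)) =
        -∑ l, ((finrank K W : ℝ) - finrank K (G l)) := by
      rw [← sum_neg_distrib]
      exact sum_congr rfl fun l _ => by ring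
    rw [h4] at h1
    have h6 : (finrank K (Wt (dg fun i => pt i - c) W t) : ℝ) + Fintype.card κ ≤ R + t + 1 := by
      exact_mod_cast hdim
    have h7 : (finrank K G0 : ℝ) + Fintype.card κ = finrank K W := by exact_mod_cast hG0d
    push_cast
    linarith

end

end Pool.Agent.H430.Ft
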