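import Pool.Agent.H430.Ft.Loc
import Pool.Agent.H430.Ft.Heavy

/-!
The inequality for the values of polynomials.
-/

set_option autoImplicit false

namespace Pool.Agent.H430.Ft

open Finset NumberField IsDedekindDomain Height Module
open Pool.Agent.W180.OP (Pl av wt fv nrm wt_nonneg le_nrm exists_nrm nrm_pos)
open Pool.Agent.H430.Cl
open Pool.Agent.H430.Gw (adapt lp loc_span sch_sub proj_ht)

variable {K : Type} [Field K] [NumberField K] {N : ℕ}

lemma exists_extra {q : ℕ} (a : Fin q → K) (ha : Function.Injective a) (M : ℕ) :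
    ∃ pt : Fin (q + M) → K, Function.Injective pt ∧ ∀ i, pt (Fin.castAdd M i) = a i := by
  classical
  have hinf : ((Set.range a)ᶜ).Infinite := (Set.finite_range a).infinite_compl
  set e := hinf.natEmbedding with he
  refine ⟨Fin.append a (fun j => (e j : K)), ?_, fun i => Fin.append_left _ _ _⟩
  intro x y h
  induction x using Fin.addCases with
  | left i =>
    induction y using Fin.addCases with
    | left j =>
      rw [Fin.append_left, Fin.append_left] at h
      rw [ha h]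
    | right j =>
      rw [Fin.append_left, Fin.append_right] at h
      exact absurd ⟨i, h⟩ (e j).2
  | right i =>
    induction y using Fin.addCases with
    | left j =>
      rw [Fin.append_left, Fin.append_right] at h
      exact absurd ⟨j, h.symm⟩ (e i).2
    | right j =>
      rw [Fin.append_right, Fin.append_right] at h
      have h1 := e.injective (Subtype.ext h)
      rw [Fin.ext h1]

/-- the values of one linear system -/
theorem core_ft (pt : Fin N → K) (R : ℕ) (D : Finset (Fin N)) (m : ℕ)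
    (T : ℝ) (hT0 : 0 ≤ T) (P : Finset (Fin N) → Prop) (hP : ∀ I, P I → I ⊆ D ∧ I.card ≤ m)
    (hPd : ∀ I, P I → ∀ J ⊆ I, P J)
    (hcert : ∀ W ≤ Ev pt R, ∀ u ∈ W, (∀ i ∈ D, u i ≠ 0) →
      ∃ (ι : Type) (_ : Fintype ι) (G : ι → Submodule K (Fin N → K)), (∀ l, G l ≤ W) ∧
      (∀ I, P I → (I.card : ℝ) ≤ ∑ l, ((rk I W : ℝ) - rk I (G l))) ∧
      ∑ l, ((finrank K W : ℝ) - finrank K (G l)) ≤ T)
    (W : Submodule K (Fin N → K)) (hW : W ≤ Ev pt R) :
    ∃ Z : Finset (Submodule K (Fin N → K)), (∀ W' ∈ Z, W' ≤ W ∧ finrank K W' < finrank K W) ∧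
      ∀ (S : Finset (Pl K)) (ε : ℝ), 0 < ε → ∃ C : ℝ, 0 ≤ C ∧
      ∀ F ∈ W, F ≠ 0 → (∀ i ∈ D, F i ≠ 0) → (∀ W' ∈ Z, F ∉ W') →
      ∀ I : Pl K → Finset (Fin N), (∀ v ∈ S, P (I v)) →
        ∑ v ∈ S, ∑ i ∈ I v, wt v * (Real.log (nrm (av v) F) - Real.log (av v (F i))) ≤
        (T + ε) * logHeight F + C := by
  classical
  by_cases hu : ∃ u ∈ W, u ≠ 0 ∧ ∀ i ∈ D, u i ≠ 0
  swap
  · refine ⟨∅, fun W' h => absurd h (notMem_empty _), fun S ε hε => ⟨0, le_rfl, ?_⟩⟩
    intro F hF hF0 hFD _ I _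
    exact absurd ⟨F, hF, hF0, hFD⟩ hu
  obtain ⟨u, huW, hu0, huD⟩ := hu
  obtain ⟨d, hd⟩ : ∃ d, d = finrank K W := ⟨_, rfl⟩
  set w : Basis (Fin d) K W := finBasisOfFinrankEq K W hd.symm with hw
  set M : Fin N → Fin d → K := fun j l => (w l : Fin N → K) j with hM
  have hMy : ∀ y : Fin d → K, Ml M y = ((∑ l, y l • w l : W) : Fin N → K) := by
    intro y
    funext j
    rw [Ml_apply]
    simp only [hM, Submodule.coe_sum, Submodule.coe_smul, Finset.sum_apply, Pi.smul_apply,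
      smul_eq_mul]
    exact sum_congr rfl fun l _ => mul_comm _ _
  have hMinj : Function.Injective (Ml M) := by
    intro y y' h
    rw [hMy, hMy] at h
    have h1 := Subtype.ext h
    have h2 := congrArg w.equivFun h1
    rw [← w.equivFun_symm_apply, ← w.equivFun_symm_apply, LinearEquiv.apply_symm_apply,
      LinearEquiv.apply_symm_apply] at h2
    exact h2
  have hrange : LinearMap.range (Ml M) = W := by
    ext F
    constructor
    · rintro ⟨y, rfl⟩
      rw [hMy]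
      exact Subtype.mem _
    · intro hF
      refine ⟨w.equivFun ⟨F, hF⟩, ?_⟩
      rw [hMy, w.sum_equivFun]
  -- the forms span
  have hspan : Submodule.span K (Set.range M) = ⊤ := by
    have h1 := rk_le_sp M univ W hrange.ge
    have h2 : rk univ W = finrank K W := by
      unfold rk
      have hinj : Function.Injective (rs (K := K) (univ : Finset (Fin N))) := by
        intro x y h
        funext i
        exact congrFun h ⟨i, mem_univ i⟩
      exact (Submodule.equivMapOfInjective _ hinj _).finrank_eq.symm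
    have h3 : sp M univ = Submodule.span K (Set.range M) := by
      unfold sp
      rw [coe_univ, Set.image_univ]
    rw [h2, ← hd, h3] at h1
    apply Submodule.eq_top_of_finrank_eq
    have h4 := Submodule.finrank_le (Submodule.span K (Set.range M))
    rw [finrank_fintype_fun_eq_card, Fintype.card_fin] at h4 ⊢
    omega
  obtain ⟨ι', _, G, hGW, hG1, hG2⟩ := hcert W hW u huW huD
  set G' : ι' → Submodule K (Fin d → K) := fun l => (G l).comap (Ml M) with hG'
  have hG'm : ∀ l, (G' l).map (Ml M) = G l := by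
    intro l
    simp only [hG']
    rw [Submodule.map_comap_eq, hrange]
    exact inf_eq_right.2 (hGW l)
  have hG'f : ∀ l, finrank K (G' l) = finrank K (G l) := by
    intro l
    conv_rhs => rw [← hG'm l]
    exact (Submodule.equivMapOfInjective _ hMinj _).finrank_eq
  set U : ι' → Submodule K (Fin d → K) := fun l => ann (G' l) with hU
  have hmaj : ∀ I, P I → (I.card : ℝ) ≤
      ∑ l, (finrank K (sp M I ⊓ U l : Submodule K (Fin d → K)) : ℝ) := by
    intro I hI
    refine (hG1 I hI).trans (sum_le_sum fun l _ => ?_)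
    have h1 := rk_le_sp M I W hrange.ge
    have h2 := sp_le_rk M I (G' l)
    rw [hG'm l] at h2
    have h3 : rk I W ≤ finrank K (sp M I ⊓ ann (G' l) : Submodule K (Fin d → K)) + rk I (G l) :=
      h1.trans h2
    have h4 : (rk I W : ℝ) ≤ finrank K (sp M I ⊓ ann (G' l) : Submodule K (Fin d → K)) +
      rk I (G l) := by exact_mod_cast h3
    show (rk I W : ℝ) - rk I (G l) ≤ finrank K (sp M I ⊓ ann (G' l) : Submodule K (Fin d → K))
    linarith
  have htot : ∑ l, (finrank K (U l) : ℝ) ≤ T := by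
    refine le_trans (le_of_eq ?_) hG2
    refine sum_congr rfl fun l _ => ?_
    have h1 := finrank_ann (G' l)
    rw [hG'f l] at h1
    have h2 : (finrank K (U l) : ℝ) + finrank K (G l) = d := by exact_mod_cast h1
    rw [← hd]
    linarith
  obtain ⟨b, hb⟩ := exists_b M hspan U
  set Φ : ι' → Finset (Fin d → K) := fun l => univ.biUnion fun σ => b σ l with hΦ
  have hΦU : ∀ l, ∀ φ ∈ Φ l, φ ∈ U l := by
    intro l φ hφ
    obtain ⟨σ, _, hσ⟩ := mem_biUnion.1 hφ
    exact (hb σ l).2.1 φ hσ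
  have hΦ0 : ∀ l, ∀ φ ∈ Φ l, φ ≠ 0 := by
    intro l φ hφ
    obtain ⟨σ, _, hσ⟩ := mem_biUnion.1 hφ
    exact (hb σ l).2.2.1 φ hσ
  choose Zf hZf0 hsch using fun l => sch_sub (U l) (Φ l) (hΦU l)
  set Za : Finset (Fin d → K) := univ.biUnion fun l => Zf l ∪ Φ l with hZa
  have hZa0 : ∀ z ∈ Za, z ≠ 0 := by
    intro z hz
    obtain ⟨l, _, hl⟩ := mem_biUnion.1 hz
    rcases mem_union.1 hl with h | h
    · exact hZf0 l z h
    · exact hΦ0 l z h
  set sb : (Fin d → K) → Submodule K (Fin N → K) := fun z =>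
    (LinearMap.ker (dt z)).map (Ml M) with hsb
  -- the left inverse
  obtain ⟨g, hg⟩ := LinearMap.exists_leftInverse_of_injective (Ml M) (LinearMap.ker_eq_bot.2 hMinj)
  obtain ⟨Cp, hCp0, hCp⟩ := proj_ht (K := K) (N := d) (n := N)
    (fun j i => g (Pi.single i 1) j)
  have hgF : ∀ F : Fin N → K, (fun j => ∑ i, g (Pi.single i 1) j * F i) = g F := by
    intro F
    have h1 : F = ∑ i, F i • (Pi.single i (1 : K) : Fin N → K) := by
      funext l
      simp [Finset.sum_apply, Pi.single_apply]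
    funext j
    conv_rhs => rw [h1, map_sum]
    rw [Finset.sum_apply]
    refine sum_congr rfl fun i _ => ?_
    rw [map_smul, Pi.smul_apply, smul_eq_mul, mul_comm]
  refine ⟨Za.image sb, ?_, ?_⟩
  · intro W' hW'
    obtain ⟨z, hz, rfl⟩ := mem_image.1 hW'
    refine ⟨?_, ?_⟩
    · rw [← hrange]
      exact LinearMap.map_le_range
    rw [← hd]
    refine lt_of_le_of_lt (Submodule.finrank_map_le _ _) ?_
    have h1 : LinearMap.ker (dt z) ≠ ⊤ := by
      intro h
      apply hZa0 z hz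
      have h2 : dt z = 0 := LinearMap.ker_eq_top.1 h
      funext i
      have h3 := dt_apply z (Pi.single i 1)
      rw [h2, LinearMap.zero_apply] at h3
      simpa [Pi.single_apply] using h3.symm
    have h2 := Submodule.finrank_lt h1
    simpa using h2
  intro S ε hε
  set nι : ℝ := (Fintype.card ι' : ℝ) with hnι
  have hnι0 : 0 ≤ nι := Nat.cast_nonneg _
  set ε1 : ℝ := ε / (nι + 1) with hε1
  have hε10 : 0 < ε1 := by positivity
  choose Cl hCl0 hCl using fun l => hsch l S ε1 hε10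
  choose Cv hCv0 hCv using fun v : Pl K => place_ft M U P hPd hmaj b hb v
  have hylC : 0 ≤ ∑ l, Cl l := sum_nonneg fun l _ => hCl0 l
  have hCvs : 0 ≤ ∑ v ∈ S, Cv v := sum_nonneg fun v _ => hCv0 v
  -- the size of the matrix
  set B : Pl K → ℝ := fun v => max 1 (∑ j, ∑ l, av v (M j l)) with hB
  have hB1 : ∀ v, 1 ≤ B v := fun v => le_max_left _ _
  have hBs : 0 ≤ ∑ v ∈ S, m * (wt v * Real.log (B v)) := sum_nonneg fun v _ =>
    mul_nonneg (Nat.cast_nonneg _) (mul_nonneg (wt_nonneg v) (Real.log_nonneg (hB1 v)))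
  refine ⟨(T + ε) * Cp + ∑ l, Cl l + ∑ v ∈ S, Cv v + ∑ v ∈ S, m * (wt v * Real.log (B v)),
    by positivity, ?_⟩
  intro F hFW hF0 hFD hFZ I hI
  obtain ⟨Y, hYF⟩ : ∃ Y, Ml M Y = F := by
    have h1 : F ∈ LinearMap.range (Ml M) := by
      rw [hrange]
      exact hFW
    exact h1
  have hY0 : Y ≠ 0 := by
    rintro rfl
    apply hF0
    rw [← hYF, map_zero]
  have hFi : ∀ i, F i = ∑ l, M i l * Y l := by
    intro i
    rw [← hYF, Ml_apply]
  have hzY : ∀ z ∈ Za, ∑ i, z i * Y i ≠ 0 := by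
    intro z hz h
    refine hFZ (sb z) (mem_image_of_mem _ hz) ?_
    exact ⟨Y, h, hYF⟩
  have hzΦ : ∀ l, ∀ φ ∈ Φ l, ∑ i, φ i * Y i ≠ 0 := fun l φ hφ =>
    hzY φ (mem_biUnion.2 ⟨l, mem_univ _, mem_union_right _ hφ⟩)
  have hYp : ∀ v : Pl K, 0 < nrm (av v) Y := fun v => nrm_pos _ hY0
  have hN0 : 0 < N := by
    rcases Nat.eq_zero_or_pos N with h | h
    · subst h
      exact absurd (Subsingleton.elim F 0) hF0
    · exact h
  have hnF : ∀ v : Pl K, Real.log (nrm (av v) F) ≤ Real.log (B v) + Real.log (nrm (av v) Y) := by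
    intro v
    rw [← Real.log_mul (by have := hB1 v; positivity) (hYp v).ne']
    refine Real.log_le_log (nrm_pos _ hF0) ?_
    obtain ⟨j, hj⟩ := exists_nrm (av v) hN0 F
    rw [← hj, hFi j]
    have h1 : av v (∑ l, M j l * Y l) ≤ ∑ l, av v (M j l) * nrm (av v) Y := by
      refine ((av v).sum_le _ _).trans (sum_le_sum fun i _ => ?_)
      rw [map_mul]
      exact mul_le_mul_of_nonneg_left (le_nrm _ _ _) ((av v).nonneg _)
    refine h1.trans ?_
    rw [← sum_mul]
    refine mul_le_mul_of_nonneg_right ?_ (hYp v).le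
    refine le_trans ?_ (le_max_right _ _)
    exact single_le_sum (f := fun j => ∑ i, av v (M j i)) (fun j _ => sum_nonneg fun i _ =>
      (av v).nonneg _) (mem_univ j)
  have hex : ∀ v, ∃ σ : Fin N ≃ Fin N, v ∈ S →
      ∑ i ∈ I v, wt v * (Real.log (nrm (av v) Y) - Real.log (av v (∑ l, M i l * Y l))) ≤
        ∑ l, (wt v * ∑ φ ∈ b σ l, (Real.log (nrm (av v) Y) -
          Real.log (av v (∑ i, φ i * Y i)))) + Cv v := by
    intro v
    by_cases hv : v ∈ S
    · obtain ⟨σ, hσ⟩ := hCv v Y hY0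
        (fun σ l φ hφ => hzΦ l φ (mem_biUnion.2 ⟨σ, mem_univ _, hφ⟩)) (I v) (hI v hv)
        (fun i hi => by
          rw [← hFi]
          exact hFD i ((hP _ (hI v hv)).1 hi))
      exact ⟨σ, fun _ => hσ⟩
    · exact ⟨Equiv.refl _, fun h => absurd h hv⟩
  choose σ hσ using hex
  have h1 : ∀ l, ∑ v ∈ S, wt v * ∑ φ ∈ b (σ v) l, (Real.log (nrm (av v) Y) -
      Real.log (av v (∑ i, φ i * Y i))) ≤ (finrank K (U l) + ε1) * logHeight Y + Cl l := by
    intro l
    exact hCl l Y hY0 (fun z hz => hzY z (mem_biUnion.2 ⟨l, mem_univ _, mem_union_left _ hz⟩))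
      (hzΦ l) (fun v => b (σ v) l) (fun v _ φ hφ => mem_biUnion.2 ⟨σ v, mem_univ _, hφ⟩)
      (fun v _ => (hb (σ v) l).1) (fun v _ => (hb (σ v) l).2.2.2.2.1)
  have h2 : ∑ v ∈ S, ∑ i ∈ I v, wt v * (Real.log (nrm (av v) F) - Real.log (av v (F i))) ≤
      ∑ v ∈ S, (∑ l, (wt v * ∑ φ ∈ b (σ v) l, (Real.log (nrm (av v) Y) -
          Real.log (av v (∑ i, φ i * Y i)))) + Cv v + m * (wt v * Real.log (B v))) := by
    refine sum_le_sum fun v hv => ?_
    have h3 := hσ v hv
    have h4 : ∑ i ∈ I v, wt v * (Real.log (nrm (av v) F) - Real.log (av v (F i))) ≤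
        ∑ i ∈ I v, (wt v * (Real.log (nrm (av v) Y) - Real.log (av v (∑ l, M i l * Y l))) +
          wt v * Real.log (B v)) := by
      refine sum_le_sum fun i _ => ?_
      rw [hFi i, ← mul_add]
      refine mul_le_mul_of_nonneg_left ?_ (wt_nonneg v)
      have := hnF v
      linarith
    rw [sum_add_distrib, sum_const, nsmul_eq_mul] at h4
    have h5 : ((I v).card : ℝ) * (wt v * Real.log (B v)) ≤ m * (wt v * Real.log (B v)) :=
      mul_le_mul_of_nonneg_right (by exact_mod_cast (hP _ (hI v hv)).2)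
        (mul_nonneg (wt_nonneg v) (Real.log_nonneg (hB1 v)))
    linarith
  refine h2.trans ?_
  rw [sum_add_distrib, sum_add_distrib, sum_comm]
  have h3 : ∑ l, ∑ v ∈ S, (wt v * ∑ φ ∈ b (σ v) l, (Real.log (nrm (av v) Y) -
      Real.log (av v (∑ i, φ i * Y i)))) ≤ (T + ε) * logHeight Y + ∑ l, Cl l := by
    have hhY : 0 ≤ logHeight Y := logHeight_nonneg _
    refine (sum_le_sum fun l _ => h1 l).trans ?_
    rw [sum_add_distrib, ← sum_mul, sum_add_distrib, sum_const, card_univ, nsmul_eq_mul, ← hnι]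
    have h4 : nι * ε1 ≤ ε := by
      rw [hε1, mul_div_assoc']
      rw [div_le_iff₀ (by positivity)]
      nlinarith
    have h5 : (∑ l, (finrank K (U l) : ℝ) + nι * ε1) * logHeight Y ≤ (T + ε) * logHeight Y :=
      mul_le_mul_of_nonneg_right (add_le_add htot h4) hhY
    linarith
  have h4 : logHeight Y ≤ logHeight F + Cp := by
    have hgY : (fun j => ∑ i, g (Pi.single i 1) j * F i) = Y := by
      rw [hgF, ← hYF]
      exact LinearMap.congr_fun hg Y
    have h6 := hCp ∅ F hF0 (by rw [hgY]; exact hY0)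
    rw [hgY, sum_empty] at h6
    linarith
  have h5 : (T + ε) * logHeight Y ≤ (T + ε) * (logHeight F + Cp) :=
    mul_le_mul_of_nonneg_left h4 (by positivity)
  linarith

/-- the recursion -/
theorem rec_ft (pt : Fin N → K) (R : ℕ) (D : Finset (Fin N)) (m : ℕ)
    (T : ℝ) (hT0 : 0 ≤ T) (P : Finset (Fin N) → Prop) (hP : ∀ I, P I → I ⊆ D ∧ I.card ≤ m)
    (hPd : ∀ I, P I → ∀ J ⊆ I, P J)
    (hcert : ∀ W ≤ Ev pt R, ∀ u ∈ W, (∀ i ∈ D, u i ≠ 0) →
      ∃ (ι : Type) (_ : Fintype ι) (G : ι → Submodule K (Fin N → K)), (∀ l, G l ≤ W) ∧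
      (∀ I, P I → (I.card : ℝ) ≤ ∑ l, ((rk I W : ℝ) - rk I (G l))) ∧
      ∑ l, ((finrank K W : ℝ) - finrank K (G l)) ≤ T)
    (S : Finset (Pl K)) (ε : ℝ) (hε : 0 < ε) :
    ∀ (n : ℕ) (W : Submodule K (Fin N → K)), W ≤ Ev pt R → finrank K W ≤ n →
      ∃ C : ℝ, 0 ≤ C ∧
      ∀ F ∈ W, F ≠ 0 → (∀ i ∈ D, F i ≠ 0) →
      ∀ I : Pl K → Finset (Fin N), (∀ v ∈ S, P (I v)) →
        ∑ v ∈ S, ∑ i ∈ I v, wt v * (Real.log (nrm (av v) F) - Real.log (av v (F i))) ≤
        (T + ε) * logHeight F + C := by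
  classical
  intro n
  induction n with
  | zero =>
    intro W _ hW
    refine ⟨0, le_rfl, ?_⟩
    intro F hF hF0 _ I _
    have h1 : W = ⊥ := Submodule.finrank_eq_zero.1 (Nat.le_zero.1 hW)
    rw [h1, Submodule.mem_bot] at hF
    exact absurd hF hF0
  | succ n ih =>
    intro W hWE hW
    obtain ⟨Z, hZ, hcore⟩ := core_ft pt R D m T hT0 P hP hPd hcert W hWE
    choose C' hC'0 hC' using fun W' : {W' // W' ∈ Z} => ih W'.1 ((hZ W'.1 W'.2).1.trans hWE) (by
      have := (hZ W'.1 W'.2).2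
      omega)
    obtain ⟨C, hC0, hC⟩ := hcore S ε hε
    have hC's : 0 ≤ ∑ W', C' W' := sum_nonneg fun W' _ => hC'0 W'
    refine ⟨C + ∑ W', C' W', by positivity, ?_⟩
    intro F hFW hF0 hFD I hI
    by_cases hFZ : ∀ W' ∈ Z, F ∉ W'
    · have h1 := hC F hFW hF0 hFD hFZ I hI
      linarith
    · push Not at hFZ
      obtain ⟨W', hW', hFW'⟩ := hFZ
      have h1 := hC' ⟨W', hW'⟩ F hFW' hF0 hFD I hI
      have h2 := single_le_sum (f := C') (fun W' _ => hC'0 W') (mem_univ ⟨W', hW'⟩)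
      linarith

/-- the inequality for the values of polynomials -/
theorem values_ft (pt : Fin N → K) (hpt : Function.Injective pt) (D : Finset (Fin N)) (R : ℕ)
    (S : Finset (Pl K)) (ε : ℝ) (hε : 0 < ε) (m : ℕ) (hm : 1 ≤ m) :
    ∃ C : ℝ, 0 ≤ C ∧ ∀ F ∈ Ev pt R, F ≠ 0 → (∀ i ∈ D, F i ≠ 0) →
      ∀ I : Pl K → Finset (Fin N), (∀ v ∈ S, I v ⊆ D ∧ (I v).card ≤ m) →
        ∑ v ∈ S, ∑ i ∈ I v, wt v * (Real.log (nrm (av v) F) - Real.log (av v (F i))) ≤
        (R + m + ε) * logHeight F + C :=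
  rec_ft pt R D m (R + m) (by positivity) (fun I => I ⊆ D ∧ I.card ≤ m) (fun _ h => h)
    (fun _ h _ hJ => ⟨hJ.trans h.1, (card_le_card hJ).trans h.2⟩)
    (fun W hW u hu huD => by
      obtain ⟨ι, h0, G, h1, h2, h3⟩ := cert_W pt hpt R m hm W hW D u hu huD
      exact ⟨ι, h0, G, h1, fun I hI => h2 I hI.1 hI.2, h3⟩) S ε hε _ _ le_rfl le_rfl

/-- the refined inequality for the values of polynomials -/
theorem values_heavy (pt : Fin N → K) (hpt : Function.Injective pt) (D : Finset (Fin N)) (R : ℕ)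
    (S : Finset (Pl K)) (ε : ℝ) (hε : 0 < ε) (m : ℕ) (hm : 2 ≤ m) (P : Finset (Fin N) → Prop)
    (hP : ∀ I, P I → I ⊆ D ∧ I.card ≤ m) (hPd : ∀ I, P I → ∀ J ⊆ I, P J)
    (hPm : ∀ (κ : Type) [Fintype κ] (J : κ → Finset (Fin N)), (∀ k, P (J k) ∧ (J k).card = m) →
      (∀ k k', k ≠ k' → Disjoint (J k) (J k')) → Fintype.card κ * m ≠ R + m) :
    ∃ C : ℝ, 0 ≤ C ∧ ∀ F ∈ Ev pt R, F ≠ 0 → (∀ i ∈ D, F i ≠ 0) →
      ∀ I : Pl K → Finset (Fin N), (∀ v ∈ S, P (I v)) →
        ∑ v ∈ S, ∑ i ∈ I v, wt v * (Real.log (nrm (av v) F) - Real.log (av v (F i))) ≤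
        (R + m - 1 + ε) * logHeight F + C := by
  have hm' : (2 : ℝ) ≤ m := by exact_mod_cast hm
  have hR' : (0 : ℝ) ≤ R := Nat.cast_nonneg _
  exact rec_ft pt R D m (R + m - 1) (by linarith) P hP hPd
    (fun W hW u hu huD => cert_heavy pt hpt R m hm W hW D u hu huD P hP hPm) S ε hε _ _ le_rfl le_rfl

end Pool.Agent.H430.Ft
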