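import Pool.Agent.H430.Ft.Cert

/-!
The ranks on subspaces and the spans of the coordinate functionals; evaluations of polynomials.
-/

set_option autoImplicit false

namespace Pool.Agent.H430.Ft

open Finset Module Polynomial

section

variable {K : Type} [Field K] {d : ℕ}

/-- the linear form with coefficients `φ` -/
noncomputable def dt : (Fin d → K) →ₗ[K] (Fin d → K) →ₗ[K] K where
  toFun φ :=
    { toFun := fun Y => ∑ i, φ i * Y i
      map_add' := fun x y => by
        simp only [Pi.add_apply]
        rw [← sum_add_distrib]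
        exact sum_congr rfl fun i _ => by ring
      map_smul' := fun c x => by
        simp only [Pi.smul_apply, smul_eq_mul, RingHom.id_apply]
        rw [mul_sum]
        exact sum_congr rfl fun i _ => by ring }
  map_add' x y := by
    ext Y
    simp [add_mul, sum_add_distrib]
  map_smul' c x := by
    apply LinearMap.ext
    intro Y
    show ∑ i, (c • x) i * Y i = c * ∑ i, x i * Y i
    rw [mul_sum]
    exact sum_congr rfl fun i _ => by
      rw [Pi.smul_apply, smul_eq_mul]
      ring

lemma dt_apply (φ Y : Fin d → K) : dt φ Y = ∑ i, φ i * Y i := rfl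

lemma dt_surj (f : (Fin d → K) →ₗ[K] K) : ∃ φ : Fin d → K, dt φ = f := by
  refine ⟨fun i => f (Pi.single i 1), ?_⟩
  apply LinearMap.pi_ext'
  intro i
  ext
  simp [dt_apply, Pi.single_apply]

/-- the forms which vanish on a subspace -/
noncomputable def ann (G : Submodule K (Fin d → K)) : Submodule K (Fin d → K) :=
  LinearMap.ker ((LinearMap.lcomp K K G.subtype).comp dt)

lemma mem_ann {G : Submodule K (Fin d → K)} {φ : Fin d → K} :
    φ ∈ ann G ↔ ∀ Y ∈ G, ∑ i, φ i * Y i = 0 := by
  unfold ann
  rw [LinearMap.mem_ker]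
  constructor
  · intro h Y hY
    have := LinearMap.congr_fun h ⟨Y, hY⟩
    exact this
  · intro h
    ext ⟨Y, hY⟩
    exact h Y hY

lemma finrank_ann (G : Submodule K (Fin d → K)) : finrank K (ann G) + finrank K G = d := by
  have h1 := LinearMap.finrank_range_add_finrank_ker
    ((LinearMap.lcomp K K G.subtype).comp (dt (K := K) (d := d)))
  have h2 : LinearMap.range ((LinearMap.lcomp K K G.subtype).comp (dt (K := K) (d := d))) = ⊤ := by
    rw [eq_top_iff]
    intro f _
    obtain ⟨g, hg⟩ := LinearMap.exists_extend f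
    obtain ⟨φ, hφ⟩ := dt_surj g
    refine ⟨φ, ?_⟩
    show (dt φ).comp G.subtype = f
    rw [hφ, hg]
  have h3 : finrank K (G →ₗ[K] K) = finrank K G := Subspace.dual_finrank_eq
  rw [h2, finrank_top, h3, finrank_fintype_fun_eq_card, Fintype.card_fin] at h1
  unfold ann
  omega

variable {N : ℕ} (M : Fin N → Fin d → K)

/-- the evaluation of the forms `M i` -/
noncomputable def Ml : (Fin d → K) →ₗ[K] (Fin N → K) := Matrix.toLin' (Matrix.of M)

lemma Ml_apply (Y : Fin d → K) (i : Fin N) : Ml M Y i = ∑ l, M i l * Y l := rfl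

/-- the span of the forms of a set of coordinates -/
def sp (I : Finset (Fin N)) : Submodule K (Fin d → K) := Submodule.span K (M '' I)

lemma mem_sp {I : Finset (Fin N)} {φ : Fin d → K} :
    φ ∈ sp M I ↔ ∃ c : I → K, ∑ i : I, c i • M i = φ := by
  unfold sp
  rw [Submodule.mem_span_image_finset_iff_exists_fun]

/-- the rank of the span -/
lemma rk_le_sp (I : Finset (Fin N)) (W : Submodule K (Fin N → K)) (hW : W ≤ LinearMap.range (Ml M)) :
    rk I W ≤ finrank K (sp M I) := by
  unfold rk
  set f : Module.Dual K (sp M I) →ₗ[K] (I → K) :=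
    { toFun := fun g i => g ⟨M i, Submodule.subset_span ⟨i, i.2, rfl⟩⟩
      map_add' := fun x y => rfl
      map_smul' := fun c x => rfl } with hf
  have h1 : W.map (rs I) ≤ LinearMap.range f := by
    rintro _ ⟨z, hz, rfl⟩
    obtain ⟨Y, rfl⟩ := hW hz
    refine ⟨((LinearMap.lcomp K K (sp M I).subtype).comp (dt (K := K) (d := d).flip)) Y, ?_⟩
    funext i
    rfl
  refine (Submodule.finrank_mono h1).trans ?_
  refine (LinearMap.finrank_range_le f).trans ?_
  rw [Subspace.dual_finrank_eq]

/-- the rank on a smaller subspace -/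
lemma sp_le_rk (I : Finset (Fin N)) (G : Submodule K (Fin d → K)) :
    finrank K (sp M I) ≤ finrank K (sp M I ⊓ ann G : Submodule K (Fin d → K)) +
      rk I (G.map (Ml M)) := by
  set res := (LinearMap.lcomp K K G.subtype).comp (dt (K := K) (d := d)) with hres
  have h1 := LinearMap.finrank_range_add_finrank_ker (res.domRestrict (sp M I))
  have h2 : finrank K (LinearMap.ker (res.domRestrict (sp M I))) ≤
      finrank K (sp M I ⊓ ann G : Submodule K (Fin d → K)) := by
    have h3 : (LinearMap.ker (res.domRestrict (sp M I))).map (sp M I).subtype ≤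
        sp M I ⊓ ann G := by
      rintro _ ⟨φ, hφ, rfl⟩
      exact ⟨φ.2, hφ⟩
    have h4 := Submodule.finrank_mono h3
    have h5 : finrank K ((LinearMap.ker (res.domRestrict (sp M I))).map (sp M I).subtype) =
        finrank K (LinearMap.ker (res.domRestrict (sp M I))) :=
      (Submodule.equivMapOfInjective (sp M I).subtype (Submodule.subtype_injective _)
        _).finrank_eq.symm
    omega
  have h3 : finrank K (LinearMap.range (res.domRestrict (sp M I))) ≤ rk I (G.map (Ml M)) := by
    unfold rk
    set A := (G.map (Ml M)).map (rs I) with hA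
    -- the map from the dual of `A`
    set p : G →ₗ[K] A :=
      { toFun := fun Y => ⟨rs I (Ml M Y), Submodule.mem_map_of_mem (Submodule.mem_map_of_mem Y.2)⟩
        map_add' := fun x y => by
          apply Subtype.ext
          simp
        map_smul' := fun c x => by
          apply Subtype.ext
          simp } with hp
    have h4 : LinearMap.range (res.domRestrict (sp M I)) ≤ LinearMap.range (LinearMap.lcomp K K p) := by
      rintro _ ⟨⟨φ, hφ⟩, rfl⟩
      obtain ⟨c, rfl⟩ := (mem_sp M).1 hφ
      set g : (I → K) →ₗ[K] K :=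
        { toFun := fun z => ∑ i : I, c i * z i
          map_add' := fun x y => by
            simp only [Pi.add_apply, mul_add, sum_add_distrib]
          map_smul' := fun a x => by
            simp only [Pi.smul_apply, smul_eq_mul, RingHom.id_apply]
            rw [mul_sum]
            exact sum_congr rfl fun i _ => by ring } with hg
      refine ⟨g.comp A.subtype, ?_⟩
      apply LinearMap.ext
      intro Y
      have e1 : ((LinearMap.lcomp K K p) (g.comp A.subtype)) Y =
          ∑ i : I, c i * ∑ l, M i l * (Y : Fin d → K) l := rfl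
      have e2 : ((res.domRestrict (sp M I)) ⟨∑ i : I, c i • M i, hφ⟩) Y =
          ∑ l, (∑ i : I, c i • M i) l * (Y : Fin d → K) l := rfl
      rw [e1, e2]
      simp only [Finset.sum_apply, Pi.smul_apply, smul_eq_mul]
      simp_rw [sum_mul, mul_sum]
      rw [sum_comm]
      exact sum_congr rfl fun l _ => sum_congr rfl fun i _ => by ring
    refine (Submodule.finrank_mono h4).trans ((LinearMap.finrank_range_le _).trans ?_)
    rw [show finrank K (A →ₗ[K] K) = finrank K A from Subspace.dual_finrank_eq]
  omega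

end

section

variable {K : Type} [Field K] {N : ℕ}

/-- the evaluation of polynomials of degree at most `R` -/
noncomputable def ev (pt : Fin N → K) : K[X] →ₗ[K] (Fin N → K) where
  toFun p := fun i => p.eval (pt i)
  map_add' p q := by
    funext i
    simp
  map_smul' c p := by
    funext i
    simp

lemma ev_apply (pt : Fin N → K) (p : K[X]) (i : Fin N) : ev pt p i = p.eval (pt i) := rfl

/-- the values of the polynomials of degree at most `R` -/
noncomputable def Ev (pt : Fin N → K) (R : ℕ) : Submodule K (Fin N → K) :=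
  (degreeLT K (R + 1)).map (ev pt)

lemma finrank_Ev (pt : Fin N → K) (R : ℕ) : finrank K (Ev pt R) ≤ R + 1 := by
  unfold Ev
  have h1 : finrank K (degreeLT K (R + 1)) = R + 1 := by
    rw [(degreeLTEquiv K (R + 1)).finrank_eq, finrank_fintype_fun_eq_card, Fintype.card_fin]
  have : Module.Finite K (degreeLT K (R + 1)) := Module.Finite.equiv (degreeLTEquiv K (R + 1)).symm
  exact (Submodule.finrank_map_le _ _).trans h1.le

lemma mem_Ev {pt : Fin N → K} {R : ℕ} {F : Fin N → K} :
    F ∈ Ev pt R ↔ ∃ p : K[X], p.natDegree ≤ R ∧ ∀ i, F i = p.eval (pt i) := by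
  unfold Ev
  constructor
  · rintro ⟨p, hp, rfl⟩
    refine ⟨p, ?_, fun i => rfl⟩
    rw [SetLike.mem_coe, mem_degreeLT] at hp
    exact natDegree_le_of_degree_le (Order.le_of_lt_succ hp)
  · rintro ⟨p, hp, h⟩
    refine ⟨p, ?_, ?_⟩
    · rw [SetLike.mem_coe, mem_degreeLT]
      exact (degree_le_natDegree.trans (WithBot.coe_le_coe.2 hp)).trans_lt
        (WithBot.coe_lt_coe.2 (Nat.lt_succ_self R))
    · funext i
      rw [ev_apply, h i]

lemma Wt_le_Ev (pt : Fin N → K) (c : K) (R : ℕ) (W : Submodule K (Fin N → K))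
    (hW : W ≤ Ev pt R) : ∀ t, Wt (dg fun i => pt i - c) W t ≤ Ev pt (R + t) := by
  intro t
  induction t with
  | zero => exact hW
  | succ t ih =>
    rw [Wt_succ]
    refine sup_le (ih.trans ?_) ?_
    · intro F hF
      obtain ⟨p, hp, h⟩ := mem_Ev.1 hF
      exact mem_Ev.2 ⟨p, by omega, h⟩
    · rintro _ ⟨F, hF, rfl⟩
      obtain ⟨p, hp, h⟩ := mem_Ev.1 (ih hF)
      refine mem_Ev.2 ⟨(X - C c) * p, ?_, fun i => ?_⟩
      · refine natDegree_mul_le.trans ?_
        have := natDegree_X_sub_C_le c
        omega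
      · rw [dg_apply, h i, eval_mul, eval_sub, eval_X, eval_C]

/-- the subspaces which control the number of the conditions -/
theorem cert_W [Infinite K] (pt : Fin N → K) (hpt : Function.Injective pt) (R m : ℕ) (hm : 1 ≤ m)
    (W : Submodule K (Fin N → K)) (hW : W ≤ Ev pt R) (D : Finset (Fin N)) (u : Fin N → K)
    (hu : u ∈ W) (huD : ∀ i ∈ D, u i ≠ 0) :
    ∃ (ι : Type) (_ : Fintype ι) (G : ι → Submodule K (Fin N → K)), (∀ l, G l ≤ W) ∧
      (∀ I ⊆ D, I.card ≤ m → (I.card : ℝ) ≤ ∑ l, ((rk I W : ℝ) - rk I (G l))) ∧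
      ∑ l, ((finrank K W : ℝ) - finrank K (G l)) ≤ R + m := by
  classical
  obtain ⟨c, hc⟩ := Infinite.exists_notMem_finset (univ.image pt)
  have hs0 : ∀ i, pt i - c ≠ 0 := fun i h => hc (mem_image.2 ⟨i, mem_univ i, sub_eq_zero.1 h⟩)
  have hsi : Function.Injective fun i => pt i - c := fun i j h => hpt (sub_left_injective h)
  obtain ⟨t, rfl⟩ : ∃ t, m = t + 1 := ⟨m - 1, by omega⟩
  obtain ⟨ι, hι, G, hG, h⟩ := cert (dg fun i => pt i - c) W t ⊥ bot_le
  refine ⟨ι, hι, G, hG, fun I hI hIc => ?_, ?_⟩
  · have h1 := h (fun A => (rk I A : ℝ)) (rk_sub I) (fun A => by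
      show (rk I (A.map (dg fun i => pt i - c)) : ℝ) = rk I A
      rw [rk_dg I _ hs0])
    have h2 := rk_full (fun i => pt i - c) W u hu I (fun i hi => huD i (hI hi)) hsi.injOn t hIc
    have h3 : rk I (⊥ : Submodule K (Fin N → K)) = 0 := by
      unfold rk
      rw [Submodule.map_bot, finrank_bot]
    rw [h2, h3, Nat.cast_zero, sub_zero] at h1
    exact h1
  · have h1 : -(finrank K (Wt (dg fun i => pt i - c) W t) : ℝ) -
        -(finrank K (⊥ : Submodule K (Fin N → K)) : ℝ) ≤
        ∑ l, (-(finrank K W : ℝ) - -(finrank K (G l) : ℝ)) :=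
      h (fun A => -(finrank K A : ℝ)) (fun A B => by
      have := finrank_sup_inf A B
      linarith) (fun A => by
      show -(finrank K (A.map (dg fun i => pt i - c)) : ℝ) = -(finrank K A : ℝ)
      rw [finrank_dg _ hs0])
    have h2 : finrank K (Wt (dg fun i => pt i - c) W t) ≤ R + t + 1 :=
      (Submodule.finrank_mono (Wt_le_Ev pt c R W hW t)).trans (finrank_Ev _ _)
    have h3 : (finrank K (Wt (dg fun i => pt i - c) W t) : ℝ) ≤ R + t + 1 := by exact_mod_cast h2
    have h5 : finrank K (⊥ : Submodule K (Fin N → K)) = 0 := finrank_bot K _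
    rw [h5, Nat.cast_zero] at h1
    have h4 : ∑ l, (-(finrank K W : ℝ) - -(finrank K (G l) : ℝ)) =
        -∑ l, ((finrank K W : ℝ) - finrank K (G l)) := by
      rw [← sum_neg_distrib]
      exact sum_congr rfl fun l _ => by ring
    rw [h4] at h1
    push_cast
    linarith

end

end Pool.Agent.H430.Ft
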