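import Pool.Agent.H430.Ft.Dual
import Pool.Agent.H430.Gw.Place

/-!
The estimate at one place.
-/

set_option autoImplicit false

namespace Pool.Agent.H430.Ft

open Finset NumberField IsDedekindDomain Height Module
open Pool.Agent.W180.OP (Pl av wt fv nrm wt_nonneg le_nrm exists_nrm nrm_pos)
open Pool.Agent.H430.Cl
open Pool.Agent.H430.Gw (adapt lp loc_span)

section

variable {K : Type} [Field K] {N d : ℕ}

/-- the flag of an ordering -/
def fl (M : Fin N → Fin d → K) (σ : Fin N ≃ Fin N) (j : ℕ) :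
    Submodule K (Fin d → K) := Submodule.span K (M '' {t | ((σ.symm t : Fin N) : ℕ) < j})

lemma fl_mono (M : Fin N → Fin d → K) (σ : Fin N ≃ Fin N) : Monotone (fl M σ) := fun _ _ h =>
  Submodule.span_mono (Set.image_mono fun _ ht => lt_of_lt_of_le ht h)

lemma fl_zero (M : Fin N → Fin d → K) (σ : Fin N ≃ Fin N) : fl M σ 0 = ⊥ := by
  unfold fl
  simp

lemma fl_top (M : Fin N → Fin d → K) (hM : Submodule.span K (Set.range M) = ⊤)
    (σ : Fin N ≃ Fin N) : fl M σ N = ⊤ := by
  unfold fl
  rw [← hM]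
  congr 1
  ext z
  constructor
  · rintro ⟨t, _, rfl⟩
    exact ⟨t, rfl⟩
  · rintro ⟨t, rfl⟩
    exact ⟨t, (σ.symm t).2, rfl⟩

open Classical in
/-- adapted bases -/
lemma exists_b {ι' : Type} (M : Fin N → Fin d → K) (hM : Submodule.span K (Set.range M) = ⊤)
    (U : ι' → Submodule K (Fin d → K)) :
    ∃ b : (Fin N ≃ Fin N) → ι' → Finset (Fin d → K), ∀ σ l,
      LinearIndepOn K id (b σ l : Set (Fin d → K)) ∧ (∀ φ ∈ b σ l, φ ∈ U l) ∧
      (∀ φ ∈ b σ l, φ ≠ 0) ∧
      (∀ φ ∈ b σ l, φ ∈ fl M σ N) ∧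
      (b σ l).card = finrank K (U l) ∧
      ∀ j ≤ N, ((b σ l).filter fun φ => φ ∈ fl M σ j).card =
        finrank K (fl M σ j ⊓ U l : Submodule K (Fin d → K)) := by
  choose b hb1 hb2 hb3 hb4 using fun (σ : Fin N ≃ Fin N) (l : ι') =>
    adapt (U l) (fl M σ) (fl_mono _ _) (fl_zero _ _) N
  refine ⟨b, fun σ l => ⟨hb1 σ l, hb2 σ l, fun φ hφ => ?_, hb3 σ l, ?_, hb4 σ l⟩⟩
  · exact (hb1 σ l).ne_zero (mem_coe.2 hφ)
  · have h1 := hb4 σ l _ le_rfl
    rw [fl_top M hM σ, top_inf_eq] at h1
    rw [← h1]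
    congr 1
    exact (filter_true_of_mem fun φ _ => Submodule.mem_top).symm

end

lemma sort_desc {N : ℕ} (τ : Fin N → ℝ) :
    ∃ σ : Fin N ≃ Fin N, ∀ a b, a ≤ b → τ (σ b) ≤ τ (σ a) := by
  refine ⟨Tuple.sort fun i => -τ i, fun a b h => ?_⟩
  have h1 := Tuple.monotone_sort (fun i => -τ i) h
  simp only [Function.comp_apply] at h1
  linarith

variable {K : Type} [Field K] [NumberField K] {N d : ℕ}

open Classical in
/-- the estimate at one place -/
theorem place_ft (M : Fin N → Fin d → K)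
    {ι' : Type} [Fintype ι'] (U : ι' → Submodule K (Fin d → K)) (P : Finset (Fin N) → Prop)
    (hPd : ∀ I, P I → ∀ J ⊆ I, P J)
    (hmaj : ∀ I, P I → (I.card : ℝ) ≤
      ∑ l, (finrank K (sp M I ⊓ U l : Submodule K (Fin d → K)) : ℝ))
    (b : (Fin N ≃ Fin N) → ι' → Finset (Fin d → K))
    (hb : ∀ σ l, LinearIndepOn K id (b σ l : Set (Fin d → K)) ∧ (∀ φ ∈ b σ l, φ ∈ U l) ∧
      (∀ φ ∈ b σ l, φ ≠ 0) ∧
      (∀ φ ∈ b σ l, φ ∈ fl M σ N) ∧
      (b σ l).card = finrank K (U l) ∧
      ∀ j ≤ N, ((b σ l).filter fun φ => φ ∈ fl M σ j).card =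
        finrank K (fl M σ j ⊓ U l : Submodule K (Fin d → K))) (v : Pl K) :
    ∃ Cv : ℝ, 0 ≤ Cv ∧ ∀ Y : Fin d → K, Y ≠ 0 →
      (∀ σ l, ∀ φ ∈ b σ l, ∑ i, φ i * Y i ≠ 0) →
      ∀ I, P I → (∀ i ∈ I, ∑ l, M i l * Y l ≠ 0) →
      ∃ σ : Fin N ≃ Fin N,
        ∑ i ∈ I, wt v * (Real.log (nrm (av v) Y) - Real.log (av v (∑ l, M i l * Y l))) ≤
        ∑ l, (wt v * ∑ φ ∈ b σ l, (Real.log (nrm (av v) Y) -
          Real.log (av v (∑ i, φ i * Y i)))) + Cv := by
  have hw : 0 < wt v := wt_pos v
  -- the constants of the linear combinations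
  have hex : ∀ (T : Finset (Fin N)) (p : (Fin N ≃ Fin N) × ι')
      (φ : b p.1 p.2), ∃ C : ℝ, 0 ≤ C ∧ (φ.1 ∈ Submodule.span K (M '' (T : Set _)) →
      ∀ (Y : Fin d → K) (τ0 H : ℝ), (∀ t ∈ T, ∑ i, M t i * Y i = 0 ∨
      τ0 ≤ wt v * (H - Real.log (av v (∑ i, M t i * Y i)))) → ∑ i, φ.1 i * Y i ≠ 0 →
      τ0 - C ≤ wt v * (H - Real.log (av v (∑ i, φ.1 i * Y i)))) := by
    intro T p φ
    by_cases h : φ.1 ∈ Submodule.span K (M '' (T : Set _))
    · obtain ⟨C, h1, h2⟩ := loc_span M v T φ.1 h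
      exact ⟨C, h1, fun _ => h2⟩
    · exact ⟨0, le_rfl, fun h' => absurd h' h⟩
  choose Cs hCs0 hCs using hex
  set C1 : ℝ := ∑ T, ∑ p, ∑ φ, Cs T p φ with hC1
  have hC10 : 0 ≤ C1 := sum_nonneg fun T _ => sum_nonneg fun p _ => sum_nonneg fun φ _ =>
    hCs0 T p φ
  have hCs1 : ∀ T p φ, Cs T p φ ≤ C1 := by
    intro T p φ
    have h1 := single_le_sum (f := fun φ => Cs T p φ) (fun φ _ => hCs0 T p φ) (mem_univ φ)
    have h2 := single_le_sum (f := fun p => ∑ φ, Cs T p φ) (fun p _ => sum_nonneg fun φ _ =>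
      hCs0 T p φ) (mem_univ p)
    have h3 := single_le_sum (f := fun T => ∑ p, ∑ φ, Cs T p φ) (fun T _ => sum_nonneg fun p _ =>
      sum_nonneg fun φ _ => hCs0 T p φ) (mem_univ T)
    exact h1.trans (h2.trans h3)
  -- the matrix
  set B : ℝ := max 1 (∑ j, ∑ l, av v (M j l)) with hB
  have hB1 : 1 ≤ B := le_max_left _ _
  set C2 : ℝ := C1 + wt v * Real.log B with hC2
  have hC20 : 0 ≤ C2 := by
    have := mul_nonneg hw.le (Real.log_nonneg hB1)
    linarith
  refine ⟨(∑ l, (finrank K (U l) : ℝ)) * C2, by positivity, ?_⟩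
  intro Y hY0 hφY I hPI hIY
  have hYp := nrm_pos (av v) hY0
  have hjY : ∀ t : Fin N, ∑ i, M t i * Y i = 0 ∨
      -(wt v * Real.log B) ≤ wt v * (Real.log (nrm (av v) Y) -
        Real.log (av v (∑ i, M t i * Y i))) := by
    intro t
    by_cases h0 : ∑ i, M t i * Y i = 0
    · exact Or.inl h0
    right
    have h1 : av v (∑ l, M t l * Y l) ≤ B * nrm (av v) Y := by
      have h1 : av v (∑ l, M t l * Y l) ≤ ∑ l, av v (M t l) * nrm (av v) Y := by
        refine ((av v).sum_le _ _).trans (sum_le_sum fun i _ => ?_)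
        rw [map_mul]
        exact mul_le_mul_of_nonneg_left (le_nrm _ _ _) ((av v).nonneg _)
      refine h1.trans ?_
      rw [← sum_mul]
      refine mul_le_mul_of_nonneg_right ?_ hYp.le
      refine le_trans ?_ (le_max_right _ _)
      exact single_le_sum (f := fun j => ∑ i, av v (M j i)) (fun j _ => sum_nonneg fun i _ =>
        (av v).nonneg _) (mem_univ t)
    have h2 := Real.log_le_log ((av v).pos_iff.2 h0) h1
    rw [Real.log_mul (by positivity) hYp.ne'] at h2
    have h3 := mul_le_mul_of_nonneg_left h2 hw.le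
    rw [mul_sub]
    rw [mul_add] at h3
    linarith
  set τ : Fin N → ℝ := fun i => if i ∈ I then max 0 (wt v * (Real.log (nrm (av v) Y) -
    Real.log (av v (∑ l, M i l * Y l)))) else 0 with hτ
  have hτ0 : ∀ i, 0 ≤ τ i := by
    intro i
    simp only [hτ]
    split_ifs
    · exact le_max_left _ _
    · exact le_rfl
  have hτI : ∀ i, 0 < τ i → i ∈ I := by
    intro i hi
    by_contra h
    simp only [hτ] at hi
    rw [if_neg h] at hi
    exact lt_irrefl _ hi
  have hτc : ∀ i, ∑ l, M i l * Y l = 0 ∨ τ i - wt v * Real.log B ≤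
      wt v * (Real.log (nrm (av v) Y) - Real.log (av v (∑ l, M i l * Y l))) := by
    intro i
    refine (hjY i).imp_right fun h1 => ?_
    have h2 : 0 ≤ wt v * Real.log B := mul_nonneg hw.le (Real.log_nonneg hB1)
    simp only [hτ]
    split_ifs
    · rcases max_cases 0 (wt v * (Real.log (nrm (av v) Y) -
        Real.log (av v (∑ l, M i l * Y l)))) with h | h <;> rw [h.1] <;> linarith
    · linarith
  obtain ⟨σ, hσ1⟩ := sort_desc τ
  refine ⟨σ, ?_⟩
  set τs : ℕ → ℝ := fun j => if h : j < N then τ (σ ⟨j, h⟩) else 0 with hτs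
  have hτs0 : ∀ j, 0 ≤ τs j := by
    intro j
    simp only [hτs]
    split_ifs
    · exact hτ0 _
    · exact le_rfl
  have hτsa : Antitone τs := by
    intro j j' h
    simp only [hτs]
    by_cases h1 : j' < N
    · rw [dif_pos h1, dif_pos (lt_of_le_of_lt h h1)]
      exact hσ1 ⟨j, lt_of_le_of_lt h h1⟩ ⟨j', h1⟩ h
    · rw [dif_neg h1]
      split_ifs
      · exact hτ0 _
      · exact le_rfl
  set R : ℕ := (univ.filter fun i => 0 < τ i).card with hR
  have hRI : R ≤ I.card := card_le_card fun i hi => hτI i (mem_filter.1 hi).2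
  have hRN : R ≤ N := by
    have := card_filter_le (univ : Finset (Fin N)) fun i => 0 < τ i
    rw [card_univ, Fintype.card_fin] at this
    exact this
  have hτsR : ∀ j, R ≤ j → τs j = 0 := by
    intro j hj
    by_contra hne
    have hjP : j < N := by
      by_contra hc
      apply hne
      simp only [hτs]
      rw [dif_neg hc]
    have hpos : 0 < τs j := lt_of_le_of_ne (hτs0 j) (Ne.symm hne)
    have h1 : (Finset.range (j + 1)).card ≤ (univ.filter fun i => 0 < τ i).card := by
      refine card_le_card_of_injOn (fun i => if h : i < N then σ ⟨i, h⟩ else σ ⟨j, hjP⟩) ?_ ?_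
      · intro i hi
        rw [mem_coe, mem_range] at hi
        have hiP : i < N := by omega
        rw [mem_coe, mem_filter]
        refine ⟨mem_univ _, ?_⟩
        beta_reduce
        rw [dif_pos hiP]
        have h3 : τs j ≤ τs i := hτsa (by omega)
        have h4 : τs i = τ (σ ⟨i, hiP⟩) := by
          simp only [hτs]
          rw [dif_pos hiP]
        linarith
      · intro i hi i' hi' h
        rw [mem_coe, mem_range] at hi hi'
        have hiP : i < N := by omega
        have hiP2 : i' < N := by omega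
        simp only [dif_pos hiP, dif_pos hiP2] at h
        have h2 := σ.injective h
        simpa using h2
    rw [card_range] at h1
    omega
  have hτspos : ∀ j (h : j < N), j < R → 0 < τ (σ ⟨j, h⟩) := by
    intro j h hjR
    by_contra hc
    push Not at hc
    have h1 : (univ.filter fun i => 0 < τ i).card ≤ (Finset.range j).card := by
      refine card_le_card_of_injOn (fun i => ((σ.symm i : Fin N) : ℕ)) ?_ ?_
      · intro i hi
        rw [mem_coe, mem_filter] at hi
        rw [mem_coe, mem_range]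
        by_contra hge
        push Not at hge
        have h2 := hσ1 ⟨j, h⟩ (σ.symm i) (by rw [Fin.le_def]; exact hge)
        rw [σ.apply_symm_apply] at h2
        linarith [hi.2]
      · intro i _ i' _ hh
        exact σ.symm.injective (Fin.ext hh)
    rw [card_range] at h1
    omega
  have hf : ∀ j ≤ R, (j : ℝ) ≤ ∑ l, (1 : ℝ) *
      finrank K (fl M σ j ⊓ U l : Submodule K (Fin d → K)) := by
    intro j hj
    simp only [one_mul]
    set J : Finset (Fin N) := univ.filter fun t => ((σ.symm t : Fin N) : ℕ) < j with hJ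
    have hJI : J ⊆ I := by
      intro t ht
      rw [hJ, mem_filter] at ht
      have h1 := hτspos _ (σ.symm t).2 (lt_of_lt_of_le ht.2 hj)
      rw [Fin.eta, σ.apply_symm_apply] at h1
      exact hτI t h1
    have hJc : J.card = j := by
      have h1 : J = (univ.filter fun s : Fin N => (s : ℕ) < j).map σ.toEmbedding := by
        ext t
        rw [hJ, mem_filter, mem_map]
        constructor
        · rintro ⟨_, h⟩
          exact ⟨σ.symm t, mem_filter.2 ⟨mem_univ _, h⟩, σ.apply_symm_apply t⟩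
        · rintro ⟨s, hs, rfl⟩
          refine ⟨mem_univ _, ?_⟩
          rw [Equiv.coe_toEmbedding, σ.symm_apply_apply]
          exact (mem_filter.1 hs).2
      rw [h1, card_map]
      have h2 : (univ.filter fun s : Fin N => (s : ℕ) < j).card = (Finset.range j).card := by
        refine card_nbij (fun s => (s : ℕ)) ?_ ?_ ?_
        · intro s hs
          exact mem_range.2 (mem_filter.1 hs).2
        · intro s _ s' _ h
          exact Fin.ext h
        · intro s hs
          rw [mem_coe, mem_range] at hs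
          exact ⟨⟨s, by omega⟩, by simp [hs], rfl⟩
      rw [h2, card_range]
    have h1 := hmaj J (hPd I hPI J hJI)
    rw [hJc] at h1
    refine h1.trans (le_of_eq ?_)
    refine sum_congr rfl fun l _ => ?_
    have h2 : sp M J = fl M σ j := by
      unfold sp fl
      congr 2
      ext t
      simp [hJ]
    rw [h2]
  set val : (Fin d → K) → ℝ := fun φ => wt v * (Real.log (nrm (av v) Y) -
    Real.log (av v (∑ i, φ i * Y i))) + C2 with hval
  have h1 := lp U (fun _ => (1 : ℝ)) (fun _ => zero_le_one) (fl M σ) (fl_mono _ _) (fl_zero _ _)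
    N (b σ) (fun l => (hb σ l).2.2.1) (fun l => (hb σ l).2.2.2.1) (fun l => (hb σ l).2.2.2.2.2)
    τs hτsa hτs0 R hRN hτsR hf val (by
      intro l φ hφ j hj hj1 _
      set T : Finset (Fin N) := univ.filter fun t =>
        ((σ.symm t : Fin N) : ℕ) < j + 1 with hT
      have hT' : (T : Set (Fin N)) = {t | ((σ.symm t : Fin N) : ℕ) < j + 1} := by
        ext t
        simp [hT]
      have hφT : φ ∈ Submodule.span K (M '' (T : Set _)) := by
        rw [hT']
        exact hj1
      have h2 := hCs T (σ, l) ⟨φ, hφ⟩ hφT Y (τs j - wt v * Real.log B)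
        (Real.log (nrm (av v) Y)) (by
        intro t ht
        refine (hτc t).imp_right fun h4 => ?_
        have h5 : τs j ≤ τ t := by
          simp only [hτs]
          rw [dif_pos hj]
          have h6 : σ.symm t ≤ ⟨j, hj⟩ := by
            rw [Fin.le_def]
            have := (mem_filter.1 ht).2
            simp only
            omega
          have h7 := hσ1 _ _ h6
          rw [σ.apply_symm_apply] at h7
          exact h7
        linarith) (hφY σ l φ hφ)
      have h3 := hCs1 T (σ, l) ⟨φ, hφ⟩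
      simp only [hval, hC2]
      linarith)
  have h2 : ∑ j ∈ Finset.range N, τs j = ∑ i, τ i := by
    rw [Finset.sum_range]
    have h3 : ∀ j : Fin N, τs j = τ (σ j) := by
      intro j
      simp only [hτs]
      rw [dif_pos j.2]
    rw [sum_congr rfl fun j _ => h3 j, σ.sum_comp]
  rw [h2] at h1
  have h3 : ∑ l, (1 : ℝ) * ∑ φ ∈ b σ l, val φ = ∑ l, (wt v * ∑ φ ∈ b σ l,
      (Real.log (nrm (av v) Y) - Real.log (av v (∑ i, φ i * Y i)))) +
        (∑ l, (finrank K (U l) : ℝ)) * C2 := by
    rw [sum_mul, ← sum_add_distrib]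
    refine sum_congr rfl fun l _ => ?_
    simp only [hval]
    rw [one_mul, sum_add_distrib, sum_const, (hb σ l).2.2.2.2.1, nsmul_eq_mul, ← mul_sum]
  rw [h3] at h1
  refine le_trans ?_ h1
  calc ∑ i ∈ I, wt v * (Real.log (nrm (av v) Y) - Real.log (av v (∑ l, M i l * Y l)))
      ≤ ∑ i ∈ I, τ i := by
        refine sum_le_sum fun i hi => ?_
        simp only [hτ]
        rw [if_pos hi]
        exact le_max_right _ _
    _ ≤ ∑ i, τ i := sum_le_univ_sum_of_nonneg hτ0

end Pool.Agent.H430.Ft
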