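import Pool.Agent.H430.Ft.Pts

/-!
The inequality for closed points.
-/

set_option autoImplicit false

namespace Pool.Agent.H430.Ft

open Finset NumberField IsDedekindDomain Height Module Polynomial
open Pool.Agent.W180.OP (Pl av wt fv nrm wt_nonneg le_nrm exists_nrm nrm_pos nrm_nonneg)
open Pool.Agent.NH28 (Ov nn ab mem_ab)
open Pool.Agent.H430.Cl

variable {K : Type} [Field K] [NumberField K]

/-- the proximity of a point to the hyperplane `∑ x_k t ^ k = 0` -/
noncomputable def prox {L : Type} [Field L] [NumberField L] [Algebra K L] {n : ℕ} (v : Pl K)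
    (t : K) (x : Fin (n + 1) → L) : ℝ :=
  ∑ w ∈ ab L v, wt w * (Real.log (nrm (av w) x) - Real.log (av w (lf x t)))

lemma prox_eq {L : Type} [Field L] [NumberField L] [Algebra K L] {n : ℕ} (v : Pl K)
    (t : K) (x : Fin (n + 1) → L) (h : lf x t ≠ 0) :
    prox v t x = ∑ w ∈ ab L v, wt w * Real.log (nrm (av w) x) -
      wt v * Real.log (av v (Algebra.norm K (lf x t))) := by
  unfold prox
  rw [norm_pl v h, ← sum_sub_distrib]
  exact sum_congr rfl fun w _ => by ring

/-- the constant: `R + m` if `m` divides `R`, and `R + m - 1` otherwise -/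
def opt (R m : ℕ) : ℕ := if m ∣ R then R + m else R + m - 1

lemma opt_le (R m : ℕ) (h : m ≤ R) : opt R m ≤ 2 * R := by
  unfold opt
  split_ifs <;> omega

lemma values_opt {N : ℕ} (pt : Fin N → K) (hpt : Function.Injective pt) (D : Finset (Fin N))
    (R : ℕ) (S : Finset (Pl K)) (ε : ℝ) (hε : 0 < ε) (m : ℕ) (hm : 1 ≤ m) :
    ∃ C : ℝ, 0 ≤ C ∧ ∀ F ∈ Ev pt R, F ≠ 0 → (∀ i ∈ D, F i ≠ 0) →
      ∀ I : Pl K → Finset (Fin N), (∀ v ∈ S, I v ⊆ D ∧ (I v).card ≤ m) →
        ∑ v ∈ S, ∑ i ∈ I v, wt v * (Real.log (nrm (av v) F) - Real.log (av v (F i))) ≤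
        (opt R m + ε) * logHeight F + C := by
  by_cases h : m ∣ R
  · obtain ⟨C, h1, h2⟩ := values_ft pt hpt D R S ε hε m hm
    have h3 : ((opt R m : ℕ) : ℝ) = R + m := by
      unfold opt
      rw [if_pos h]
      push_cast
      rfl
    rw [h3]
    exact ⟨C, h1, h2⟩
  · have hm2 : 2 ≤ m := by
      by_contra hlt
      have h1 : m = 1 := by omega
      exact h (h1 ▸ one_dvd R)
    have h3 : ((opt R m : ℕ) : ℝ) = R + m - 1 := by
      unfold opt
      rw [if_neg h, Nat.cast_sub (by omega)]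
      push_cast
      rfl
    rw [h3]
    refine values_heavy pt hpt D R S ε hε m hm2 (fun I => I ⊆ D ∧ I.card ≤ m) (fun _ h => h)
      (fun _ h _ hJ => ⟨hJ.trans h.1, (card_le_card hJ).trans h.2⟩) ?_
    intro κ _ J _ _ hcon
    apply h
    have h4 : m ∣ R + m := ⟨Fintype.card κ, by rw [← hcon, mul_comm]⟩
    exact (Nat.dvd_add_left (dvd_refl m)).1 h4

/-- the inequality for closed points of projective space -/
theorem main_ft {q : ℕ} (a : Fin q → K) (ha : Function.Injective a) (n r : ℕ)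
    (S : Finset (Pl K)) (ε : ℝ) (hε : 0 < ε) : ∃ C : ℝ, 0 ≤ C ∧
    ∀ (L : Type) [Field L] [NumberField L] [Algebra K L], finrank K L = r →
      ∀ x : Fin (n + 1) → L, x ≠ 0 → (∀ i, lf x (a i) ≠ 0) →
      ∀ (m : ℕ) (I : Pl K → Finset (Fin q)), (∀ v ∈ S, (I v).card ≤ m) →
        ∑ v ∈ S, ∑ i ∈ I v, prox v (a i) x ≤
          (opt (n * r) (min m (n * r)) + ε) * logHeight x + C := by
  classical
  obtain ⟨pt, hpt, hpa⟩ := exists_extra a ha (n * r + 1)
  set D : Finset (Fin (q + (n * r + 1))) := univ.image (Fin.castAdd (n * r + 1)) with hD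
  choose Cl hCl0 hCl using fun v : Pl K => nv_lower pt hpt n r (by omega) v
  obtain ⟨Ch, hCh0, hCh⟩ := nv_height pt n r
  have hex : ∀ m' : ℕ, ∃ C : ℝ, 0 ≤ C ∧ (1 ≤ m' → ∀ F ∈ Ev pt (n * r), F ≠ 0 →
      (∀ i ∈ D, F i ≠ 0) →
      ∀ I : Pl K → Finset (Fin (q + (n * r + 1))), (∀ v ∈ S, I v ⊆ D ∧ (I v).card ≤ m') →
        ∑ v ∈ S, ∑ i ∈ I v, wt v * (Real.log (nrm (av v) F) - Real.log (av v (F i))) ≤
        (opt (n * r) m' + ε) * logHeight F + C) := by
    intro m'
    by_cases h : 1 ≤ m'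
    · obtain ⟨C, h1, h2⟩ := values_opt pt hpt D (n * r) S ε hε m' h
      exact ⟨C, h1, fun _ => h2⟩
    · exact ⟨0, le_rfl, fun h' => absurd h' h⟩
  choose Cm hCm0 hCm using hex
  set Q : ℝ := ∑ v ∈ S, (q : ℝ) * Cl v with hQ
  have hQ0 : 0 ≤ Q := sum_nonneg fun v _ => mul_nonneg (Nat.cast_nonneg _) (hCl0 v)
  have hCs0 : 0 ≤ ∑ m' ∈ range (n * r + 1), Cm m' := sum_nonneg fun m' _ => hCm0 m'
  refine ⟨(2 * (n * r : ℕ) + ε) * Ch + ∑ m' ∈ range (n * r + 1), Cm m' + Q, by positivity, ?_⟩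
  intro L _ _ _ hr x hx hxa m I hI
  have hh0 : 0 ≤ logHeight x := logHeight_nonneg _
  set F : Fin (q + (n * r + 1)) → K := nv pt x with hF
  have hFi : ∀ i, F (Fin.castAdd (n * r + 1) i) = Algebra.norm K (lf x (a i)) := by
    intro i
    rw [← hpa i]
    rfl
  choose hl1 B hB hBj using fun v : Pl K => hCl v L hr x hx
  have hF0 : F ≠ 0 := by
    obtain ⟨v0⟩ : Nonempty (Pl K) := inferInstance
    obtain ⟨j, hj⟩ : ∃ j, j ∉ B v0 := by
      by_contra hc
      push Not at hc
      have h2 : (univ : Finset (Fin (q + (n * r + 1)))).card ≤ (B v0).card :=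
        card_le_card fun j _ => hc j
      rw [card_univ, Fintype.card_fin] at h2
      have := hB v0
      omega
    intro h
    apply (hBj v0 j hj).1
    rw [← hF, h]
    rfl
  have hFE : F ∈ Ev pt (n * r) := by
    have : FiniteDimensional K L := Module.Finite.of_restrictScalars_finite ℚ K L
    obtain ⟨f, hf1, hf2⟩ := norm_Ev (K := K) x
    rw [hr] at hf1
    exact mem_Ev.2 ⟨f, hf1, fun i => (hf2 (pt i)).symm⟩
  have hFD : ∀ i ∈ D, F i ≠ 0 := by
    intro i hi
    obtain ⟨j, _, rfl⟩ := mem_image.1 hi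
    rw [hFi]
    exact norm_ne.2 (hxa j)
  have hhF : logHeight F ≤ logHeight x + Ch := hCh L hr x hx hF0
  -- the near hyperplanes
  set J : Pl K → Finset (Fin q) := fun v => (I v).filter fun i => Fin.castAdd (n * r + 1) i ∈ B v
    with hJ
  set J' : Pl K → Finset (Fin (q + (n * r + 1))) := fun v => (J v).map (Fin.castAddEmb (n * r + 1))
    with hJ'
  set m' := min m (n * r) with hm'
  have hJc : ∀ v ∈ S, (J v).card ≤ m' := by
    intro v hv
    refine le_min ((card_filter_le _ _).trans (hI v hv)) ?_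
    refine le_trans ?_ (hB v)
    refine card_le_card_of_injOn (fun i => Fin.castAdd (n * r + 1) i) ?_ ?_
    · intro i hi
      exact (mem_filter.1 hi).2
    · intro i _ j _ h
      exact Fin.castAdd_injective _ _ h
  have h1 : ∀ v ∈ S, ∑ i ∈ I v, prox v (a i) x ≤
      ∑ i ∈ J' v, wt v * (Real.log (nrm (av v) F) - Real.log (av v (F i))) + q * Cl v := by
    intro v hv
    have h2 : ∀ i ∈ I v, prox v (a i) x ≤ (if Fin.castAdd (n * r + 1) i ∈ B v then
        wt v * (Real.log (nrm (av v) F) - Real.log (av v (F (Fin.castAdd (n * r + 1) i)))) else 0) +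
          Cl v := by
      intro i _
      rw [prox_eq v (a i) x (hxa i), ← hFi i]
      split_ifs with h
      · have h3 := hl1 v
        rw [mul_sub]
        linarith
      · have h3 := (hBj v _ h).2
        linarith
    refine (sum_le_sum h2).trans ?_
    rw [sum_add_distrib, sum_const, nsmul_eq_mul, ← sum_filter]
    refine add_le_add (le_of_eq ?_) ?_
    · rw [hJ', sum_map]
      rfl
    · refine mul_le_mul_of_nonneg_right ?_ (hCl0 v)
      have h3 := card_le_univ (I v)
      rw [Fintype.card_fin] at h3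
      exact_mod_cast h3
  have h2 := sum_le_sum h1
  rw [sum_add_distrib] at h2
  by_cases h0 : 1 ≤ m'
  · have h3 := hCm m' h0 F hFE hF0 hFD J' (fun v hv => ⟨?_, ?_⟩)
    · have hm'r : m' ≤ n * r := min_le_right _ _
      have h4 : Cm m' ≤ ∑ m' ∈ range (n * r + 1), Cm m' :=
        single_le_sum (f := Cm) (fun m' _ => hCm0 m') (mem_range.2 (by omega))
      have hc : ((opt (n * r) m' : ℕ) : ℝ) ≤ 2 * (n * r : ℕ) := by
        exact_mod_cast opt_le _ _ hm'r
      have h5 : (((opt (n * r) m' : ℕ) : ℝ) + ε) * logHeight F ≤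
          (((opt (n * r) m' : ℕ) : ℝ) + ε) * logHeight x + (2 * (n * r : ℕ) + ε) * Ch := by
        have h6 := mul_le_mul_of_nonneg_left hhF
          (show (0 : ℝ) ≤ ((opt (n * r) m' : ℕ) : ℝ) + ε by positivity)
        have h7 := mul_le_mul_of_nonneg_right
          (show ((opt (n * r) m' : ℕ) : ℝ) + ε ≤ 2 * (n * r : ℕ) + ε by linarith) hCh0
        rw [mul_add] at h6
        linarith
      linarith
    · intro i hi
      obtain ⟨j, _, rfl⟩ := mem_map.1 hi
      exact mem_image_of_mem _ (mem_univ j)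
    · rw [hJ', card_map]
      exact hJc v hv
  · have hm0 : m' = 0 := by omega
    have h3 : ∑ v ∈ S, ∑ i ∈ J' v, wt v * (Real.log (nrm (av v) F) - Real.log (av v (F i))) = 0 := by
      refine sum_eq_zero fun v hv => ?_
      have h4 : J' v = ∅ := by
        rw [← card_eq_zero, hJ', card_map]
        have := hJc v hv
        omega
      rw [h4, sum_empty]
    rw [h3, zero_add] at h2
    have h4 : 0 ≤ (((opt (n * r) m' : ℕ) : ℝ) + ε) * logHeight x := by positivity
    have h5 : 0 ≤ (2 * ((n * r : ℕ) : ℝ) + ε) * Ch := by positivity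
    linarith

end Pool.Agent.H430.Ft
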