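import Pool.Agent.H430.Cl.Fin
import Pool.Agent.H430.Gw.Fin
import Pool.Agent.H430.Ft.Dual

/-!
Norms and places; the norm form of a point as the values of a polynomial.
-/

set_option autoImplicit false

namespace Pool.Agent.H430.Ft

open Finset NumberField IsDedekindDomain Height Module Polynomial
open Pool.Agent.W180.OP (Pl av wt fv nrm wt_nonneg le_nrm exists_nrm nrm_pos)
open Pool.Agent.NH28 (Ov nn ab mem_ab sum_nn one_le_nn nn_ext nn_nonneg exists_below ov_unique
  sum_split height_sum prod_formula fab mem_fab nrm_support ab_nonempty card_ab_le)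
open Pool.Agent.H430.Cl
open Pool.Agent.H430.Gw (exists_gal)

section

variable {K L : Type} [Field K] [NumberField K] [Field L] [NumberField L] [Algebra K L]

/-- the absolute values of a norm -/
theorem norm_pl (v : Pl K) {y : L} (hy : y ≠ 0) :
    wt v * Real.log (av v (Algebra.norm K y)) = ∑ w ∈ ab L v, wt w * Real.log (av w y) := by
  obtain ⟨E, _, _, _, _, _, _⟩ := exists_gal K L
  obtain ⟨u, hu'⟩ := ab_nonempty E v
  have hu := mem_ab.1 hu'
  set z : E := algebraMap L E y with hz
  have hz0 : z ≠ 0 := by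
    rw [hz]
    exact (_root_.map_ne_zero _).2 hy
  -- the norm from `E`
  have h1 : Algebra.norm K z = Algebra.norm K y ^ finrank L E := by
    rw [← Algebra.norm_norm (S := L) (R := K), hz, Algebra.norm_algebraMap, map_pow]
  have h2 : algebraMap K E (Algebra.norm K z) = ∏ σ : E ≃ₐ[K] E, σ z :=
    Algebra.norm_eq_prod_automorphisms K z
  have h3 : wt u * Real.log (av u (algebraMap K E (Algebra.norm K z))) =
      ∑ σ : E ≃ₐ[K] E, wt (pull σ u) * Real.log (av (pull σ u) z) := by
    rw [h2, map_prod, Real.log_prod, mul_sum]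
    · refine sum_congr rfl fun σ _ => ?_
      rw [pull_wt, pull_av]
    · intro σ _ h
      rw [map_eq_zero, map_eq_zero] at h
      exact hz0 h
  rw [gal_sum hu (fun u' => wt u' * Real.log (av u' z)), nn_ext hu, h1, map_pow, Real.log_pow]
    at h3
  have h4 : ∀ u' ∈ ab E v, nn v u' = nn v u := by
    intro u' hu'
    obtain ⟨τ, rfl⟩ := exists_pull_eq hu (mem_ab.1 hu')
    exact pull_nn τ hu
  have h5 : ∑ u' ∈ ab E v, nn v u' * (wt u' * Real.log (av u' z)) =
      nn v u * (finrank L E * ∑ w ∈ ab L v, wt w * Real.log (av w y)) := by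
    rw [sum_congr rfl fun u' hu' => by rw [h4 u' hu'], ← mul_sum]
    congr 1
    rw [← sum_tower (L := L) v, mul_sum]
    refine sum_congr rfl fun w _ => ?_
    have h6 : ∀ u' ∈ ab E w, wt u' * Real.log (av u' z) =
        nn w u' * (wt w * Real.log (av w y)) := fun u' hu' => nn_ext (mem_ab.1 hu') y
    rw [sum_congr rfl h6, ← sum_mul, sum_nn]
  rw [h5] at h3
  have h7 : 0 < nn v u := lt_of_lt_of_le zero_lt_one (one_le_nn hu)
  have h8 : (0 : ℝ) < finrank L E := by
    have : 0 < finrank L E := finrank_pos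
    exact_mod_cast this
  have h9 : nn v u * (finrank L E * (wt v * Real.log (av v (Algebra.norm K y)))) =
      nn v u * (finrank L E * ∑ w ∈ ab L v, wt w * Real.log (av w y)) := by
    rw [← h3]
    ring
  exact mul_left_cancel₀ h8.ne' (mul_left_cancel₀ h7.ne' h9)

end

section

variable {K L : Type} [Field K] [Field L] [Algebra K L] {n : ℕ}

/-- the value of the linear form `∑ x_k t ^ k` -/
def lf (x : Fin (n + 1) → L) (t : K) : L := ∑ k : Fin (n + 1), x k * algebraMap K L (t ^ (k : ℕ))

/-- the norm form -/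
theorem norm_Ev [FiniteDimensional K L] (x : Fin (n + 1) → L) :
    ∃ f : K[X], f.natDegree ≤ n * finrank K L ∧ ∀ t : K, f.eval t = Algebra.norm K (lf x t) := by
  classical
  set b := finBasis K L with hb
  set A : Matrix (Fin (finrank K L)) (Fin (finrank K L)) K[X] :=
    ∑ k : Fin (n + 1), (X ^ (k : ℕ) : K[X]) • (Algebra.leftMulMatrix b (x k)).map C with hA
  have hAij : ∀ i j, A i j = ∑ k : Fin (n + 1), X ^ (k : ℕ) * C (Algebra.leftMulMatrix b (x k) i j) := by
    intro i j
    rw [hA, Matrix.sum_apply]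
    rfl
  refine ⟨A.det, ?_, fun t => ?_⟩
  · rw [Matrix.det_apply]
    refine natDegree_sum_le_of_forall_le _ _ fun σ _ => ?_
    refine (natDegree_smul_le _ _).trans ?_
    refine (natDegree_prod_le _ _).trans ?_
    have h1 : ∀ i ∈ (univ : Finset (Fin (finrank K L))), (A (σ i) i).natDegree ≤ n := by
      intro i _
      rw [hAij]
      refine natDegree_sum_le_of_forall_le _ _ fun k _ => ?_
      refine (natDegree_mul_C_le _ _).trans ?_
      rw [natDegree_X_pow]
      exact Nat.lt_succ_iff.1 k.2
    refine (sum_le_sum h1).trans ?_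
    rw [sum_const, card_univ, Fintype.card_fin, smul_eq_mul, mul_comm]
  · rw [Algebra.norm_eq_matrix_det b, ← coe_evalRingHom, RingHom.map_det]
    congr 1
    ext i j
    rw [RingHom.mapMatrix_apply, Matrix.map_apply, hAij, coe_evalRingHom, eval_finset_sum]
    unfold lf
    rw [map_sum, Matrix.sum_apply]
    refine sum_congr rfl fun k _ => ?_
    rw [eval_mul, eval_pow, eval_X, eval_C, mul_comm (x k), ← Algebra.smul_def, map_smul,
      Matrix.smul_apply, smul_eq_mul]

end

end Pool.Agent.H430.Ft
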