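import Pool.Agent.H430.Gw.Sh1

/-!
Products of polynomials and the heights of their coefficients.
-/

set_option autoImplicit false

namespace Pool.Agent.H430.Ft

open Finset NumberField IsDedekindDomain Height Module Polynomial
open Pool.Agent.W180.OP (Pl av wt fv nrm wt_nonneg le_nrm exists_nrm nrm_pos nrm_nonneg)
open Pool.Agent.NH28 (nn ab mem_ab)
open Pool.Agent.H430.Cl
open Pool.Agent.H430.Gw (ht_T proj_ht)

section

variable {K : Type} [Field K]

/-- the vector of the coefficients -/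
def cf (r : ℕ) (f : K[X]) : Fin (r + 1) → K := fun j => f.coeff j

lemma cf_apply (r : ℕ) (f : K[X]) (j : Fin (r + 1)) : cf r f j = f.coeff j := rfl

lemma cf_ne {r : ℕ} {f : K[X]} (hf : f ≠ 0) (hd : f.natDegree ≤ r) : cf r f ≠ 0 := by
  intro h
  have h1 := congrFun h ⟨f.natDegree, by omega⟩
  rw [cf_apply] at h1
  exact leadingCoeff_ne_zero.2 hf h1

lemma cf_eq_zero {r : ℕ} {f : K[X]} (hd : f.natDegree ≤ r) (h : cf r f = 0) : f = 0 := by
  by_contra hf
  exact cf_ne hf hd h

/-- the Gauss norm is the maximum norm -/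
lemma gauss_eq (f : AbsoluteValue K ℝ) {r : ℕ} {p : K[X]} (hp : p.natDegree ≤ r) :
    p.gaussNorm f 1 = nrm f (cf r p) := by
  apply le_antisymm
  · obtain ⟨i, hi⟩ := exists_eq_gaussNorm f 1 p
    rw [hi, one_pow, mul_one]
    by_cases h : i ≤ r
    · exact le_nrm f (cf r p) ⟨i, by omega⟩
    · rw [coeff_eq_zero_of_natDegree_lt (by omega), map_zero]
      exact nrm_nonneg _ _
  · obtain ⟨j, hj⟩ := exists_nrm f (Nat.succ_pos r) (cf r p)
    rw [← hj]
    have := p.le_gaussNorm f zero_le_one (j : ℕ)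
    rwa [one_pow, mul_one] at this

/-- the norm of a product -/
lemma nrm_mul_le (f : AbsoluteValue K ℝ) {r : ℕ} (G H : K[X]) :
    nrm f (cf r (G * H)) ≤ (r + 1) * (nrm f (cf r G) * nrm f (cf r H)) := by
  obtain ⟨j, hj⟩ := exists_nrm f (Nat.succ_pos r) (cf r (G * H))
  rw [← hj, cf_apply, coeff_mul, Nat.sum_antidiagonal_eq_sum_range_succ
    (fun a b => G.coeff a * H.coeff b)]
  refine (f.sum_le _ _).trans ?_
  have h1 : ∀ i ∈ range ((j : ℕ) + 1), f (G.coeff i * H.coeff ((j : ℕ) - i)) ≤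
      nrm f (cf r G) * nrm f (cf r H) := by
    intro i hi
    rw [mem_range] at hi
    have hj2 := j.2
    rw [map_mul]
    refine mul_le_mul (le_nrm f (cf r G) ⟨i, by omega⟩) (le_nrm f (cf r H) ⟨(j : ℕ) - i, by omega⟩)
      (f.nonneg _) (nrm_nonneg _ _)
  refine (sum_le_sum h1).trans ?_
  rw [sum_const, card_range, nsmul_eq_mul]
  refine mul_le_mul_of_nonneg_right ?_ (mul_nonneg (nrm_nonneg _ _) (nrm_nonneg _ _))
  have hj2 := j.2
  have : (j : ℕ) + 1 ≤ r + 1 := by omega
  exact_mod_cast this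

/-- values are bounded by the coefficients -/
lemma eval_le_nrm (f : AbsoluteValue K ℝ) {r : ℕ} {p : K[X]} (hp : p.natDegree ≤ r) (b : K) :
    f (p.eval b) ≤ (∑ j ∈ range (r + 1), f b ^ j) * nrm f (cf r p) := by
  rw [eval_eq_sum_range' (n := r + 1) (by omega), sum_mul]
  refine (f.sum_le _ _).trans (sum_le_sum fun j hj => ?_)
  rw [map_mul, map_pow, mul_comm]
  exact mul_le_mul_of_nonneg_left (le_nrm f (cf r p) ⟨j, mem_range.1 hj⟩)
    (pow_nonneg (f.nonneg _) _)

end

variable {K : Type} [Field K] [NumberField K]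

lemma nrm_mul_fin (v : HeightOneSpectrum (𝓞 K)) {r : ℕ} {G H : K[X]} (hG : G.natDegree ≤ r)
    (hH : H.natDegree ≤ r) (hGH : (G * H).natDegree ≤ r) :
    nrm (fv v) (cf r G) * nrm (fv v) (cf r H) = nrm (fv v) (cf r (G * H)) := by
  have hna : IsNonarchimedean (fv v) := FinitePlace.add_le (FinitePlace.mk v)
  rw [← gauss_eq _ hG, ← gauss_eq _ hH, ← gauss_eq _ hGH, gaussNorm_mul hna one_pos]

lemma nrm_mul_inf (v : InfinitePlace K) {r : ℕ} {G H : K[X]} (hG : G.natDegree ≤ r)
    (hH : H.natDegree ≤ r) (hGH : (G * H).natDegree ≤ r) :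
    nrm v.1 (cf r G) * nrm v.1 (cf r H) ≤ (4 ^ r * (r + 1)) * nrm v.1 (cf r (G * H)) := by
  have hv : ∀ x : K, v.1 x = ‖v.embedding x‖ := fun x => (InfinitePlace.norm_embedding_eq v x).symm
  have h1 : ∀ P : K[X], P.natDegree ≤ r →
      nrm v.1 (cf r P) ≤ 2 ^ r * (P.map v.embedding).mahlerMeasure := by
    intro P hP
    obtain ⟨j, hj⟩ := exists_nrm v.1 (Nat.succ_pos r) (cf r P)
    rw [← hj, cf_apply, hv, ← coeff_map]
    refine (norm_coeff_le_choose_mul_mahlerMeasure _ _).trans ?_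
    refine mul_le_mul_of_nonneg_right ?_ (mahlerMeasure_nonneg _)
    have h2 : (P.map v.embedding).natDegree ≤ r := natDegree_map_le.trans hP
    have h3 := Nat.choose_le_two_pow (P.map v.embedding).natDegree (j : ℕ)
    have h4 : (2 : ℕ) ^ (P.map v.embedding).natDegree ≤ 2 ^ r := Nat.pow_le_pow_right (by norm_num) h2
    exact_mod_cast h3.trans h4
  have h2 : ∀ P : K[X], P.natDegree ≤ r →
      (P.map v.embedding).mahlerMeasure ≤ (r + 1) * nrm v.1 (cf r P) := by
    intro P hP
    refine (mahlerMeasure_le_sum_norm_coeff _).trans ?_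
    have h3 : (P.map v.embedding).natDegree ≤ r := natDegree_map_le.trans hP
    rw [sum_over_range' _ (fun n => norm_zero) (r + 1) (by omega)]
    have h4 : ∀ j ∈ range (r + 1), ‖(P.map v.embedding).coeff j‖ ≤ nrm v.1 (cf r P) := by
      intro j hj
      rw [coeff_map, ← hv]
      exact le_nrm v.1 (cf r P) ⟨j, mem_range.1 hj⟩
    refine (sum_le_sum h4).trans ?_
    rw [sum_const, card_range, nsmul_eq_mul]
    push_cast
    exact le_rfl
  have h3 := mul_le_mul (h1 G hG) (h1 H hH) (nrm_nonneg _ _)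
    (mul_nonneg (by positivity) (mahlerMeasure_nonneg _))
  refine h3.trans ?_
  have h4 := h2 (G * H) hGH
  rw [Polynomial.map_mul, mahlerMeasure_mul] at h4
  calc _ = 4 ^ r * ((G.map v.embedding).mahlerMeasure * (H.map v.embedding).mahlerMeasure) := by
        have : (4 : ℝ) ^ r = 2 ^ r * 2 ^ r := by rw [← mul_pow]; norm_num
        rw [this]
        ring
    _ ≤ 4 ^ r * ((r + 1) * nrm v.1 (cf r (G * H))) := by gcongr
    _ = _ := by ring

/-- the height of a product -/
lemma height_mul (K : Type) [Field K] [NumberField K] (r : ℕ) : ∃ C : ℝ, 0 ≤ C ∧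
    ∀ G H : K[X], G ≠ 0 → H ≠ 0 → G.natDegree ≤ r →
    H.natDegree ≤ r → (G * H).natDegree ≤ r →
      logHeight (cf r G) + logHeight (cf r H) ≤ logHeight (cf r (G * H)) + C := by
  classical
  have hc : (1 : ℝ) ≤ 4 ^ r * (r + 1) := by
    have h1 : (1 : ℝ) ≤ 4 ^ r := one_le_pow₀ (by norm_num)
    have h2 : (0 : ℝ) ≤ r := Nat.cast_nonneg _
    nlinarith
  set c : Pl K → ℝ := Sum.elim (fun v => (v.mult : ℝ) * Real.log (4 ^ r * (r + 1))) (fun _ => 0)
    with hcdef
  have hc0 : ∀ v, 0 ≤ c v := by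
    rintro (v | v)
    · exact mul_nonneg (Nat.cast_nonneg _) (Real.log_nonneg hc)
    · exact le_rfl
  set Ti : Finset (Pl K) := univ.image Sum.inl with hTi
  refine ⟨∑ v ∈ Ti, c v, sum_nonneg fun v _ => hc0 v, ?_⟩
  intro G H hG0 hH0 hG hH hGH
  have hGH0 : G * H ≠ 0 := mul_ne_zero hG0 hH0
  obtain ⟨T1, hT1⟩ := ht_T (cf_ne hG0 hG)
  obtain ⟨T2, hT2⟩ := ht_T (cf_ne hH0 hH)
  obtain ⟨T3, hT3⟩ := ht_T (cf_ne hGH0 hGH)
  set T := T1 ∪ T2 ∪ T3 ∪ Ti with hT
  rw [hT1 T (by intro v hv; simp [hT, hv]), hT2 T (by intro v hv; simp [hT, hv]),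
    hT3 T (by intro v hv; simp [hT, hv])]
  have hsum : ∑ v ∈ Ti, c v = ∑ v ∈ T, c v := by
    refine sum_subset (by intro v hv; simp [hT, hv]) fun v _ hv => ?_
    rcases v with v | v
    · exact absurd (mem_image_of_mem _ (mem_univ v)) hv
    · rfl
  rw [hsum, ← sum_add_distrib, ← sum_add_distrib]
  refine sum_le_sum fun v _ => ?_
  have hpG := nrm_pos (av v) (cf_ne hG0 hG)
  have hpH := nrm_pos (av v) (cf_ne hH0 hH)
  have hpGH := nrm_pos (av v) (cf_ne hGH0 hGH)
  rw [← mul_add, ← Real.log_mul hpG.ne' hpH.ne']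
  rcases v with v | v
  · have h1 : nrm (av (Sum.inl v : Pl K)) (cf r G) * nrm (av (Sum.inl v : Pl K)) (cf r H) ≤
        (4 ^ r * (r + 1)) * nrm (av (Sum.inl v : Pl K)) (cf r (G * H)) :=
      nrm_mul_inf v hG hH hGH
    have h2 := Real.log_le_log (mul_pos hpG hpH) h1
    have hp' : (0 : ℝ) < 4 ^ r * (r + 1) := by linarith
    rw [Real.log_mul hp'.ne' hpGH.ne'] at h2
    have e : c (Sum.inl v) = wt (Sum.inl v : Pl K) * Real.log (4 ^ r * (r + 1)) := rfl
    rw [e, ← mul_add]
    refine mul_le_mul_of_nonneg_left ?_ (wt_nonneg _)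
    linarith
  · have h1 := nrm_mul_fin v hG hH hGH
    show (1 : ℝ) * Real.log (nrm (fv v) (cf r G) * nrm (fv v) (cf r H)) ≤
      1 * Real.log (nrm (fv v) (cf r (G * H))) + 0
    rw [h1, add_zero]

/-- the coefficients as linear functions of the values -/
lemma coeff_of_values {N : ℕ} (pt : Fin N → K) (hpt : Function.Injective pt) (r : ℕ)
    (hN : r < N) : ∃ A : Fin (r + 1) → Fin N → K, ∀ f : K[X], f.natDegree ≤ r →
      (fun j => ∑ i, A j i * f.eval (pt i)) = cf r f := by
  classical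
  set V : (Fin (r + 1) → K) →ₗ[K] (Fin N → K) :=
    { toFun := fun c i => ∑ j : Fin (r + 1), c j * pt i ^ (j : ℕ)
      map_add' := fun x y => by
        funext i
        simp [add_mul, sum_add_distrib]
      map_smul' := fun c x => by
        funext i
        simp only [Pi.smul_apply, smul_eq_mul, RingHom.id_apply]
        rw [mul_sum]
        exact sum_congr rfl fun j _ => by ring } with hV
  have hVf : ∀ f : K[X], f.natDegree ≤ r → V (cf r f) = fun i => f.eval (pt i) := by
    intro f hf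
    funext i
    rw [eval_eq_sum_range' (n := r + 1) (by omega), ← Fin.sum_univ_eq_sum_range
      (fun j => f.coeff j * pt i ^ j) (r + 1)]
    rfl
  have hinj : Function.Injective V := by
    rw [← LinearMap.ker_eq_bot, LinearMap.ker_eq_bot']
    intro c hc
    set f : K[X] := ∑ j : Fin (r + 1), C (c j) * X ^ (j : ℕ) with hf
    have hcf : ∀ k : Fin (r + 1), f.coeff k = c k := by
      intro k
      rw [hf, finsetSum_coeff, sum_eq_single k]
      · simp
      · intro b _ hb
        rw [coeff_C_mul, coeff_X_pow, if_neg (fun h => hb (Fin.ext h.symm)), mul_zero]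
      · simp
    have hfd : f.natDegree ≤ r := by
      refine natDegree_sum_le_of_forall_le _ _ fun j _ => ?_
      refine (natDegree_C_mul_X_pow_le _ _).trans ?_
      have := j.2
      omega
    have hcf' : cf r f = c := by
      funext k
      exact hcf k
    have h1 := hVf f hfd
    rw [hcf', hc] at h1
    have h2 : f = 0 := by
      refine Polynomial.eq_zero_of_natDegree_lt_card_of_eval_eq_zero' f (univ.image pt) ?_ ?_
      · intro x hx
        obtain ⟨i, _, rfl⟩ := mem_image.1 hx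
        exact (congrFun h1 i).symm
      · rw [card_image_of_injective _ hpt, card_univ, Fintype.card_fin]
        omega
    rw [← hcf', h2]
    rfl
  obtain ⟨g, hg⟩ := LinearMap.exists_leftInverse_of_injective V (LinearMap.ker_eq_bot.2 hinj)
  refine ⟨fun j i => g (Pi.single i 1) j, fun f hf => ?_⟩
  have h1 := LinearMap.congr_fun hg (cf r f)
  rw [LinearMap.comp_apply, hVf f hf] at h1
  have h2 : (fun i => f.eval (pt i)) = ∑ i, f.eval (pt i) • (Pi.single i (1 : K) : Fin N → K) := by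
    funext l
    simp [Finset.sum_apply, Pi.single_apply]
  rw [h2, map_sum] at h1
  have h3 : (LinearMap.id : (Fin (r + 1) → K) →ₗ[K] _) (cf r f) = cf r f := rfl
  rw [h3] at h1
  rw [← h1]
  funext j
  rw [Finset.sum_apply]
  refine sum_congr rfl fun i _ => ?_
  rw [map_smul, Pi.smul_apply, smul_eq_mul, mul_comm]

end Pool.Agent.H430.Ft
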