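import Pool.Agent.H430.Ft.Nrm
import Pool.Agent.H430.Ft.Core

/-!
The values of the norm form of a point, and its height.
-/

set_option autoImplicit false

namespace Pool.Agent.H430.Ft

open Finset NumberField IsDedekindDomain Height Module Polynomial
open Pool.Agent.W180.OP (Pl av wt fv nrm wt_nonneg le_nrm exists_nrm nrm_pos nrm_nonneg)
open Pool.Agent.NH28 (Ov nn ab mem_ab sum_nn one_le_nn nn_ext nn_nonneg exists_below ov_unique
  sum_split height_sum prod_formula fab mem_fab nrm_support ab_nonempty card_ab_le fv_sum_le)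
open Pool.Agent.H430.Cl
open Pool.Agent.H430.Gw (bad_mat ht_T)

variable {K : Type} [Field K] [NumberField K]

lemma nn_le {L : Type} [Field L] [NumberField L] [Algebra K L] {v : Pl K} {w : Pl L}
    (hw : w ∈ ab L v) : nn v w ≤ finrank K L := by
  rw [← sum_nn L v]
  exact single_le_sum (f := fun w => nn v w) (fun w _ => nn_nonneg v w) hw

lemma pos_le {L : Type} [Field L] [NumberField L] [Algebra K L] {v : Pl K} {w : Pl L}
    (hw : w ∈ ab L v) (c : K) : wt w * max 0 (Real.log (av w (algebraMap K L c))) ≤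
      finrank K L * (wt v * max 0 (Real.log (av v c))) := by
  rw [pos_ext (mem_ab.1 hw)]
  exact mul_le_mul_of_nonneg_right (nn_le hw) (mul_nonneg (wt_nonneg v) (le_max_left _ _))

/-- upper bounds for the values -/
lemma lf_upper {N : ℕ} (pt : Fin N → K) (n r : ℕ) : ∃ (c : Pl K → ℝ) (Tb : Finset (Pl K)),
    (∀ v, 0 ≤ c v) ∧ (∀ v, v ∉ Tb → c v = 0) ∧
    ∀ (L : Type) [Field L] [NumberField L] [Algebra K L], finrank K L = r →
      ∀ x : Fin (n + 1) → L, x ≠ 0 → ∀ j, lf x (pt j) ≠ 0 → ∀ v, ∀ w ∈ ab L v,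
        wt w * Real.log (av w (lf x (pt j))) ≤ wt w * Real.log (nrm (av w) x) + c v := by
  classical
  obtain ⟨Tb, hTb⟩ := bad_mat fun (j : Fin N) (k : Fin (n + 1)) => pt j ^ (k : ℕ)
  set P : Pl K → ℝ := fun v => ∑ j : Fin N, ∑ k : Fin (n + 1),
    wt v * max 0 (Real.log (av v (pt j ^ (k : ℕ)))) with hP
  have hP0 : ∀ v, 0 ≤ P v := fun v => sum_nonneg fun j _ => sum_nonneg fun k _ =>
    mul_nonneg (wt_nonneg v) (le_max_left _ _)
  have hlog : 0 ≤ Real.log (1 + ((n + 1 : ℕ) : ℝ)) := Real.log_nonneg (by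
    have : (0 : ℝ) ≤ ((n + 1 : ℕ) : ℝ) := Nat.cast_nonneg _
    linarith)
  refine ⟨fun v => if v ∈ Tb then 2 * Real.log (1 + ((n + 1 : ℕ) : ℝ)) + r * P v else 0, Tb,
    fun v => ?_, fun v hv => if_neg hv, ?_⟩
  · show 0 ≤ if v ∈ Tb then _ else _
    split_ifs
    · have := hP0 v
      positivity
    · exact le_rfl
  intro L _ _ _ hr x hx j hj v w hw
  have hnp : 0 < nrm (av w) x := nrm_pos _ hx
  have hwt : 0 < wt w := wt_pos w
  beta_reduce
  by_cases hv : v ∈ Tb
  · rw [if_pos hv]
    have h1 : av w (lf x (pt j)) ≤ nrm (av w) x *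
        (1 + ∑ k : Fin (n + 1), av w (algebraMap K L (pt j ^ (k : ℕ)))) := by
      unfold lf
      refine ((av w).sum_le _ _).trans ?_
      have h2 : ∑ k : Fin (n + 1), av w (x k * algebraMap K L (pt j ^ (k : ℕ))) ≤
          ∑ k : Fin (n + 1), nrm (av w) x * av w (algebraMap K L (pt j ^ (k : ℕ))) := by
        refine sum_le_sum fun k _ => ?_
        rw [map_mul]
        exact mul_le_mul_of_nonneg_right (le_nrm _ _ _) ((av w).nonneg _)
      refine h2.trans ?_
      rw [← mul_sum]
      refine mul_le_mul_of_nonneg_left ?_ hnp.le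
      linarith
    have h2 := Real.log_le_log ((av w).pos_iff.2 hj) h1
    have h3 : (0 : ℝ) < 1 + ∑ k : Fin (n + 1), av w (algebraMap K L (pt j ^ (k : ℕ))) := by
      have : 0 ≤ ∑ k : Fin (n + 1), av w (algebraMap K L (pt j ^ (k : ℕ))) :=
        sum_nonneg fun k _ => (av w).nonneg _
      linarith
    rw [Real.log_mul hnp.ne' h3.ne'] at h2
    have h4 := log_le_of (n := n + 1) (fun k => av w (algebraMap K L (pt j ^ (k : ℕ))))
      (fun k => (av w).nonneg _) h3 le_rfl
    have h5 : wt w * (∑ k : Fin (n + 1), max 0 (Real.log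
        (av w (algebraMap K L (pt j ^ (k : ℕ)))))) ≤ r * P v := by
      rw [mul_sum]
      have h6 : ∀ k ∈ (univ : Finset (Fin (n + 1))),
          wt w * max 0 (Real.log (av w (algebraMap K L (pt j ^ (k : ℕ))))) ≤
          r * (wt v * max 0 (Real.log (av v (pt j ^ (k : ℕ))))) := by
        intro k _
        have := pos_le hw (pt j ^ (k : ℕ))
        rw [hr] at this
        exact this
      refine (sum_le_sum h6).trans ?_
      rw [← mul_sum]
      refine mul_le_mul_of_nonneg_left ?_ (Nat.cast_nonneg _)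
      exact single_le_sum (f := fun j => ∑ k : Fin (n + 1),
        wt v * max 0 (Real.log (av v (pt j ^ (k : ℕ))))) (fun j _ => sum_nonneg fun k _ =>
        mul_nonneg (wt_nonneg v) (le_max_left _ _)) (mem_univ j)
    have h7 : wt w * Real.log (1 + ((n + 1 : ℕ) : ℝ)) ≤ 2 * Real.log (1 + ((n + 1 : ℕ) : ℝ)) :=
      mul_le_mul_of_nonneg_right (wt_le_two w) hlog
    have h8 := mul_le_mul_of_nonneg_left (h2.trans (add_le_add_right h4 _)) hwt.le
    rw [mul_add, mul_add] at h8
    linarith
  · rw [if_neg hv, add_zero]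
    obtain ⟨v0, rfl, hv0⟩ := hTb v hv
    cases w with
    | inl w => exact (mem_ab.1 hw).elim
    | inr w =>
      refine mul_le_mul_of_nonneg_left (Real.log_le_log ((av _).pos_iff.2 hj) ?_) hwt.le
      unfold lf
      refine fv_sum_le w univ _ _ hnp.le fun k _ => ?_
      rw [map_mul]
      have h1 : fv w (algebraMap K L (pt j ^ (k : ℕ))) ≤ 1 := by
        have h2 : fv v0 (pt j ^ (k : ℕ)) ≤ 1 := hv0 j k
        have h3 := Pool.Agent.NH28.fv_ext v0 w (mem_ab.1 hw) (pt j ^ (k : ℕ))
        rw [h3]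
        exact pow_le_one₀ ((fv v0).nonneg _) h2
      calc fv w (x k) * fv w (algebraMap K L (pt j ^ (k : ℕ)))
          ≤ fv w (x k) * 1 := mul_le_mul_of_nonneg_left h1 ((fv w).nonneg _)
        _ = fv w (x k) := mul_one _
        _ ≤ _ := le_nrm (fv w) x k

/-- lower bounds for the values -/
lemma lf_lower {N : ℕ} (pt : Fin N → K) (hpt : Function.Injective pt) (n r : ℕ) (v : Pl K) :
    ∃ C : ℝ, 0 ≤ C ∧
    ∀ (L : Type) [Field L] [NumberField L] [Algebra K L], finrank K L = r →
      ∀ x : Fin (n + 1) → L, x ≠ 0 → ∃ B : Finset (Fin N), B.card ≤ n * r ∧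
        ∀ j, j ∉ B → lf x (pt j) ≠ 0 ∧ ∀ w ∈ ab L v,
          wt w * Real.log (nrm (av w) x) ≤ wt w * Real.log (av w (lf x (pt j))) + C := by
  classical
  set Λ : (Fin (n + 1) ↪ Fin N) → Matrix (Fin (n + 1)) (Fin (n + 1)) K := fun e =>
    (Matrix.vandermonde fun i => pt (e i))⁻¹ with hΛ
  have hΛx : ∀ (L : Type) [Field L] [NumberField L] [Algebra K L] (x : Fin (n + 1) → L)
      (e : Fin (n + 1) ↪ Fin N) (k : Fin (n + 1)),
      x k = ∑ i, algebraMap K L (Λ e k i) * lf x (pt (e i)) := by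
    intro L _ _ _ x e k
    have hdet : IsUnit (Matrix.vandermonde fun i => pt (e i)).det := by
      rw [isUnit_iff_ne_zero, Matrix.det_vandermonde_ne_zero_iff]
      exact hpt.comp e.injective
    have h1 := Matrix.nonsing_inv_mul _ hdet
    have h2 : ∀ k' : Fin (n + 1), ∑ i, algebraMap K L (Λ e k i * pt (e i) ^ (k' : ℕ)) =
        if k = k' then 1 else 0 := by
      intro k'
      have h3 := congrFun (congrFun h1 k) k'
      rw [Matrix.mul_apply, Matrix.one_apply] at h3
      rw [← map_sum]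
      have h4 : ∑ i, Λ e k i * pt (e i) ^ (k' : ℕ) = if k = k' then 1 else 0 := by
        rw [← h3]
        exact sum_congr rfl fun i _ => by rw [Matrix.vandermonde_apply]
      rw [h4]
      split_ifs <;> simp
    unfold lf
    simp_rw [mul_sum]
    rw [sum_comm]
    have h5 : ∀ k' : Fin (n + 1), ∑ i, algebraMap K L (Λ e k i) *
        (x k' * algebraMap K L (pt (e i) ^ (k' : ℕ))) = x k' * if k = k' then 1 else 0 := by
      intro k'
      rw [← h2 k', mul_sum]
      refine sum_congr rfl fun i _ => ?_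
      rw [map_mul]
      ring
    rw [sum_congr rfl fun k' _ => h5 k']
    simp
  set P : ℝ := ∑ e : Fin (n + 1) ↪ Fin N, ∑ k : Fin (n + 1), ∑ i : Fin (n + 1),
    wt v * max 0 (Real.log (av v (Λ e k i))) with hP
  have hP0 : 0 ≤ P := sum_nonneg fun e _ => sum_nonneg fun k _ => sum_nonneg fun i _ =>
    mul_nonneg (wt_nonneg v) (le_max_left _ _)
  have hPe : ∀ e k, ∑ i : Fin (n + 1), wt v * max 0 (Real.log (av v (Λ e k i))) ≤ P := by
    intro e k
    have h1 := single_le_sum (f := fun k => ∑ i : Fin (n + 1),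
      wt v * max 0 (Real.log (av v (Λ e k i)))) (fun k _ => sum_nonneg fun i _ =>
      mul_nonneg (wt_nonneg v) (le_max_left _ _)) (mem_univ k)
    have h2 := single_le_sum (f := fun e => ∑ k : Fin (n + 1), ∑ i : Fin (n + 1),
      wt v * max 0 (Real.log (av v (Λ e k i)))) (fun e _ => sum_nonneg fun k _ =>
      sum_nonneg fun i _ => mul_nonneg (wt_nonneg v) (le_max_left _ _)) (mem_univ e)
    exact h1.trans h2
  have hlog : 0 ≤ Real.log (1 + ((n + 1 : ℕ) : ℝ)) := Real.log_nonneg (by
    have : (0 : ℝ) ≤ ((n + 1 : ℕ) : ℝ) := Nat.cast_nonneg _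
    linarith)
  set C : ℝ := 2 * Real.log (1 + ((n + 1 : ℕ) : ℝ)) + r * P + 1 with hC
  refine ⟨C, by positivity, ?_⟩
  intro L _ _ _ hr x hx
  set bad : Pl L → Finset (Fin N) := fun w => univ.filter fun j => lf x (pt j) = 0 ∨
    wt w * Real.log (av w (lf x (pt j))) + C < wt w * Real.log (nrm (av w) x) with hbad
  have hcard : ∀ w ∈ ab L v, (bad w).card ≤ n := by
    intro w hw
    by_contra hc
    push Not at hc
    obtain ⟨s, hs, hsc⟩ := exists_subset_card_eq (Nat.succ_le_of_lt hc)
    set e : Fin (n + 1) ↪ Fin N := (s.orderEmbOfFin hsc).toEmbedding with he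
    have hes : ∀ i, e i ∈ bad w := fun i => hs (orderEmbOfFin_mem s hsc i)
    have hnp : 0 < nrm (av w) x := nrm_pos _ hx
    have hwt : 0 < wt w := wt_pos w
    obtain ⟨k, hk⟩ := exists_nrm (av w) (Nat.succ_pos n) x
    have h1 : ∀ i, av w (lf x (pt (e i))) ≤ nrm (av w) x * Real.exp (-(C / wt w)) := by
      intro i
      have h2 := (mem_filter.1 (hes i)).2
      rcases h2 with h2 | h2
      · rw [h2, map_zero]
        positivity
      · by_cases h0 : lf x (pt (e i)) = 0
        · rw [h0, map_zero]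
          positivity
        · rw [← Real.exp_log ((av w).pos_iff.2 h0)]
          conv_rhs => rw [← Real.exp_log hnp]
          rw [← Real.exp_add]
          refine Real.exp_le_exp.2 ?_
          have h3 : Real.log (av w (lf x (pt (e i)))) + C / wt w ≤ Real.log (nrm (av w) x) := by
            have h4 : wt w * (Real.log (av w (lf x (pt (e i)))) + C / wt w) ≤
                wt w * Real.log (nrm (av w) x) := by
              rw [mul_add, mul_div_cancel₀ _ hwt.ne']
              exact h2.le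
            exact le_of_mul_le_mul_left h4 hwt
          linarith
    have h2 : nrm (av w) x ≤ (nrm (av w) x * Real.exp (-(C / wt w))) *
        (∑ i, av w (algebraMap K L (Λ e k i))) := by
      rw [← hk]
      conv_lhs => rw [hΛx L x e k]
      rw [hk]
      refine ((av w).sum_le _ _).trans ?_
      rw [mul_sum]
      refine sum_le_sum fun i _ => ?_
      rw [map_mul, mul_comm]
      exact mul_le_mul_of_nonneg_right (h1 i) ((av w).nonneg _)
    have h3 : Real.exp (C / wt w) ≤ 1 + ∑ i, av w (algebraMap K L (Λ e k i)) := by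
      have h4 : 1 ≤ Real.exp (-(C / wt w)) * (∑ i, av w (algebraMap K L (Λ e k i))) := by
        rw [mul_assoc] at h2
        have h5 : nrm (av w) x * 1 ≤ nrm (av w) x * (Real.exp (-(C / wt w)) *
          (∑ i, av w (algebraMap K L (Λ e k i)))) := by rw [mul_one]; exact h2
        exact le_of_mul_le_mul_left h5 hnp
      have h5 := mul_le_mul_of_nonneg_left h4 (Real.exp_pos (C / wt w)).le
      rw [mul_one, ← mul_assoc, ← Real.exp_add, add_neg_cancel, Real.exp_zero, one_mul] at h5
      linarith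
    have h4 := log_le_of (n := n + 1) (fun i => av w (algebraMap K L (Λ e k i)))
      (fun i => (av w).nonneg _) (Real.exp_pos _) h3
    rw [Real.log_exp] at h4
    have h5 := mul_le_mul_of_nonneg_left h4 hwt.le
    rw [mul_div_cancel₀ _ hwt.ne', mul_add, mul_sum] at h5
    have h6 : ∑ i, wt w * max 0 (Real.log (av w (algebraMap K L (Λ e k i)))) ≤ r * P := by
      have h7 : ∀ i ∈ (univ : Finset (Fin (n + 1))),
          wt w * max 0 (Real.log (av w (algebraMap K L (Λ e k i)))) ≤
          r * (wt v * max 0 (Real.log (av v (Λ e k i)))) := by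
        intro i _
        have := pos_le hw (Λ e k i)
        rw [hr] at this
        exact this
      refine (sum_le_sum h7).trans ?_
      rw [← mul_sum]
      exact mul_le_mul_of_nonneg_left (hPe e k) (Nat.cast_nonneg _)
    have h7 : wt w * Real.log (1 + ((n + 1 : ℕ) : ℝ)) ≤ 2 * Real.log (1 + ((n + 1 : ℕ) : ℝ)) :=
      mul_le_mul_of_nonneg_right (wt_le_two w) hlog
    rw [hC] at h5
    linarith
  refine ⟨(ab L v).biUnion bad, ?_, ?_⟩
  · refine card_biUnion_le.trans ?_
    refine (sum_le_card_nsmul _ _ n hcard).trans ?_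
    rw [smul_eq_mul, mul_comm]
    refine Nat.mul_le_mul_left n ?_
    rw [← hr]
    exact card_ab_le L v
  · intro j hj
    have h1 : ∀ w ∈ ab L v, ¬(lf x (pt j) = 0 ∨ wt w * Real.log (av w (lf x (pt j))) + C <
        wt w * Real.log (nrm (av w) x)) := by
      intro w hw h
      exact hj (mem_biUnion.2 ⟨w, hw, mem_filter.2 ⟨mem_univ _, h⟩⟩)
    obtain ⟨w0, hw0⟩ := ab_nonempty L v
    refine ⟨fun h => h1 w0 hw0 (Or.inl h), fun w hw => ?_⟩
    by_contra hc
    push Not at hc
    exact h1 w hw (Or.inr hc)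

/-- the vector of the norms -/
noncomputable def nv {L : Type} [Field L] [Algebra K L] {N n : ℕ} (pt : Fin N → K)
    (x : Fin (n + 1) → L) : Fin N → K := fun j => Algebra.norm K (lf x (pt j))

lemma norm_ne {L : Type} [Field L] [NumberField L] [Algebra K L] {y : L} :
    Algebra.norm K y ≠ 0 ↔ y ≠ 0 := by
  have : FiniteDimensional K L := Module.Finite.of_restrictScalars_finite ℚ K L
  exact Algebra.norm_ne_zero_iff

/-- the height as a sum over places of `K` -/
lemma height_pl' {L : Type} [Field L] [NumberField L] [Algebra K L] {n : ℕ} {x : Fin n → L}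
    (hx : x ≠ 0) : ∃ T0 : Finset (Pl K), ∀ T, T0 ⊆ T →
      ∑ v ∈ T, ∑ w ∈ ab L v, wt w * Real.log (nrm (av w) x) = logHeight x := by
  classical
  choose bel hbel using fun u : Pl L => exists_below (K := K) u
  set F := (nrm_support hx).toFinset with hF
  have hmem : ∀ v, v ∈ F ↔ nrm (fv v) x ≠ 1 := by
    intro v
    rw [hF, Set.Finite.mem_toFinset, Set.mem_ofPred_eq]
  refine ⟨univ.image Sum.inl ∪ F.image (fun w => bel (Sum.inr w)), fun T hT => ?_⟩
  have hinf : ∀ v : InfinitePlace K, (Sum.inl v : Pl K) ∈ T := fun v =>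
    hT (mem_union_left _ (mem_image_of_mem _ (mem_univ v)))
  have h1 := height_sum hx (fab L T) (fun w hw => by
    rw [mem_fab]
    exact ⟨bel (Sum.inr w), hT (mem_union_right _
      (mem_image_of_mem (fun w => bel (Sum.inr w)) ((hmem w).2 hw))), hbel _⟩)
  rw [sum_split T hinf, h1]
  congr 1
  refine sum_congr rfl fun w _ => ?_
  exact one_mul _

/-- the height of the vector of the norms -/
lemma nv_height {N : ℕ} (pt : Fin N → K) (n r : ℕ) : ∃ C : ℝ, 0 ≤ C ∧
    ∀ (L : Type) [Field L] [NumberField L] [Algebra K L], finrank K L = r →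
      ∀ x : Fin (n + 1) → L, x ≠ 0 → nv pt x ≠ 0 → logHeight (nv pt x) ≤ logHeight x + C := by
  classical
  obtain ⟨c, Tb, hc0, hcT, hc⟩ := lf_upper pt n r
  refine ⟨∑ v ∈ Tb, r * c v, sum_nonneg fun v _ => mul_nonneg (Nat.cast_nonneg _) (hc0 v), ?_⟩
  intro L _ _ _ hr x hx hF
  obtain ⟨T1, hT1⟩ := ht_T hF
  obtain ⟨T2, hT2⟩ := height_pl' (K := K) hx
  set T := T1 ∪ T2 ∪ Tb with hT
  rw [hT1 T (by intro v hv; simp [hT, hv]), ← hT2 T (by intro v hv; simp [hT, hv])]
  have hN : 0 < N := by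
    rcases Nat.eq_zero_or_pos N with h | h
    · subst h
      exact absurd (Subsingleton.elim _ _) hF
    · exact h
  have h1 : ∀ v ∈ T, wt v * Real.log (nrm (av v) (nv pt x)) ≤
      ∑ w ∈ ab L v, wt w * Real.log (nrm (av w) x) + r * c v := by
    intro v _
    obtain ⟨j, hj⟩ := exists_nrm (av v) hN (nv pt x)
    have hj0 : nv pt x j ≠ 0 := by
      intro h
      have := nrm_pos (av v) hF
      rw [← hj, h, map_zero] at this
      exact lt_irrefl _ this
    have hl0 : lf x (pt j) ≠ 0 := norm_ne.1 hj0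
    rw [← hj]
    show wt v * Real.log (av v (Algebra.norm K (lf x (pt j)))) ≤ _
    rw [norm_pl v hl0]
    have h2 := sum_le_sum fun w (hw : w ∈ ab L v) => hc L hr x hx j hl0 v w hw
    rw [sum_add_distrib, sum_const, nsmul_eq_mul] at h2
    refine h2.trans ?_
    have h3 : ((ab L v).card : ℝ) * c v ≤ r * c v := by
      refine mul_le_mul_of_nonneg_right ?_ (hc0 v)
      rw [← hr]
      exact_mod_cast card_ab_le L v
    linarith
  refine (sum_le_sum h1).trans ?_
  rw [sum_add_distrib]
  have h2 : ∑ v ∈ T, r * c v = ∑ v ∈ Tb, r * c v := by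
    refine (sum_subset (by intro v hv; simp [hT, hv]) fun v _ hv => ?_).symm
    rw [hcT v hv, mul_zero]
  rw [h2]

/-- the lower bound of the norm of the vector -/
lemma nv_lower {N : ℕ} (pt : Fin N → K) (hpt : Function.Injective pt) (n r : ℕ)
    (hN : n * r < N) (v : Pl K) : ∃ C : ℝ, 0 ≤ C ∧
    ∀ (L : Type) [Field L] [NumberField L] [Algebra K L], finrank K L = r →
      ∀ x : Fin (n + 1) → L, x ≠ 0 →
        ∑ w ∈ ab L v, wt w * Real.log (nrm (av w) x) ≤
          wt v * Real.log (nrm (av v) (nv pt x)) + C ∧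
        ∃ B : Finset (Fin N), B.card ≤ n * r ∧ ∀ j, j ∉ B → nv pt x j ≠ 0 ∧
          ∑ w ∈ ab L v, wt w * Real.log (nrm (av w) x) ≤
            wt v * Real.log (av v (nv pt x j)) + C := by
  classical
  obtain ⟨C, hC0, hC⟩ := lf_lower pt hpt n r v
  refine ⟨r * C, by positivity, ?_⟩
  intro L _ _ _ hr x hx
  obtain ⟨B, hB, hBj⟩ := hC L hr x hx
  have h1 : ∀ j, j ∉ B → nv pt x j ≠ 0 ∧ ∑ w ∈ ab L v, wt w * Real.log (nrm (av w) x) ≤
      wt v * Real.log (av v (nv pt x j)) + r * C := by
    intro j hj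
    obtain ⟨h2, h3⟩ := hBj j hj
    refine ⟨norm_ne.2 h2, ?_⟩
    show _ ≤ wt v * Real.log (av v (Algebra.norm K (lf x (pt j)))) + r * C
    rw [norm_pl v h2]
    refine (sum_le_sum h3).trans ?_
    rw [sum_add_distrib, sum_const, nsmul_eq_mul]
    have h4 : ((ab L v).card : ℝ) * C ≤ r * C := by
      refine mul_le_mul_of_nonneg_right ?_ hC0
      rw [← hr]
      exact_mod_cast card_ab_le L v
    linarith
  refine ⟨?_, B, hB, h1⟩
  obtain ⟨j, hj⟩ : ∃ j, j ∉ B := by
    by_contra hc
    push Not at hc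
    have h2 : (univ : Finset (Fin N)).card ≤ B.card := card_le_card fun j _ => hc j
    rw [card_univ, Fintype.card_fin] at h2
    omega
  obtain ⟨h2, h3⟩ := h1 j hj
  refine h3.trans ?_
  have h4 : wt v * Real.log (av v (nv pt x j)) ≤ wt v * Real.log (nrm (av v) (nv pt x)) :=
    mul_le_mul_of_nonneg_left (Real.log_le_log ((av v).pos_iff.2 h2) (le_nrm _ _ _)) (wt_nonneg v)
  linarith

end Pool.Agent.H430.Ft
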