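import Pool.Agent.H430.Ft.Up
import Pool.Agent.H430.Ft.Main
import Pool.Agent.H430.Gw.Sh1

/-!
Optimality: places, heights and polynomials.
-/

set_option autoImplicit false

namespace Pool.Agent.H430.Ft

open Finset NumberField IsDedekindDomain Height Module Polynomial
open Pool.Agent.W180.OP (Pl av wt fv nrm wt_nonneg le_nrm exists_nrm nrm_pos nrm_nonneg)
open Pool.Agent.NH28 (nn ab mem_ab height_sum prod_formula nrm_support)
open Pool.Agent.H430.Cl
open Pool.Agent.H430.Gw (ht_T proj_ht prox_lower height_upper)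

section

variable {K : Type} [Field K] [NumberField K]

lemma fv_int_le (v : HeightOneSpectrum (𝓞 K)) (z : ℤ) : fv v (z : K) ≤ 1 := by
  have hna : IsNonarchimedean ((FinitePlace.mk v) ·) := FinitePlace.add_le (FinitePlace.mk v)
  exact IsNonarchimedean.apply_intCast_le_one hna

lemma fv_nat_le (v : HeightOneSpectrum (𝓞 K)) (z : ℕ) : fv v (z : K) ≤ 1 := by
  have := fv_int_le v z
  exact_mod_cast this

lemma fv_coprime (v : HeightOneSpectrum (𝓞 K)) (p q : ℕ) (h : Nat.Coprime p q)
    (hp : fv v (p : K) ≠ 1) : fv v (q : K) = 1 := by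
  refine le_antisymm (fv_nat_le v q) ?_
  have hp1 : fv v (p : K) < 1 := lt_of_le_of_ne (fv_nat_le v p) hp
  have h1 := Nat.gcd_eq_gcd_ab p q
  rw [h.gcd_eq_one] at h1
  have h2 : (1 : K) = p * (p.gcdA q : ℤ) + q * (p.gcdB q : ℤ) := by exact_mod_cast congrArg (Int.cast : ℤ → K) h1
  have h3 : fv v (1 : K) ≤ max (fv v (p * (p.gcdA q : ℤ) : K)) (fv v (q * (p.gcdB q : ℤ) : K)) := by
    rw [h2]
    exact FinitePlace.add_le (FinitePlace.mk v) _ _
  rw [map_one, map_mul, map_mul] at h3
  have h4 : fv v (p : K) * fv v ((p.gcdA q : ℤ) : K) < 1 :=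
    lt_of_le_of_lt (mul_le_of_le_one_right ((fv v).nonneg _) (fv_int_le v _)) hp1
  have h5 : fv v (q : K) * fv v ((p.gcdB q : ℤ) : K) ≤ fv v (q : K) :=
    mul_le_of_le_one_right ((fv v).nonneg _) (fv_int_le v _)
  rcases le_max_iff.1 h3 with h | h
  · linarith
  · exact h.trans h5

lemma inf_nat (v : InfinitePlace K) (m : ℕ) : v.1 (m : K) = m := by
  have h := InfinitePlace.norm_embedding_eq v (m : K)
  rw [map_natCast, Complex.norm_natCast] at h
  exact h.symm

lemma sum_mult : ∑ v : InfinitePlace K, (v.mult : ℝ) = finrank ℚ K := by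
  exact_mod_cast InfinitePlace.sum_mult_eq (K := K)

variable (K) in
/-- the places above a natural number -/
lemma exists_places (m : ℕ) (hm : m ≠ 0) : ∃ T : Finset (HeightOneSpectrum (𝓞 K)),
    (∀ v ∈ T, fv v (m : K) ≠ 1) ∧
      ∑ v ∈ T, Real.log (fv v (m : K)) = -(finrank ℚ K * Real.log m) := by
  classical
  have hd : (m : K) ≠ 0 := by exact_mod_cast hm
  have hx : (![(m : K)] : Fin 1 → K) ≠ 0 := by
    intro h
    exact hd (congrFun h 0)
  have hnr : ∀ v : HeightOneSpectrum (𝓞 K), nrm (fv v) ![(m : K)] = fv v (m : K) := by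
    intro v
    obtain ⟨j, hj⟩ := exists_nrm (fv v) one_pos ![(m : K)]
    rw [← hj]
    fin_cases j
    rfl
  set F := (nrm_support hx).toFinset with hF
  have hmem : ∀ v, v ∈ F ↔ fv v (m : K) ≠ 1 := by
    intro v
    rw [hF, Set.Finite.mem_toFinset, Set.mem_ofPred_eq, hnr]
  refine ⟨F, fun v hv => (hmem v).1 hv, ?_⟩
  have h1 := prod_formula hd F (fun v hv => (hmem v).2 hv)
  have h2 : ∑ v : InfinitePlace K, (v.mult : ℝ) * Real.log (v (m : K)) =
      finrank ℚ K * Real.log m := by
    have h3 : ∀ v : InfinitePlace K, v (m : K) = m := fun v => inf_nat v m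
    simp only [h3]
    rw [← sum_mul, sum_mult]
  rw [h2] at h1
  linarith

/-- the height of a vector of natural numbers -/
lemma height_nat {s : ℕ} (t : Fin s → ℕ) (ht : (fun k => (t k : K)) ≠ 0) (M : ℕ)
    (hM1 : 1 ≤ M) (hM : ∀ k, t k ≤ M) :
    logHeight (fun k => (t k : K)) ≤ finrank ℚ K * Real.log M := by
  classical
  have hs : 0 < s := by
    rcases Nat.eq_zero_or_pos s with h | h
    · subst h
      exact absurd (Subsingleton.elim _ _) ht
    · exact h
  set G := (nrm_support ht).toFinset with hG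
  have hmem : ∀ v, v ∈ G ↔ nrm (fv v) (fun k => (t k : K)) ≠ 1 := by
    intro v
    rw [hG, Set.Finite.mem_toFinset, Set.mem_ofPred_eq]
  rw [height_sum ht G (fun v hv => (hmem v).2 hv)]
  have h1 : ∑ v ∈ G, Real.log (nrm (fv v) (fun k => (t k : K))) ≤ 0 := by
    refine sum_nonpos fun v _ => ?_
    obtain ⟨j, hj⟩ := exists_nrm (fv v) hs (fun k => (t k : K))
    rw [← hj]
    exact Real.log_nonpos ((fv v).nonneg _) (fv_nat_le v _)
  have h2 : ∀ v : InfinitePlace K, Real.log (nrm v.1 (fun k => (t k : K))) ≤ Real.log M := by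
    intro v
    refine Real.log_le_log (nrm_pos _ ht) ?_
    obtain ⟨j, hj⟩ := exists_nrm v.1 hs (fun k => (t k : K))
    rw [← hj, inf_nat]
    exact_mod_cast hM j
  have h3 : ∑ v : InfinitePlace K, (v.mult : ℝ) * Real.log (nrm v.1 (fun k => (t k : K))) ≤
      ∑ v : InfinitePlace K, (v.mult : ℝ) * Real.log M :=
    sum_le_sum fun v _ => mul_le_mul_of_nonneg_left (h2 v) (Nat.cast_nonneg _)
  rw [← sum_mul, sum_mult] at h3
  linarith

end

section

variable {K : Type} [Field K] {q s : ℕ}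

/-- the polynomials which vanish on the other classes -/
noncomputable def bp (a : Fin q → K) (U V : Finset (Fin q)) : K[X] := ∏ i ∈ U \ V, (X - C (a i))

lemma bp_deg (a : Fin q → K) (U V : Finset (Fin q)) : (bp a U V).natDegree ≤ (U \ V).card := by
  unfold bp
  refine (natDegree_prod_le _ _).trans ?_
  refine (sum_le_card_nsmul _ _ 1 fun i _ => natDegree_X_sub_C_le _).trans ?_
  simp

lemma bp_eval (a : Fin q → K) (U V : Finset (Fin q)) (b : K) :
    (bp a U V).eval b = ∏ i ∈ U \ V, (b - a i) := by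
  unfold bp
  rw [eval_prod]
  exact prod_congr rfl fun i _ => by simp

lemma bp_zero (a : Fin q → K) {U V : Finset (Fin q)} {i : Fin q} (hi : i ∈ U) (hi' : i ∉ V) :
    (bp a U V).eval (a i) = 0 := by
  rw [bp_eval]
  exact prod_eq_zero (mem_sdiff.2 ⟨hi, hi'⟩) (sub_self _)

lemma bp_ne {a : Fin q → K} (ha : Function.Injective a) {U V : Finset (Fin q)} {i : Fin q}
    (hi : i ∈ V) : (bp a U V).eval (a i) ≠ 0 := by
  rw [bp_eval]
  refine prod_ne_zero_iff.2 fun j hj => sub_ne_zero.2 fun h => ?_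
  have := ha h
  subst this
  exact (mem_sdiff.1 hj).2 hi

/-- the polynomials -/
noncomputable def Fp (a : Fin q → K) (Cs : Fin s → Finset (Fin q)) (t : Fin s → ℕ) : K[X] :=
  ∑ k, C ((t k : K)) * bp a (univ.biUnion Cs) (Cs k)

lemma Fp_eval (a : Fin q → K) (Cs : Fin s → Finset (Fin q))
    (hdis : ∀ k k', k ≠ k' → Disjoint (Cs k) (Cs k')) (t : Fin s → ℕ) {k : Fin s} {i : Fin q}
    (hi : i ∈ Cs k) :
    (Fp a Cs t).eval (a i) = t k * (bp a (univ.biUnion Cs) (Cs k)).eval (a i) := by
  unfold Fp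
  rw [eval_finset_sum, sum_eq_single k]
  · rw [eval_mul, eval_C]
  · intro k' _ hk'
    rw [eval_mul, bp_zero a (mem_biUnion.2 ⟨k, mem_univ _, hi⟩)
      (fun h => disjoint_left.1 (hdis k' k hk') h hi), mul_zero]
  · intro h
    exact absurd (mem_univ _) h

lemma Fp_deg (a : Fin q → K) (Cs : Fin s → Finset (Fin q)) (t : Fin s → ℕ) (r : ℕ)
    (hr : ∀ k, (univ.biUnion Cs).card ≤ r + (Cs k).card) : (Fp a Cs t).natDegree ≤ r := by
  unfold Fp
  refine natDegree_sum_le_of_forall_le _ _ fun k _ => ?_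
  refine (natDegree_C_mul_le _ _).trans ((bp_deg a _ _).trans ?_)
  rw [card_sdiff_of_subset (subset_biUnion_of_mem Cs (mem_univ k))]
  have := hr k
  omega

lemma Fp_cf (a : Fin q → K) (Cs : Fin s → Finset (Fin q)) (t : Fin s → ℕ) (r : ℕ) :
    (fun j => ∑ k, (bp a (univ.biUnion Cs) (Cs k)).coeff (j : Fin (r + 1)) * (t k : K)) =
      cf r (Fp a Cs t) := by
  funext j
  rw [cf_apply]
  unfold Fp
  rw [finsetSum_coeff]
  refine sum_congr rfl fun k _ => ?_
  rw [coeff_C_mul, mul_comm]

/-- the sum of the proximities of a polynomial is homogeneous -/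
lemma log_smul (f : AbsoluteValue K ℝ) {r : ℕ} {G : K[X]} (hG : G ≠ 0) (hd : G.natDegree ≤ r)
    {c : K} (hc : c ≠ 0) {b : K} (hb : G.eval b ≠ 0) :
    Real.log (nrm f (cf r (C c * G))) - Real.log (f ((C c * G).eval b)) =
      Real.log (nrm f (cf r G)) - Real.log (f (G.eval b)) := by
  have h1 : nrm f (cf r (C c * G)) = f c * nrm f (cf r G) := by
    apply le_antisymm
    · obtain ⟨j, hj⟩ := exists_nrm f (Nat.succ_pos r) (cf r (C c * G))
      rw [← hj, cf_apply, coeff_C_mul, map_mul]
      exact mul_le_mul_of_nonneg_left (le_nrm f (cf r G) j) (f.nonneg _)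
    · obtain ⟨j, hj⟩ := exists_nrm f (Nat.succ_pos r) (cf r G)
      rw [← hj, cf_apply, ← map_mul, ← coeff_C_mul]
      exact le_nrm f (cf r (C c * G)) j
  have hcp : 0 < f c := f.pos_iff.2 hc
  rw [h1, eval_mul, eval_C, map_mul, Real.log_mul hcp.ne' (nrm_pos f (cf_ne hG hd)).ne',
    Real.log_mul hcp.ne' (f.pos_iff.2 hb).ne']
  ring

end

section

variable {K : Type} [Field K] [NumberField K] {q s : ℕ}

/-- the local estimate -/
lemma loc_est {a : Fin q → K} (ha : Function.Injective a) (Cs : Fin s → Finset (Fin q))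
    (hdis : ∀ k k', k ≠ k' → Disjoint (Cs k) (Cs k')) (r : ℕ)
    (hr : ∀ k, (univ.biUnion Cs).card ≤ r + (Cs k).card) (v : HeightOneSpectrum (𝓞 K))
    (t : Fin s → ℕ) (ht : ∀ k, t k ≠ 0) {k k' : Fin s} {i j : Fin q} (hi : i ∈ Cs k)
    (hj : j ∈ Cs k') (hv : fv v (t k' : K) = 1) :
    -Real.log (fv v (t k : K)) - (|Real.log (∑ l ∈ range (r + 1), fv v (a j) ^ l)| +
      |Real.log (fv v ((bp a (univ.biUnion Cs) (Cs k')).eval (a j)))| +
      |Real.log (fv v ((bp a (univ.biUnion Cs) (Cs k)).eval (a i)))|) ≤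
      Real.log (nrm (fv v) (cf r (Fp a Cs t))) - Real.log (fv v ((Fp a Cs t).eval (a i))) := by
  have hd := Fp_deg a Cs t r hr
  have h1 := eval_le_nrm (fv v) hd (a j)
  have ei := Fp_eval a Cs hdis t hi
  have ej := Fp_eval a Cs hdis t hj
  have hbi := bp_ne ha (U := univ.biUnion Cs) hi
  have hbj := bp_ne ha (U := univ.biUnion Cs) hj
  rw [ej, map_mul, hv, one_mul] at h1
  have htk : (t k : K) ≠ 0 := by exact_mod_cast ht k
  have hB : 0 < ∑ l ∈ range (r + 1), fv v (a j) ^ l := by
    refine lt_of_lt_of_le one_pos ?_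
    have := single_le_sum (f := fun l => fv v (a j) ^ l) (fun l _ => pow_nonneg ((fv v).nonneg _) l)
      (mem_range.2 (Nat.succ_pos r))
    simpa using this
  have hn : 0 < nrm (fv v) (cf r (Fp a Cs t)) := by
    refine nrm_pos _ (cf_ne ?_ hd)
    intro h
    rw [h, eval_zero] at ei
    exact (mul_ne_zero htk hbi) ei.symm
  have h2 := Real.log_le_log ((fv v).pos_iff.2 hbj) h1
  rw [Real.log_mul hB.ne' hn.ne'] at h2
  rw [ei, map_mul, Real.log_mul ((fv v).pos_iff.2 htk).ne' ((fv v).pos_iff.2 hbi).ne']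
  have h3 := le_abs_self (Real.log (∑ l ∈ range (r + 1), fv v (a j) ^ l))
  have h4 := neg_abs_le (Real.log (fv v ((bp a (univ.biUnion Cs) (Cs k')).eval (a j))))
  have h5 := le_abs_self (Real.log (fv v ((bp a (univ.biUnion Cs) (Cs k)).eval (a i))))
  linarith

/-- the number field of an irreducible polynomial -/
lemma exists_field (f : K[X]) (hirr : Irreducible f) :
    ∃ (L : Type) (_ : Field L) (_ : NumberField L) (_ : Algebra K L) (x : L),
      IntermediateField.adjoin K {x} = ⊤ ∧ finrank K L = f.natDegree ∧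
        minpoly K x = f * C f.leadingCoeff⁻¹ := by
  have hF : Fact (Irreducible f) := ⟨hirr⟩
  have hf0 : f ≠ 0 := hirr.ne_zero
  have h1 := IntermediateField.adjoin_root_eq_top f
  have h2 := (AdjoinRoot.powerBasis hf0).finrank
  rw [AdjoinRoot.powerBasis_dim] at h2
  have h3 := AdjoinRoot.minpoly_root hf0
  have hfin : FiniteDimensional K (AdjoinRoot f) := (AdjoinRoot.powerBasis hf0).finite
  have hnf : NumberField (AdjoinRoot f) := NumberField.of_module_finite K (AdjoinRoot f)
  exact ⟨AdjoinRoot f, inferInstance, hnf, inferInstance, AdjoinRoot.root f, h1, h2, h3⟩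

/-- the proximity of a point of the line -/
lemma prox_point {L : Type} [Field L] [NumberField L] [Algebra K L] (v : Pl K) (t : K) (x : L) :
    prox v t ![-x, 1] = ∑ w ∈ ab L v, nn v w * prx v w t x := by
  unfold prox
  refine sum_congr rfl fun w hw => ?_
  have h1 : nrm (av w) ![-x, 1] = max 1 (av w x) := by
    apply le_antisymm
    · obtain ⟨j, hj⟩ := exists_nrm (av w) two_pos ![-x, 1]
      rw [← hj]
      fin_cases j
      · show av w (-x) ≤ _
        rw [AbsoluteValue.map_neg]
        exact le_max_right _ _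
      · show av w 1 ≤ _
        rw [map_one]
        exact le_max_left _ _
    · refine max_le ?_ ?_
      · have := le_nrm (av w) ![-x, 1] 1
        have e : av w ((![-x, 1] : Fin 2 → L) 1) = 1 := by
          show av w 1 = 1
          exact map_one _
        rwa [e] at this
      · have := le_nrm (av w) ![-x, 1] 0
        have e : av w ((![-x, 1] : Fin 2 → L) 0) = av w x := by
          show av w (-x) = _
          exact AbsoluteValue.map_neg _ _
        rwa [e] at this
  have h2 : lf (n := 1) ![-x, 1] t = -(x - algebraMap K L t) := by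
    unfold lf
    rw [Fin.sum_univ_two]
    simp only [Matrix.cons_val_zero, Matrix.cons_val_one, Fin.val_zero, Fin.val_one, pow_zero,
      pow_one, map_one]
    ring
  have h3 : nn v w ≠ 0 := by
    have := Pool.Agent.NH28.one_le_nn (mem_ab.1 hw)
    linarith
  rw [h1, h2, AbsoluteValue.map_neg]
  unfold prx
  field_simp

lemma height_point {L : Type} [Field L] [NumberField L] (x : L) :
    logHeight ![-x, 1] = logHeight ![1, x] := by
  classical
  rw [logHeight_swap]
  obtain ⟨T1, _, h1⟩ := height_pl (K := L) (L := L) x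
  obtain ⟨T2, _, h2⟩ := height_pl (K := L) (L := L) (-x)
  rw [← h1 (T1 ∪ T2) subset_union_left, ← h2 (T1 ∪ T2) subset_union_right]
  refine sum_congr rfl fun v _ => sum_congr rfl fun w _ => ?_
  rw [AbsoluteValue.map_neg]

end

end Pool.Agent.H430.Ft
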