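import Pool.Agent.H430.Ft.Shp

/-!
Optimality: the theorem for a partition of the targets.
-/

set_option autoImplicit false

namespace Pool.Agent.H430.Ft

open Finset NumberField IsDedekindDomain Height Module Polynomial
open Pool.Agent.W180.OP (Pl av wt fv nrm wt_nonneg le_nrm exists_nrm nrm_pos nrm_nonneg)
open Pool.Agent.NH28 (nn ab mem_ab height_sum prod_formula nrm_support)
open Pool.Agent.H430.Cl
open Pool.Agent.H430.Gw (ht_T proj_ht prox_lower height_upper)

variable {K : Type} [Field K] [NumberField K] {q s : ℕ}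

/-- the sum of the proximities of a polynomial -/
noncomputable def Lam (a : Fin q → K) (r : ℕ) (S : Finset (Pl K)) (I : Pl K → Finset (Fin q))
    (f : K[X]) : ℝ :=
  ∑ v ∈ S, ∑ i ∈ I v, wt v * (Real.log (nrm (av v) (cf r f)) - Real.log (av v (f.eval (a i))))

lemma Lam_smul (a : Fin q → K) (r : ℕ) (S : Finset (Pl K)) (I : Pl K → Finset (Fin q))
    {G : K[X]} (hG : G ≠ 0) (hd : G.natDegree ≤ r) {c : K} (hc : c ≠ 0)
    (hI : ∀ v ∈ S, ∀ i ∈ I v, G.eval (a i) ≠ 0) : Lam a r S I (C c * G) = Lam a r S I G := by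
  unfold Lam
  refine sum_congr rfl fun v hv => sum_congr rfl fun i hi => ?_
  rw [log_smul (av v) hG hd hc (hI v hv i hi)]

lemma Lam_mul (a : Fin q → K) (r : ℕ) (S : Finset (Pl K)) (I : Pl K → Finset (Fin q))
    {G H : K[X]} (hG : G ≠ 0) (hdG : G.natDegree ≤ r) (hH : H ≠ 0) (hdH : H.natDegree ≤ r)
    (hd : (G * H).natDegree ≤ r)
    (hI : ∀ v ∈ S, ∀ i ∈ I v, G.eval (a i) ≠ 0 ∧ H.eval (a i) ≠ 0) :
    Lam a r S I (G * H) ≤ Lam a r S I G + Lam a r S I H +
      ∑ v ∈ S, ∑ _i ∈ I v, wt v * Real.log (r + 1) := by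
  unfold Lam
  rw [← sum_add_distrib, ← sum_add_distrib]
  refine sum_le_sum fun v hv => ?_
  rw [← sum_add_distrib, ← sum_add_distrib]
  refine sum_le_sum fun i hi => ?_
  obtain ⟨h1, h2⟩ := hI v hv i hi
  rw [← mul_add, ← mul_add]
  refine mul_le_mul_of_nonneg_left ?_ (wt_nonneg v)
  have hpG := nrm_pos (av v) (cf_ne hG hdG)
  have hpH := nrm_pos (av v) (cf_ne hH hdH)
  have hr : (0 : ℝ) < r + 1 := by positivity
  have h3 := Real.log_le_log (nrm_pos (av v) (cf_ne (mul_ne_zero hG hH) hd))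
    (nrm_mul_le (av v) (r := r) G H)
  rw [Real.log_mul hr.ne' (mul_pos hpG hpH).ne', Real.log_mul hpG.ne' hpH.ne'] at h3
  rw [eval_mul, map_mul, Real.log_mul ((av v).pos_iff.2 h1).ne' ((av v).pos_iff.2 h2).ne']
  linarith

/-- optimality for a partition of the targets -/
theorem sharp_core (a : Fin q → K) (ha : Function.Injective a) (r Nt : ℕ) (hr : 1 ≤ r)
    (Cs : Fin s → Finset (Fin q)) (hdis : ∀ k k', k ≠ k' → Disjoint (Cs k) (Cs k'))
    (hU : (univ.biUnion Cs).card = Nt) (hrN : ∀ k, Nt ≤ r + (Cs k).card)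
    (hs : 2 ≤ s) (hne : ∀ k, (Cs k).Nonempty)
    (hup : ∀ S0 : Finset (Pl K), ∃ C : ℝ, 0 ≤ C ∧ ∀ f : K[X], f ≠ 0 → f.natDegree ≤ r - 1 →
      (∀ i ∈ univ.biUnion Cs, f.eval (a i) ≠ 0) →
      ∀ I : Pl K → Finset (Fin q), (∀ v ∈ S0, ∃ k, I v ⊆ Cs k) →
      Lam a r S0 I f ≤ (Nt - 1 + 1 / 2) * logHeight (cf r f) + C) :
    ∃ (S0 : Finset (Pl K)) (I : Pl K → Finset (Fin q)), (∀ v, ∃ k, I v ⊆ Cs k) ∧
      ∀ c C : ℝ, c < Nt → ∃ (L : Type) (_ : Field L) (_ : NumberField L) (_ : Algebra K L) (x : L),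
        IntermediateField.adjoin K {x} = ⊤ ∧ finrank K L = r ∧
        (∀ i, x ≠ algebraMap K L (a i)) ∧
        c * logHeight ![1, x] + C < ∑ v ∈ S0, ∑ i ∈ I v, ∑ w ∈ ab L v, nn v w * prx v w (a i) x := by
  classical
  set U := univ.biUnion Cs with hUd
  have hrU : ∀ k, (univ.biUnion Cs).card ≤ r + (Cs k).card := fun k => by
    rw [← hUd, hU]
    exact hrN k
  -- primes
  set pr : Fin s → ℕ := fun k => Nat.nth Nat.Prime k with hpr
  have hprime : ∀ k, (pr k).Prime := fun k => Nat.prime_nth_prime _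
  have hprinj : Function.Injective pr := fun k k' h =>
    Fin.ext (Nat.nth_injective Nat.infinite_setOf_prime h)
  have hcop : ∀ k k', k ≠ k' → Nat.Coprime (pr k) (pr k') := fun k k' h =>
    (Nat.coprime_primes (hprime k) (hprime k')).2 fun h' => h (hprinj h')
  choose T hT1 hT2 using fun k => exists_places K (pr k) (hprime k).ne_zero
  have hTd : ∀ k k', k ≠ k' → Disjoint (T k) (T k') := by
    intro k k' h
    rw [disjoint_left]
    intro v hv hv'
    exact hT1 k' v hv' (fv_coprime v _ _ (hcop k k' h) (hT1 k v hv))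
  set Si : Fin s → Finset (Pl K) := fun k => (T k).map ⟨Sum.inr, Sum.inr_injective⟩ with hSi
  have hSid : ∀ k k', k ≠ k' → Disjoint (Si k) (Si k') := by
    intro k k' h
    exact (disjoint_map _).2 (hTd k k' h)
  set S0 : Finset (Pl K) := univ.biUnion Si with hS0
  have hk0 : Nonempty (Fin s) := ⟨⟨0, by omega⟩⟩
  set I : Pl K → Finset (Fin q) := fun v => univ.biUnion fun k => if v ∈ Si k then Cs k else ∅
    with hI
  have hIk : ∀ k, ∀ v ∈ Si k, I v = Cs k := by
    intro k v hv
    simp only [hI]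
    ext i
    rw [mem_biUnion]
    constructor
    · rintro ⟨k', _, hk'⟩
      by_cases h : v ∈ Si k'
      · rw [if_pos h] at hk'
        have : k' = k := by
          by_contra hne
          exact disjoint_left.1 (hSid k' k hne) h hv
        rwa [← this]
      · rw [if_neg h] at hk'
        exact absurd hk' (notMem_empty _)
    · intro hi
      exact ⟨k, mem_univ _, by rw [if_pos hv]; exact hi⟩
  have hIall : ∀ v, ∃ k, I v ⊆ Cs k := by
    intro v
    by_cases h : ∃ k, v ∈ Si k
    · obtain ⟨k, hk⟩ := h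
      exact ⟨k, by rw [hIk k v hk]⟩
    · push Not at h
      obtain ⟨k⟩ := hk0
      refine ⟨k, fun i hi => ?_⟩
      obtain ⟨k', _, hk'⟩ := mem_biUnion.1 hi
      rw [if_neg (h k')] at hk'
      exact absurd hk' (notMem_empty _)
  have hIU : ∀ v, I v ⊆ U := by
    intro v
    obtain ⟨k, hk⟩ := hIall v
    exact hk.trans (subset_biUnion_of_mem Cs (mem_univ k))
  refine ⟨S0, I, hIall, ?_⟩
  intro c C9 hc
  have hsum : ∀ g : Pl K → ℝ, ∑ v ∈ S0, g v = ∑ k, ∑ v ∈ T k, g (Sum.inr v) := by
    intro g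
    rw [hS0, sum_biUnion fun k _ k' _ h => hSid k k' h]
    refine sum_congr rfl fun k _ => ?_
    rw [hSi, sum_map]
    rfl
  -- the other class
  have hoth : ∀ k : Fin s, ∃ k' : Fin s, k' ≠ k := by
    intro k
    by_cases h : k = ⟨0, by omega⟩
    · exact ⟨⟨1, by omega⟩, by rw [h]; intro h'; exact absurd (Fin.ext_iff.1 h') one_ne_zero⟩
    · exact ⟨⟨0, by omega⟩, fun h' => h h'.symm⟩
  choose o ho using hoth
  choose jj hjj using hne
  obtain ⟨Cu, hCu0, hCu⟩ := hup S0
  obtain ⟨Cm, hCm0, hCm⟩ := height_mul K r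
  obtain ⟨Ch, hCh0, hCh⟩ := height_upper (K := K) r
  obtain ⟨Cp, hCp0, hCp⟩ := proj_ht (K := K) (N := r + 1) (n := s)
    (fun j k => (bp a U (Cs k)).coeff j)
  set d : ℝ := (finrank ℚ K : ℝ) with hd
  have hd1 : 1 ≤ d := by
    rw [hd]
    exact_mod_cast (finrank_pos : 0 < finrank ℚ K)
  -- the constants of the local estimates
  set E : Fin s → HeightOneSpectrum (𝓞 K) → Fin q → ℝ := fun k v i =>
    |Real.log (∑ l ∈ range (r + 1), fv v (a (jj (o k))) ^ l)| +
      |Real.log (fv v ((bp a U (Cs (o k))).eval (a (jj (o k)))))| +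
      |Real.log (fv v ((bp a U (Cs k)).eval (a i)))| with hE
  set Et : ℝ := ∑ k, ∑ v ∈ T k, ∑ i ∈ Cs k, E k v i with hEt
  set El : ℝ := ∑ k, ((Cs k).card : ℝ) * (d * Real.log (pr k)) with hEl
  set Em : ℝ := ∑ v ∈ S0, ∑ _i ∈ I v, wt v * Real.log (r + 1) with hEm
  set Ea : ℝ := ∑ i, |Lam a r S0 I (X - C (a i))| with hEa
  set E2 : ℝ := ∑ v ∈ S0, ∑ _i ∈ I v, 2 * (r * Real.log 2) with hE2
  have hNt : ∑ k, ((Cs k).card : ℝ) = Nt := by
    rw [← hU, hUd, card_biUnion fun k _ k' _ h => hdis k k' h]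
    push_cast
    rfl
  have hNt1 : (1 : ℝ) ≤ Nt := by
    have h1 : 0 < U.card := card_pos.2 ⟨jj ⟨0, by omega⟩,
      mem_biUnion.2 ⟨_, mem_univ _, hjj _⟩⟩
    rw [hU] at h1
    exact_mod_cast h1
  -- the size of the examples
  set cp : ℝ := max c 0 with hcp
  have hcpN : cp < Nt := max_lt hc (by linarith)
  set X1 : ℝ := Et + El + (Nt - 1 + 1 / 2) * Cp + Cu with hX1
  set X2 : ℝ := Et + El + (Nt - 1 + 1 / 2) * (Cp + Cm) + 2 * Cu + Em with hX2
  set X3 : ℝ := Et + El + cp * (Cp + Ch) + C9 + E2 with hX3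
  set X4 : ℝ := Et + El + Ea with hX4
  obtain ⟨M, hM1, hM⟩ : ∃ M : ℕ, 1 ≤ M ∧ (2 * |X1| + 2 * |X2| + |X3| / (Nt - cp) + |X4| + 1) <
      Real.log M := by
    obtain ⟨M, hM⟩ := exists_nat_gt
      (Real.exp (2 * |X1| + 2 * |X2| + |X3| / (Nt - cp) + |X4| + 1))
    have hMp : (0 : ℝ) < M := (Real.exp_pos _).trans hM
    refine ⟨M, by exact_mod_cast hMp, ?_⟩
    rw [Real.lt_log_iff_exp_lt hMp]
    exact hM
  have hq3 : 0 ≤ |X3| / (Nt - cp) := div_nonneg (abs_nonneg _) (by linarith)
  have hlM : 0 ≤ Real.log M := Real.log_nonneg (by exact_mod_cast hM1)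
  have hdM : Real.log M ≤ d * Real.log M := le_mul_of_one_le_left hlM hd1
  have hb1 : X1 < 1 / 2 * (d * Real.log M) := by
    have := le_abs_self X1
    have := abs_nonneg X2
    have := abs_nonneg X4
    linarith
  have hb2 : X2 < 1 / 2 * (d * Real.log M) := by
    have := le_abs_self X2
    have := abs_nonneg X1
    have := abs_nonneg X4
    linarith
  have hb3 : X3 < (Nt - cp) * (d * Real.log M) := by
    have h1 := le_abs_self X3
    have h2 : |X3| / (Nt - cp) < d * Real.log M := by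
      have := abs_nonneg X1
      have := abs_nonneg X2
      have := abs_nonneg X4
      linarith
    rw [div_lt_iff₀ (by linarith)] at h2
    linarith
  have hb4 : X4 < Nt * (d * Real.log M) := by
    have h1 := le_abs_self X4
    have h2 : 1 * (d * Real.log M) ≤ Nt * (d * Real.log M) :=
      mul_le_mul_of_nonneg_right hNt1 (by positivity)
    have := abs_nonneg X1
    have := abs_nonneg X2
    linarith
  -- the exponents
  set n : Fin s → ℕ := fun k => Nat.log (pr k) M with hn
  set t : Fin s → ℕ := fun k => pr k ^ n k with ht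
  have ht0 : ∀ k, t k ≠ 0 := fun k => pow_ne_zero _ (hprime k).ne_zero
  have htM : ∀ k, t k ≤ M := fun k => Nat.pow_log_le_self _ (by omega)
  have htl : ∀ k, Real.log M - Real.log (pr k) ≤ n k * Real.log (pr k) := by
    intro k
    have h1 : M < pr k ^ (n k + 1) := Nat.lt_pow_succ_log_self (hprime k).one_lt _
    have h2 : (M : ℝ) ≤ (pr k : ℝ) ^ (n k + 1) := by exact_mod_cast h1.le
    have h3 := Real.log_le_log (by exact_mod_cast hM1) h2
    rw [Real.log_pow] at h3
    push_cast at h3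
    linarith
  obtain ⟨F, hF⟩ : ∃ F, F = Fp a Cs t := ⟨_, rfl⟩
  have hFd : F.natDegree ≤ r := by
    rw [hF]
    exact Fp_deg a Cs t r hrU
  have hFe : ∀ k, ∀ i ∈ Cs k, F.eval (a i) ≠ 0 := by
    intro k i hi
    rw [hF, Fp_eval a Cs hdis t hi]
    exact mul_ne_zero (by exact_mod_cast ht0 k) (bp_ne ha hi)
  have hFU : ∀ i ∈ U, F.eval (a i) ≠ 0 := by
    intro i hi
    obtain ⟨k, _, hk⟩ := mem_biUnion.1 hi
    exact hFe k i hk
  have hF0 : F ≠ 0 := by
    intro h
    have := hFe ⟨0, by omega⟩ _ (hjj _)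
    rw [h, eval_zero] at this
    exact this rfl
  -- the height
  have hhF : logHeight (cf r F) ≤ d * Real.log M + Cp := by
    have htne : (fun k => (t k : K)) ≠ 0 := by
      intro h
      have h9 : ((t ⟨0, by omega⟩ : ℕ) : K) = 0 := congrFun h ⟨0, by omega⟩
      exact ht0 _ (by exact_mod_cast h9)
    have h1 := height_nat t htne M hM1 htM
    have h2 := hCp ∅ (fun k => (t k : K)) htne (by
      rw [Fp_cf a Cs t r, ← hF]
      exact cf_ne hF0 hFd)
    rw [Fp_cf a Cs t r, ← hF, sum_empty] at h2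
    linarith
  -- the proximity
  have hLam : Nt * (d * Real.log M) - Et - El ≤ Lam a r S0 I F := by
    have h1 : ∀ k, ∀ v ∈ T k, ∀ i ∈ Cs k, -(n k * Real.log (fv v (pr k : K))) - E k v i ≤
        wt (Sum.inr v : Pl K) * (Real.log (nrm (av (Sum.inr v : Pl K)) (cf r F)) -
          Real.log (av (Sum.inr v : Pl K) (F.eval (a i)))) := by
      intro k v hv i hi
      have h2 : fv v (t (o k) : K) = 1 := by
        simp only [ht]
        push_cast
        rw [map_pow, fv_coprime v _ _ (hcop k (o k) (ho k).symm) (hT1 k v hv), one_pow]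
      have h3 := loc_est ha Cs hdis r hrU v t ht0 hi (hjj (o k)) h2
      have h4 : Real.log (fv v (t k : K)) = n k * Real.log (fv v (pr k : K)) := by
        simp only [ht]
        push_cast
        rw [map_pow, Real.log_pow]
      rw [h4] at h3
      show _ ≤ (1 : ℝ) * (Real.log (nrm (fv v) (cf r F)) - Real.log (fv v (F.eval (a i))))
      rw [one_mul, hF]
      exact h3
    have h2 : Lam a r S0 I F = ∑ k, ∑ v ∈ T k, ∑ i ∈ Cs k,
        wt (Sum.inr v : Pl K) * (Real.log (nrm (av (Sum.inr v : Pl K)) (cf r F)) -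
          Real.log (av (Sum.inr v : Pl K) (F.eval (a i)))) := by
      unfold Lam
      rw [hsum]
      refine sum_congr rfl fun k _ => sum_congr rfl fun v hv => ?_
      rw [hIk k (Sum.inr v) (mem_map_of_mem _ hv)]
    rw [h2]
    have h3 := sum_le_sum fun k (_ : k ∈ univ) => sum_le_sum fun v (hv : v ∈ T k) =>
      sum_le_sum fun i (hi : i ∈ Cs k) => h1 k v hv i hi
    refine le_trans ?_ h3
    have h4 : ∀ k, ∑ v ∈ T k, ∑ i ∈ Cs k, (-(n k * Real.log (fv v (pr k : K))) - E k v i) =
        ((Cs k).card : ℝ) * (n k * (d * Real.log (pr k))) - ∑ v ∈ T k, ∑ i ∈ Cs k, E k v i := by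
      intro k
      simp only [sum_sub_distrib, sum_const, nsmul_eq_mul]
      rw [← mul_sum, sum_neg_distrib, ← mul_sum, hT2]
      ring
    rw [sum_congr rfl fun k _ => h4 k, sum_sub_distrib, ← hEt]
    have h5 : Nt * (d * Real.log M) - El ≤ ∑ k, ((Cs k).card : ℝ) * (n k * (d * Real.log (pr k))) := by
      rw [hEl, ← hNt, sum_mul, ← sum_sub_distrib]
      refine sum_le_sum fun k _ => ?_
      rw [← mul_sub]
      refine mul_le_mul_of_nonneg_left ?_ (Nat.cast_nonneg _)
      have h6 := mul_le_mul_of_nonneg_left (htl k) (by linarith : (0 : ℝ) ≤ d)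
      rw [mul_sub] at h6
      linarith [h6, show d * (n k * Real.log (pr k)) = n k * (d * Real.log (pr k)) by ring]
    linarith
  have hh0 : ∀ G : K[X], 0 ≤ logHeight (cf r G) := fun G => logHeight_nonneg _
  have hNc : (0 : ℝ) ≤ Nt - 1 + 1 / 2 := by linarith
  -- the degree
  have hdeg : F.natDegree = r := by
    by_contra hne'
    have h1 := hCu F hF0 (by omega) hFU I fun v _ => hIall v
    have h2 := mul_le_mul_of_nonneg_left hhF hNc
    rw [hX1] at hb1
    linarith [h1, h2, hLam, show (Nt - 1 + 1 / 2) * (d * Real.log M + Cp) =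
      Nt * (d * Real.log M) - 1 / 2 * (d * Real.log M) + (Nt - 1 + 1 / 2) * Cp by ring]
  -- irreducibility
  have hirr : Irreducible F := by
    constructor
    · intro h
      have := natDegree_eq_zero_of_isUnit h
      omega
    · intro G H hGH
      by_contra hcon
      push Not at hcon
      obtain ⟨hGu, hHu⟩ := hcon
      have hG0 : G ≠ 0 := by
        rintro rfl
        rw [zero_mul] at hGH
        exact hF0 hGH
      have hH0 : H ≠ 0 := by
        rintro rfl
        rw [mul_zero] at hGH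
        exact hF0 hGH
      have hGd : 1 ≤ G.natDegree := by
        by_contra h
        have h1 : G.natDegree = 0 := by omega
        rw [eq_C_of_natDegree_eq_zero h1] at hGu hG0
        exact hGu (isUnit_C.2 (isUnit_iff_ne_zero.2 fun h => hG0 (by rw [h, C_0])))
      have hHd : 1 ≤ H.natDegree := by
        by_contra h
        have h1 : H.natDegree = 0 := by omega
        rw [eq_C_of_natDegree_eq_zero h1] at hHu hH0
        exact hHu (isUnit_C.2 (isUnit_iff_ne_zero.2 fun h => hH0 (by rw [h, C_0])))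
      have hsumd : G.natDegree + H.natDegree = r := by
        rw [← natDegree_mul hG0 hH0, ← hGH, hdeg]
      have hGe : ∀ i ∈ U, G.eval (a i) ≠ 0 ∧ H.eval (a i) ≠ 0 := by
        intro i hi
        have := hFU i hi
        rw [hGH, eval_mul] at this
        exact ⟨left_ne_zero_of_mul this, right_ne_zero_of_mul this⟩
      have h1 := hCu G hG0 (by omega) (fun i hi => (hGe i hi).1) I fun v _ => hIall v
      have h2 := hCu H hH0 (by omega) (fun i hi => (hGe i hi).2) I fun v _ => hIall v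
      have h3 := Lam_mul a r S0 I hG0 (by omega) hH0 (by omega) (by rw [← hGH]; exact hFd)
        (fun v _ i hi => hGe i (hIU v hi))
      have h4 := hCm G H hG0 hH0 (by omega) (by omega) (by rw [← hGH]; exact hFd)
      rw [← hGH] at h3 h4
      have h5 := mul_le_mul_of_nonneg_left (h4.trans (add_le_add_left hhF Cm)) hNc
      rw [mul_add] at h5
      rw [hX2] at hb2
      linarith [h1, h2, h3, h5, hLam, show (Nt - 1 + 1 / 2) * (d * Real.log M + Cp + Cm) =
        Nt * (d * Real.log M) - 1 / 2 * (d * Real.log M) + (Nt - 1 + 1 / 2) * (Cp + Cm) by ring]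
  obtain ⟨L, i1, i2, i3, x, hx, hrL, hmin⟩ := exists_field F hirr
  rw [hdeg] at hrL
  have hlc : F.leadingCoeff⁻¹ ≠ 0 := inv_ne_zero (leadingCoeff_ne_zero.2 hF0)
  have hmin' : minpoly K x = C F.leadingCoeff⁻¹ * F := by rw [hmin, mul_comm]
  refine ⟨L, i1, i2, i3, x, hx, hrL, ?_, ?_⟩
  · intro i hxi
    have h1 : F.eval (a i) = 0 := by
      have h2 : aeval x (minpoly K x) = 0 := minpoly.aeval K x
      have h3 : aeval x (minpoly K x) = algebraMap K L ((minpoly K x).eval (a i)) := by
        conv_lhs => rw [hxi]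
        rw [← hxi, aeval_def, hxi, eval₂_at_apply]
      rw [h3, _root_.map_eq_zero, hmin', eval_mul, eval_C] at h2
      exact (mul_eq_zero.1 h2).resolve_left hlc
    obtain ⟨G, hG⟩ := dvd_iff_isRoot.2 h1
    have hG0 : G ≠ 0 := by
      rintro rfl
      rw [mul_zero] at hG
      exact hF0 hG
    have hGu : IsUnit G := by
      rcases hirr.isUnit_or_isUnit hG with h | h
      · exact absurd (natDegree_eq_zero_of_isUnit h) (by rw [natDegree_X_sub_C]; exact one_ne_zero)
      · exact h
    obtain ⟨c', hc', rfl⟩ := Polynomial.isUnit_iff.1 hGu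
    have hc0 : c' ≠ 0 := hc'.ne_zero
    have hXd : (X - C (a i)).natDegree ≤ r := by
      rw [natDegree_X_sub_C]
      exact hr
    have h4 := Lam_smul a r S0 I (X_sub_C_ne_zero (a i)) hXd hc0 (fun v _ j hj => by
      intro h
      have := hFU j (hIU v hj)
      rw [hG, eval_mul, h, zero_mul] at this
      exact this rfl)
    rw [mul_comm, ← hG] at h4
    have h5 := le_abs_self (Lam a r S0 I (X - C (a i)))
    have h6 := single_le_sum (f := fun i => |Lam a r S0 I (X - C (a i))|)
      (fun i _ => abs_nonneg _) (mem_univ i)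
    rw [hX4] at hb4
    have h7 : |Lam a r S0 I (X - C (a i))| ≤ Ea := h6
    linarith
  · have h1 : Lam a r S0 I F - E2 ≤
        ∑ v ∈ S0, ∑ i ∈ I v, ∑ w ∈ ab L v, nn v w * prx v w (a i) x := by
      unfold Lam
      rw [hE2, ← sum_sub_distrib]
      refine sum_le_sum fun v _ => ?_
      rw [← sum_sub_distrib]
      refine sum_le_sum fun i hi => ?_
      have h2 : (minpoly K x).eval (a i) ≠ 0 := by
        rw [hmin', eval_mul, eval_C]
        exact mul_ne_zero hlc (hFU i (hIU v hi))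
      have h3 := prox_lower hx hrL v (a i) h2
      have h4 := log_smul (av v) hF0 hFd hlc (hFU i (hIU v hi))
      rw [← hmin'] at h4
      have h5 : (fun j : Fin (r + 1) => (minpoly K x).coeff j) = cf r (minpoly K x) := rfl
      rw [h5, h4] at h3
      exact h3
    have h2 := hCh L x hx hrL
    have h3 : logHeight (fun j : Fin (r + 1) => (minpoly K x).coeff j) = logHeight (cf r F) := by
      have h4 : (fun j : Fin (r + 1) => (minpoly K x).coeff j) = F.leadingCoeff⁻¹ • cf r F := by
        funext j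
        rw [hmin', coeff_C_mul]
        rfl
      rw [h4, logHeight_smul_eq_logHeight _ hlc]
    rw [h3] at h2
    have hhx : 0 ≤ logHeight ![1, x] := logHeight_nonneg _
    have h4 : c * logHeight ![1, x] ≤ cp * (d * Real.log M + (Cp + Ch)) :=
      (mul_le_mul_of_nonneg_right (le_max_left c 0) hhx).trans
        (mul_le_mul_of_nonneg_left (by linarith) (le_max_right c 0))
    rw [hX3] at hb3
    linarith [h1, h4, hLam, hb3, show cp * (d * Real.log M + (Cp + Ch)) =
      cp * (d * Real.log M) + cp * (Cp + Ch) by ring,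
      show (Nt - cp) * (d * Real.log M) = Nt * (d * Real.log M) - cp * (d * Real.log M) by ring]

end Pool.Agent.H430.Ft
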