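import Pool.Agent.H430.Ft.Shp2

/-!
Optimality: the theorem.
-/

set_option autoImplicit false

namespace Pool.Agent.H430.Ft

open Finset NumberField IsDedekindDomain Height Module Polynomial
open Pool.Agent.W180.OP (Pl av wt fv nrm wt_nonneg le_nrm exists_nrm nrm_pos nrm_nonneg)
open Pool.Agent.NH28 (nn ab mem_ab)
open Pool.Agent.H430.Cl

section

variable {q : ℕ}

/-- the classes of the targets -/
def cls (q N s : ℕ) (k : Fin s) : Finset (Fin q) :=
  univ.filter fun i => (i : ℕ) < N ∧ (i : ℕ) % s = k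

lemma cls_dis (N s : ℕ) (k k' : Fin s) (h : k ≠ k') : Disjoint (cls q N s k) (cls q N s k') := by
  rw [disjoint_left]
  intro i hi hi'
  have h1 := (mem_filter.1 hi).2.2
  have h2 := (mem_filter.1 hi').2.2
  exact h (Fin.ext (h1.symm.trans h2))

lemma cls_union {N s : ℕ} (hs : 0 < s) (hN : N ≤ q) : (univ.biUnion (cls q N s)).card = N := by
  have h1 : univ.biUnion (cls q N s) = (univ : Finset (Fin N)).map (Fin.castLEEmb hN) := by
    ext i
    constructor
    · intro hi
      obtain ⟨k, _, hk⟩ := mem_biUnion.1 hi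
      have h2 := (mem_filter.1 hk).2.1
      exact mem_map.2 ⟨⟨i, h2⟩, mem_univ _, rfl⟩
    · intro hi
      obtain ⟨j, _, rfl⟩ := mem_map.1 hi
      refine mem_biUnion.2 ⟨⟨(j : ℕ) % s, Nat.mod_lt _ hs⟩, mem_univ _, ?_⟩
      exact mem_filter.2 ⟨mem_univ _, j.2, rfl⟩
  rw [h1, card_map, card_univ, Fintype.card_fin]

lemma cls_card {N s : ℕ} (hs : 0 < s) (hN : N ≤ q) (k : Fin s) :
    (cls q N s k).card = N / s + if (k : ℕ) < N % s then 1 else 0 := by
  have h1 : (cls q N s k).card = ((range N).filter fun i => i % s = k).card := by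
    refine card_nbij (fun i => (i : ℕ)) ?_ ?_ ?_
    · intro i hi
      have h2 := (mem_filter.1 hi).2
      exact mem_filter.2 ⟨mem_range.2 h2.1, h2.2⟩
    · intro i _ j _ h
      exact Fin.ext h
    · intro i hi
      have h2 := mem_filter.1 (mem_coe.1 hi)
      have h3 := mem_range.1 h2.1
      exact ⟨⟨i, by omega⟩, mem_coe.2 (mem_filter.2 ⟨mem_univ _, h3, h2.2⟩), rfl⟩
  have h2 := Nat.count_modEq_card N hs (k : ℕ)
  rw [Nat.count_eq_card_filter_range] at h2
  rw [h1, ← Nat.mod_eq_of_lt k.2]
  rw [Nat.mod_eq_of_lt k.2] at h2 ⊢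
  rw [← h2]
  congr 1
  ext i
  rw [mem_filter, mem_filter]
  refine and_congr_right fun _ => ?_
  unfold Nat.ModEq
  rw [Nat.mod_eq_of_lt k.2]

lemma cls_ge {N s e : ℕ} (hs : 0 < s) (hN : N ≤ q) (h : s * e ≤ N) (k : Fin s) :
    e ≤ (cls q N s k).card := by
  rw [cls_card hs hN]
  have h1 : e ≤ N / s := by
    rw [Nat.le_div_iff_mul_le hs, mul_comm]
    exact h
  omega

lemma cls_le {N s e : ℕ} (hs : 0 < s) (hN : N ≤ q) (h : N ≤ s * e) (k : Fin s) :
    (cls q N s k).card ≤ e := by
  rw [cls_card hs hN]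
  by_cases h1 : N = s * e
  · rw [h1, Nat.mul_div_cancel_left e hs, Nat.mul_mod_right, if_neg (by omega)]
    omega
  · have h2 : N / s < e := by
      rw [Nat.div_lt_iff_lt_mul hs, mul_comm]
      omega
    split_ifs <;> omega

end

variable {K : Type} [Field K] [NumberField K]

/-- optimality of the constant -/
theorem sharp {q : ℕ} (a : Fin q → K) (ha : Function.Injective a) (r m : ℕ) (hm : 1 ≤ m)
    (hmr : m ≤ r) (h : m ∣ r ∨ m ≤ r / m + r % m + 1) (hq : opt r m ≤ q) :
    ∃ (S0 : Finset (Pl K)) (I : Pl K → Finset (Fin q)), (∀ v, (I v).card ≤ m) ∧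
      ∀ c C : ℝ, c < opt r m → ∃ (L : Type) (_ : Field L) (_ : NumberField L) (_ : Algebra K L)
        (x : L), IntermediateField.adjoin K {x} = ⊤ ∧ finrank K L = r ∧
        (∀ i, lf ![-x, 1] (a i) ≠ 0) ∧
        c * logHeight ![-x, 1] + C < ∑ v ∈ S0, ∑ i ∈ I v, prox v (a i) ![-x, 1] := by
  classical
  obtain ⟨s, hs2, hle, hge, hlt⟩ : ∃ s : ℕ, 2 ≤ s ∧ opt r m ≤ s * m ∧
      (∀ k : Fin s, 1 ≤ (cls q (opt r m) s k).card ∧ opt r m ≤ r + (cls q (opt r m) s k).card) ∧
      (m ∣ r ∨ (2 ≤ m ∧ opt r m < s * m)) := by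
    by_cases hd : m ∣ r
    · obtain ⟨e, rfl⟩ := hd
      have he : 1 ≤ e := by
        rcases Nat.eq_zero_or_pos e with h | h
        · subst h
          omega
        · exact h
      have ho : opt (m * e) m = (e + 1) * m := by
        unfold opt
        rw [if_pos (dvd_mul_right m e)]
        ring
      refine ⟨e + 1, by omega, by rw [ho], fun k => ?_, Or.inl (dvd_mul_right m e)⟩
      have h1 := cls_ge (q := q) (N := opt (m * e) m) (s := e + 1) (e := m) (by omega) hq
        (by rw [ho]) k
      refine ⟨by omega, ?_⟩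
      rw [ho] at h1 ⊢
      have : (e + 1) * m = m * e + m := by ring
      omega
    · have hm2 : 2 ≤ m := by
        by_contra hlt
        have h1 : m = 1 := by omega
        exact hd (h1 ▸ one_dvd r)
      have ho : opt r m = r + m - 1 := by
        unfold opt
        rw [if_neg hd]
      have hcond := h.resolve_left hd
      set e := r / m with he
      set ρ := r % m with hρ
      have hr : r = m * e + ρ := (Nat.div_add_mod r m).symm
      have hρm : ρ < m := Nat.mod_lt _ (by omega)
      have h3 : (e + 2) * m = m * e + 2 * m := by ring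
      obtain ⟨m', rfl⟩ : ∃ m', m = m' + 1 := ⟨m - 1, by omega⟩
      have h4 : (e + 2) * m' = (m' + 1) * e + 2 * m' - e := by
        have : (m' + 1) * e + 2 * m' = (e + 2) * m' + e := by ring
        omega
      have h5 : (m' + 1) * e + 2 * m' = (e + 2) * m' + e := by ring
      refine ⟨e + 2, by omega, by rw [ho, h3]; omega, fun k => ?_,
        Or.inr ⟨hm2, by rw [ho, h3]; omega⟩⟩
      have h1 := cls_ge (q := q) (N := opt r (m' + 1)) (s := e + 2) (e := m') (by omega) hq
        (by rw [ho]; omega) k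
      rw [ho] at h1 ⊢
      omega
  have hs : 0 < s := by omega
  have hU := cls_union (q := q) hs hq
  have hcm : ∀ k, (cls q (opt r m) s k).card ≤ m := cls_le hs hq hle
  have hup : ∀ S0 : Finset (Pl K), ∃ C : ℝ, 0 ≤ C ∧ ∀ f : K[X], f ≠ 0 → f.natDegree ≤ r - 1 →
      (∀ i ∈ univ.biUnion (cls q (opt r m) s), f.eval (a i) ≠ 0) →
      ∀ I : Pl K → Finset (Fin q), (∀ v ∈ S0, ∃ k, I v ⊆ cls q (opt r m) s k) →
      Lam a r S0 I f ≤ ((opt r m : ℕ) - 1 + 1 / 2) * logHeight (cf r f) + C := by
    intro S0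
    rcases hlt with hd | ⟨hm2, hlt⟩
    · obtain ⟨C, hC0, hC⟩ := up_gen a ha (r - 1) r (by omega) S0 (1 / 2) (by norm_num)
        (univ.biUnion (cls q (opt r m) s)) m hm
      refine ⟨C, hC0, fun f hf hfd hfU I hI => ?_⟩
      have h1 := hC f hf hfd hfU I (fun v hv => by
        obtain ⟨k, hk⟩ := hI v hv
        exact ⟨hk.trans (subset_biUnion_of_mem _ (mem_univ k)), (card_le_card hk).trans (hcm k)⟩)
      have h2 : ((opt r m : ℕ) : ℝ) - 1 = ((r - 1 : ℕ) : ℝ) + m := by
        unfold opt
        rw [if_pos hd, Nat.cast_sub (by omega)]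
        push_cast
        ring
      rw [h2]
      exact h1
    · by_cases hd : m ∣ r
      · obtain ⟨C, hC0, hC⟩ := up_gen a ha (r - 1) r (by omega) S0 (1 / 2) (by norm_num)
          (univ.biUnion (cls q (opt r m) s)) m hm
        refine ⟨C, hC0, fun f hf hfd hfU I hI => ?_⟩
        have h1 := hC f hf hfd hfU I (fun v hv => by
          obtain ⟨k, hk⟩ := hI v hv
          exact ⟨hk.trans (subset_biUnion_of_mem _ (mem_univ k)), (card_le_card hk).trans (hcm k)⟩)
        have h2 : ((opt r m : ℕ) : ℝ) - 1 = ((r - 1 : ℕ) : ℝ) + m := by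
          unfold opt
          rw [if_pos hd, Nat.cast_sub (by omega)]
          push_cast
          ring
        rw [h2]
        exact h1
      have ho : opt r m = r + m - 1 := by
        unfold opt
        rw [if_neg hd]
      have h0 : ∃ k0, (cls q (opt r m) s k0).card < m ∧ (cls q (opt r m) s k0).Nonempty := by
        by_contra hcon
        push Not at hcon
        have h1 : ∀ k, (cls q (opt r m) s k).card = m := by
          intro k
          by_contra hne
          have h2 := hcon k (lt_of_le_of_ne (hcm k) hne)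
          have h3 := (hge k).1
          rw [h2, card_empty] at h3
          omega
        have h2 : (univ.biUnion (cls q (opt r m) s)).card = s * m := by
          rw [card_biUnion fun k _ k' _ h => cls_dis _ _ k k' h, sum_congr rfl fun k _ => h1 k,
            sum_const, card_univ, Fintype.card_fin, smul_eq_mul]
        rw [hU] at h2
        omega
      obtain ⟨C, hC0, hC⟩ := up_heavy a ha (r - 1) r (by omega) S0 (1 / 2) (by norm_num) m hm2
        (cls q (opt r m) s) (cls_dis _ _) hcm (by rw [hU, ho]; omega) h0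
      refine ⟨C, hC0, fun f hf hfd hfU I hI => ?_⟩
      have h1 := hC f hf hfd hfU I hI
      have h2 : ((opt r m : ℕ) : ℝ) - 1 = ((r - 1 : ℕ) : ℝ) + m - 1 := by
        rw [ho, Nat.cast_sub (by omega), Nat.cast_sub (by omega)]
        push_cast
        ring
      rw [h2]
      exact h1
  obtain ⟨S0, I, hI, hsh⟩ := sharp_core a ha r (opt r m) (by omega) (cls q (opt r m) s)
    (cls_dis _ _) hU (fun k => (hge k).2) hs2 (fun k => card_pos.1 (hge k).1) hup
  refine ⟨S0, I, fun v => ?_, fun c C hc => ?_⟩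
  · obtain ⟨k, hk⟩ := hI v
    exact (card_le_card hk).trans (hcm k)
  · obtain ⟨L, i1, i2, i3, x, hx, hr, hxa, hlow⟩ := hsh c C hc
    refine ⟨L, i1, i2, i3, x, hx, hr, fun i => ?_, ?_⟩
    · have h1 : lf (n := 1) ![-x, 1] (a i) = -(x - algebraMap K L (a i)) := by
        unfold lf
        rw [Fin.sum_univ_two]
        simp only [Matrix.cons_val_zero, Matrix.cons_val_one, Fin.val_zero, Fin.val_one, pow_zero,
          pow_one, map_one]
        ring
      rw [h1, neg_ne_zero, sub_ne_zero]
      exact hxa i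
    · rw [height_point]
      refine lt_of_lt_of_eq hlow ?_
      exact sum_congr rfl fun v _ => sum_congr rfl fun i _ => (prox_point v (a i) x).symm

end Pool.Agent.H430.Ft
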