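import Pool.Agent.H430.Ft.Pol
import Pool.Agent.H430.Ft.Core

/-!
The inequalities for polynomials.
-/

set_option autoImplicit false

namespace Pool.Agent.H430.Ft

open Finset NumberField IsDedekindDomain Height Module Polynomial
open Pool.Agent.W180.OP (Pl av wt fv nrm wt_nonneg le_nrm exists_nrm nrm_pos nrm_nonneg)
open Pool.Agent.NH28 (nn ab mem_ab)
open Pool.Agent.H430.Cl
open Pool.Agent.H430.Gw (ht_T proj_ht)

variable {K : Type} [Field K] [NumberField K]

/-- from values to coefficients -/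
theorem poly_up {q : ℕ} (a : Fin q → K) (ha : Function.Injective a) (R r : ℕ) (hRr : R ≤ r)
    (S : Finset (Pl K)) (T : ℝ) (hT0 : 0 ≤ T) (ε : ℝ) (hε : 0 < ε) (U : Finset (Fin q))
    (P : Finset (Fin q) → Prop)
    (hval : ∀ (N : ℕ) (pt : Fin N → K) (e : Fin q ↪ Fin N), Function.Injective pt →
      (∀ i, pt (e i) = a i) → ∃ C : ℝ, 0 ≤ C ∧ ∀ F ∈ Ev pt R, F ≠ 0 →
      (∀ i ∈ U.map e, F i ≠ 0) → ∀ I : Pl K → Finset (Fin q), (∀ v ∈ S, P (I v)) →
      ∑ v ∈ S, ∑ i ∈ (I v).map e, wt v * (Real.log (nrm (av v) F) - Real.log (av v (F i))) ≤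
        (T + ε) * logHeight F + C) :
    ∃ C : ℝ, 0 ≤ C ∧ ∀ f : K[X], f ≠ 0 → f.natDegree ≤ R → (∀ i ∈ U, f.eval (a i) ≠ 0) →
      ∀ I : Pl K → Finset (Fin q), (∀ v ∈ S, P (I v)) →
      ∑ v ∈ S, ∑ i ∈ I v, wt v * (Real.log (nrm (av v) (cf r f)) -
        Real.log (av v (f.eval (a i)))) ≤ (T + ε) * logHeight (cf r f) + C := by
  classical
  obtain ⟨pt, hpt, hpa⟩ := exists_extra a ha (r + 1)
  obtain ⟨C1, hC10, hC1⟩ := hval _ pt (Fin.castAddEmb (r + 1)) hpt hpa
  obtain ⟨A, hA⟩ := coeff_of_values pt hpt r (by omega)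
  obtain ⟨Cp, hCp0, hCp⟩ := proj_ht (K := K) (N := q + (r + 1)) (n := r + 1)
    (fun i j => pt i ^ (j : ℕ))
  set B : Pl K → ℝ := fun v => max 1 (∑ j, ∑ i, av v (A j i)) with hB
  have hB1 : ∀ v, 1 ≤ B v := fun v => le_max_left _ _
  have hBs : 0 ≤ ∑ v ∈ S, q * (wt v * Real.log (B v)) := sum_nonneg fun v _ =>
    mul_nonneg (Nat.cast_nonneg _) (mul_nonneg (wt_nonneg v) (Real.log_nonneg (hB1 v)))
  refine ⟨(T + ε) * Cp + C1 + ∑ v ∈ S, q * (wt v * Real.log (B v)), by positivity, ?_⟩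
  intro f hf0 hfR hfU I hI
  set F : Fin (q + (r + 1)) → K := fun i => f.eval (pt i) with hF
  have hcf0 : cf r f ≠ 0 := cf_ne hf0 (hfR.trans hRr)
  have hAF : (fun j => ∑ i, A j i * F i) = cf r f := hA f (hfR.trans hRr)
  have hF0 : F ≠ 0 := by
    intro h
    apply hcf0
    rw [← hAF, h]
    funext j
    simp
  have hVF : (fun i => ∑ j : Fin (r + 1), pt i ^ (j : ℕ) * cf r f j) = F := by
    funext i
    rw [hF]
    beta_reduce
    rw [eval_eq_sum_range' (n := r + 1) (by omega), ← Fin.sum_univ_eq_sum_range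
      (fun j => f.coeff j * pt i ^ j) (r + 1)]
    exact sum_congr rfl fun j _ => mul_comm _ _
  have hhF : logHeight F ≤ logHeight (cf r f) + Cp := by
    have h6 := hCp ∅ (cf r f) hcf0 (by rw [hVF]; exact hF0)
    rw [hVF, sum_empty] at h6
    linarith
  have h1 := hC1 F (mem_Ev.2 ⟨f, hfR, fun i => rfl⟩) hF0 (by
    intro i hi
    obtain ⟨j, hj, rfl⟩ := mem_map.1 hi
    show f.eval (pt (Fin.castAdd (r + 1) j)) ≠ 0
    rw [hpa]
    exact hfU j hj) I hI
  have hnc : ∀ v : Pl K, Real.log (nrm (av v) (cf r f)) ≤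
      Real.log (B v) + Real.log (nrm (av v) F) := by
    intro v
    have hFp := nrm_pos (av v) hF0
    rw [← Real.log_mul (by have := hB1 v; positivity) hFp.ne']
    refine Real.log_le_log (nrm_pos _ hcf0) ?_
    obtain ⟨j, hj⟩ := exists_nrm (av v) (Nat.succ_pos r) (cf r f)
    rw [← hj, ← hAF]
    have h2 : av v (∑ i, A j i * F i) ≤ ∑ i, av v (A j i) * nrm (av v) F := by
      refine ((av v).sum_le _ _).trans (sum_le_sum fun i _ => ?_)
      rw [map_mul]
      exact mul_le_mul_of_nonneg_left (le_nrm _ _ _) ((av v).nonneg _)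
    refine h2.trans ?_
    rw [← sum_mul]
    refine mul_le_mul_of_nonneg_right ?_ hFp.le
    refine le_trans ?_ (le_max_right _ _)
    exact single_le_sum (f := fun j => ∑ i, av v (A j i)) (fun j _ => sum_nonneg fun i _ =>
      (av v).nonneg _) (mem_univ j)
  have h2 : ∀ v ∈ S, ∑ i ∈ I v, wt v * (Real.log (nrm (av v) (cf r f)) -
      Real.log (av v (f.eval (a i)))) ≤
      ∑ i ∈ (I v).map (Fin.castAddEmb (r + 1)), wt v * (Real.log (nrm (av v) F) -
        Real.log (av v (F i))) + q * (wt v * Real.log (B v)) := by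
    intro v _
    rw [sum_map]
    have h3 : ∀ i ∈ I v, wt v * (Real.log (nrm (av v) (cf r f)) -
        Real.log (av v (f.eval (a i)))) ≤
        wt v * (Real.log (nrm (av v) F) - Real.log (av v (F (Fin.castAddEmb (r + 1) i)))) +
          wt v * Real.log (B v) := by
      intro i _
      have h4 : F (Fin.castAddEmb (r + 1) i) = f.eval (a i) := by
        show f.eval (pt (Fin.castAdd (r + 1) i)) = _
        rw [hpa]
      rw [h4, ← mul_add]
      refine mul_le_mul_of_nonneg_left ?_ (wt_nonneg v)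
      have := hnc v
      linarith
    refine (sum_le_sum h3).trans ?_
    rw [sum_add_distrib, sum_const, nsmul_eq_mul]
    have h5 : ((I v).card : ℝ) * (wt v * Real.log (B v)) ≤ q * (wt v * Real.log (B v)) := by
      refine mul_le_mul_of_nonneg_right ?_
        (mul_nonneg (wt_nonneg v) (Real.log_nonneg (hB1 v)))
      have := card_le_univ (I v)
      rw [Fintype.card_fin] at this
      exact_mod_cast this
    linarith
  refine (sum_le_sum h2).trans ?_
  rw [sum_add_distrib]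
  have h3 : (T + ε) * logHeight F ≤ (T + ε) * (logHeight (cf r f) + Cp) :=
    mul_le_mul_of_nonneg_left hhF (by positivity)
  linarith

/-- the general bound -/
theorem up_gen {q : ℕ} (a : Fin q → K) (ha : Function.Injective a) (R r : ℕ) (hRr : R ≤ r)
    (S : Finset (Pl K)) (ε : ℝ) (hε : 0 < ε) (U : Finset (Fin q)) (m : ℕ) (hm : 1 ≤ m) :
    ∃ C : ℝ, 0 ≤ C ∧ ∀ f : K[X], f ≠ 0 → f.natDegree ≤ R → (∀ i ∈ U, f.eval (a i) ≠ 0) →
      ∀ I : Pl K → Finset (Fin q), (∀ v ∈ S, I v ⊆ U ∧ (I v).card ≤ m) →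
      ∑ v ∈ S, ∑ i ∈ I v, wt v * (Real.log (nrm (av v) (cf r f)) -
        Real.log (av v (f.eval (a i)))) ≤ (R + m + ε) * logHeight (cf r f) + C := by
  refine poly_up a ha R r hRr S (R + m) (by positivity) ε hε U (fun I => I ⊆ U ∧ I.card ≤ m) ?_
  intro N pt e hpt _
  obtain ⟨C, hC0, hC⟩ := values_ft pt hpt (U.map e) R S ε hε m hm
  refine ⟨C, hC0, fun F hF hF0 hFU I hI => ?_⟩
  refine hC F hF hF0 hFU (fun v => (I v).map e) fun v hv => ⟨map_subset_map.2 (hI v hv).1, ?_⟩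
  rw [card_map]
  exact (hI v hv).2

/-- the refined bound -/
theorem up_heavy {q : ℕ} (a : Fin q → K) (ha : Function.Injective a) (R r : ℕ) (hRr : R ≤ r)
    (S : Finset (Pl K)) (ε : ℝ) (hε : 0 < ε) (m : ℕ) (hm : 2 ≤ m) {s : ℕ}
    (Cs : Fin s → Finset (Fin q)) (hdis : ∀ k k', k ≠ k' → Disjoint (Cs k) (Cs k'))
    (hcard : ∀ k, (Cs k).card ≤ m) (hU : (univ.biUnion Cs).card = R + m)
    (h0 : ∃ k0, (Cs k0).card < m ∧ (Cs k0).Nonempty) :
    ∃ C : ℝ, 0 ≤ C ∧ ∀ f : K[X], f ≠ 0 → f.natDegree ≤ R →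
      (∀ i ∈ univ.biUnion Cs, f.eval (a i) ≠ 0) →
      ∀ I : Pl K → Finset (Fin q), (∀ v ∈ S, ∃ k, I v ⊆ Cs k) →
      ∑ v ∈ S, ∑ i ∈ I v, wt v * (Real.log (nrm (av v) (cf r f)) -
        Real.log (av v (f.eval (a i)))) ≤ (R + m - 1 + ε) * logHeight (cf r f) + C := by
  classical
  have hm' : (2 : ℝ) ≤ m := by exact_mod_cast hm
  have hR' : (0 : ℝ) ≤ R := Nat.cast_nonneg _
  refine poly_up a ha R r hRr S (R + m - 1) (by linarith) ε hε (univ.biUnion Cs)
    (fun I => ∃ k, I ⊆ Cs k) ?_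
  intro N pt e hpt _
  obtain ⟨C, hC0, hC⟩ := values_heavy pt hpt ((univ.biUnion Cs).map e) R S ε hε m hm
    (fun I' => ∃ k, I' ⊆ (Cs k).map e)
    (by
      rintro I ⟨k, hk⟩
      refine ⟨hk.trans (map_subset_map.2 (subset_biUnion_of_mem Cs (mem_univ k))), ?_⟩
      refine (card_le_card hk).trans ?_
      rw [card_map]
      exact hcard k)
    (by
      rintro I ⟨k, hk⟩ J hJ
      exact ⟨k, hJ.trans hk⟩)
    (by
      intro κ _ J hJ hJd hcon
      obtain ⟨k0, hk0, i0, hi0⟩ := h0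
      have h1 : (univ.biUnion J).card = Fintype.card κ * m := by
        rw [card_biUnion (fun k _ k' _ h => hJd k k' h), sum_congr rfl fun k _ => (hJ k).2,
          sum_const, card_univ, smul_eq_mul]
      have h2 : univ.biUnion J ⊆ (univ.biUnion Cs).map e := by
        intro i hi
        obtain ⟨k, _, hk⟩ := mem_biUnion.1 hi
        obtain ⟨k1, hk1⟩ := (hJ k).1
        exact map_subset_map.2 (subset_biUnion_of_mem Cs (mem_univ k1)) (hk1 hk)
      have h3 : univ.biUnion J = (univ.biUnion Cs).map e := by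
        refine eq_of_subset_of_card_le h2 ?_
        rw [card_map, hU, h1, hcon]
      have h4 : e i0 ∈ univ.biUnion J := by
        rw [h3]
        exact mem_map_of_mem _ (mem_biUnion.2 ⟨k0, mem_univ _, hi0⟩)
      obtain ⟨k, _, hk⟩ := mem_biUnion.1 h4
      obtain ⟨k1, hk1⟩ := (hJ k).1
      have h5 := hk1 hk
      rw [mem_map' e] at h5
      have h6 : k1 = k0 := by
        by_contra hne
        exact disjoint_left.1 (hdis k1 k0 hne) h5 hi0
      have h7 := card_le_card hk1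
      rw [(hJ k).2, card_map, h6] at h7
      omega)
  refine ⟨C, hC0, fun F hF hF0 hFU I hI => ?_⟩
  refine hC F hF hF0 hFU (fun v => (I v).map e) fun v hv => ?_
  obtain ⟨k, hk⟩ := hI v hv
  exact ⟨k, map_subset_map.2 hk⟩

end Pool.Agent.H430.Ft
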